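import Mathlib
import Pool.Agent.Lib.MP_04add8_pr.Integ

/-! The integrated Weibull tail. -/

open MeasureTheory ProbabilityTheory Filter Topology
open scoped ENNReal

set_option linter.unusedSectionVars false

namespace Pool.Agent.Lib.MP_04add8_pr

/-- the integrated Weibull tail -/
noncomputable def BI (a z : ℝ) : ℝ := ∫ y in Set.Ioi z, Real.exp (-(y ^ a))

section calc_

variable {a : ℝ}

lemma BI_integrableOn (ha0 : 0 < a) (ha1 : a < 1) {z : ℝ} (hz : 0 ≤ z) :
    IntegrableOn (fun y : ℝ => Real.exp (-(y ^ a))) (Set.Ioi z) := by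
  -- on `(1, ∞)` compare with a power
  have h1 : IntegrableOn (fun y : ℝ => Real.exp (-(y ^ a))) (Set.Ioi 1) := by
    have h2 : IntegrableOn (fun y : ℝ => ((2 / a) / 1) ^ (2 / a) * y ^ (-2 : ℝ)) (Set.Ioi 1) :=
      (integrableOn_Ioi_rpow_of_lt (by norm_num) one_pos).const_mul _
    refine Integrable.mono' h2 (by fun_prop) ?_
    filter_upwards [ae_restrict_mem measurableSet_Ioi] with y hy
    have hy0 : (0 : ℝ) < y := lt_trans one_pos hy
    rw [Real.norm_of_nonneg (Real.exp_pos _).le]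
    have h3 := rpow_le_exp (p := 2 / a) (c := 1) (u := y ^ a) (by positivity) one_pos (by positivity)
    rw [← Real.rpow_mul hy0.le, mul_div_cancel₀ _ ha0.ne', one_mul] at h3
    rw [Real.exp_neg, inv_le_iff_one_le_mul₀ (Real.exp_pos _)]
    have h4 : y ^ (2 : ℝ) * y ^ (-2 : ℝ) = 1 := by
      rw [← Real.rpow_add hy0]; norm_num
    have h5 : 0 < y ^ (-2 : ℝ) := by positivity
    calc (1 : ℝ) = y ^ (2 : ℝ) * y ^ (-2 : ℝ) := h4.symm
      _ ≤ ((2 / a) / 1) ^ (2 / a) * Real.exp (y ^ a) * y ^ (-2 : ℝ) := by gcongr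
      _ = _ := by ring
  have h2 : IntegrableOn (fun y : ℝ => Real.exp (-(y ^ a))) (Set.Icc 0 1) := by
    apply Continuous.integrableOn_Icc
    have : Continuous fun y : ℝ => y ^ a := Real.continuous_rpow_const ha0.le
    fun_prop
  have h3 := h2.union h1
  refine h3.mono_set ?_
  intro y hy
  have hy0 : 0 ≤ y := hz.trans (le_of_lt hy)
  rcases le_or_gt y 1 with h | h
  · left; exact ⟨hy0, h⟩
  · right; exact h

lemma setIntegral_Ioi_shift (f : ℝ → ℝ) (z h : ℝ) :
    ∫ y in Set.Ioi (z + h), f y = ∫ y in Set.Ioi z, f (y + h) := by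
  rw [← integral_indicator measurableSet_Ioi, ← integral_indicator measurableSet_Ioi,
    ← integral_add_right_eq_self (fun y => (Set.Ioi (z + h)).indicator f y) h]
  congr 1
  funext y
  simp [Set.indicator]

lemma BI_pos (ha0 : 0 < a) (ha1 : a < 1) {z : ℝ} (hz : 0 ≤ z) : 0 < BI a z := by
  unfold BI
  rw [setIntegral_pos_iff_support_of_nonneg_ae]
  · have : (Function.support fun y : ℝ => Real.exp (-(y ^ a))) = Set.univ := by
      ext y; simp [Real.exp_ne_zero]
    rw [this, Set.univ_inter]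
    simp
  · filter_upwards with y
    positivity
  · exact BI_integrableOn ha0 ha1 hz

lemma BI_anti (ha0 : 0 < a) (ha1 : a < 1) {z z' : ℝ} (hz : 0 ≤ z) (h : z ≤ z') :
    BI a z' ≤ BI a z := by
  unfold BI
  apply setIntegral_mono_set (BI_integrableOn ha0 ha1 hz)
  · filter_upwards with y
    positivity
  · exact (Set.Ioi_subset_Ioi h).eventuallyLE

/-- long-tail property with an explicit rate -/
lemma BI_shift (ha0 : 0 < a) (ha1 : a < 1) {z h : ℝ} (hz : 0 < z) (hh : 0 ≤ h) :
    Real.exp (-(a * z ^ (a - 1) * h)) * BI a z ≤ BI a (z + h) := by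
  unfold BI
  rw [setIntegral_Ioi_shift, ← integral_const_mul]
  have hi : IntegrableOn (fun y : ℝ => Real.exp (-((y + h) ^ a))) (Set.Ioi z) := by
    have h1 : IntegrableOn (fun y : ℝ => Real.exp (-(y ^ a))) (Set.Ioi (z + h)) :=
      BI_integrableOn ha0 ha1 (by linarith)
    have h2 := (measurePreserving_add_right (volume : Measure ℝ) h).integrableOn_comp_preimage
      (MeasurableEquiv.addRight h).measurableEmbedding (f := fun y : ℝ => Real.exp (-(y ^ a)))
      (s := Set.Ioi (z + h))
    have h3 := h2.mpr h1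
    have e : (fun y : ℝ => y + h) ⁻¹' Set.Ioi (z + h) = Set.Ioi z := by
      ext y; simp
    rw [e] at h3
    exact h3
  apply setIntegral_mono_on ((BI_integrableOn ha0 ha1 hz.le).const_mul _) hi measurableSet_Ioi
  intro y hy
  have hy0 : 0 < y := hz.trans hy
  rw [← Real.exp_add]
  apply Real.exp_le_exp.mpr
  have h1 := rpow_add_le_tangent ha0 ha1 hy0 (y := h) (by linarith)
  have h2 : y ^ (a - 1) ≤ z ^ (a - 1) :=
    Real.rpow_le_rpow_of_nonpos hz (le_of_lt hy) (by linarith)
  have h3 : a * y ^ (a - 1) * h ≤ a * z ^ (a - 1) * h := by gcongr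
  linarith

/-- the tail is small compared with the integrated tail -/
lemma exp_le_BI (ha0 : 0 < a) (ha1 : a < 1) {z : ℝ} (hz : 0 < z) :
    Real.exp (-(z ^ a)) ≤ a * z ^ (a - 1) * BI a z := by
  set G : ℝ → ℝ := fun s => -(s ^ (1 - a) * Real.exp (-(s ^ a))) with hG
  set G' : ℝ → ℝ := fun s => (a - (1 - a) * s ^ (-a)) * Real.exp (-(s ^ a)) with hG'
  have hderiv : ∀ x ∈ Set.Ici z, HasDerivAt G (G' x) x := by
    intro x hx
    have hx0 : 0 < x := hz.trans_le hx
    have h1 : HasDerivAt (fun s : ℝ => s ^ (1 - a)) ((1 - a) * x ^ (1 - a - 1)) x :=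
      Real.hasDerivAt_rpow_const (x := x) (p := 1 - a) (Or.inl hx0.ne')
    have h2 : HasDerivAt (fun s : ℝ => s ^ a) (a * x ^ (a - 1)) x :=
      Real.hasDerivAt_rpow_const (x := x) (p := a) (Or.inl hx0.ne')
    have h3 := (h2.neg).exp
    have h4 := (h1.mul h3).neg
    refine h4.congr_deriv ?_
    rw [hG']
    simp only [Pi.neg_apply]
    have e1 : x ^ (1 - a - 1) = x ^ (-a) := by congr 1; ring
    have e2 : x ^ (1 - a) * x ^ (a - 1) = 1 := by
      rw [← Real.rpow_add hx0]
      have : 1 - a + (a - 1) = 0 := by ring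
      rw [this, Real.rpow_zero]
    rw [e1]
    have e3 : x ^ (1 - a) * (Real.exp (-x ^ a) * -(a * x ^ (a - 1))) =
      -(a * (x ^ (1 - a) * x ^ (a - 1)) * Real.exp (-x ^ a)) := by ring
    rw [e3, e2]
    ring
  have hlim : Tendsto G atTop (𝓝 0) := by
    have := (tendsto_rpow_mul_exp ha0 ha1).neg
    simpa using this
  have hI := BI_integrableOn ha0 ha1 hz.le
  have hint' : IntegrableOn G' (Set.Ioi z) := by
    refine Integrable.mono' (hI.const_mul (a + (1 - a) * z ^ (-a))) (by fun_prop) ?_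
    filter_upwards [ae_restrict_mem measurableSet_Ioi] with x hx
    have hx0 : 0 < x := hz.trans hx
    rw [hG', norm_mul, Real.norm_of_nonneg (Real.exp_pos _).le]
    gcongr
    rw [Real.norm_eq_abs, abs_le]
    have h1 : x ^ (-a) ≤ z ^ (-a) :=
      Real.rpow_le_rpow_of_nonpos hz (le_of_lt hx) (by linarith)
    have h2 : 0 < x ^ (-a) := by positivity
    have h3 : (1 - a) * x ^ (-a) ≤ (1 - a) * z ^ (-a) := by
      apply mul_le_mul_of_nonneg_left h1; linarith
    have h4 : 0 ≤ (1 - a) * x ^ (-a) := by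
      apply mul_nonneg _ h2.le; linarith
    constructor <;> linarith
  have hval := integral_Ioi_of_hasDerivAt_of_tendsto' hderiv hint' hlim
  have hle : ∫ s in Set.Ioi z, G' s ≤ ∫ s in Set.Ioi z, a * Real.exp (-(s ^ a)) := by
    apply setIntegral_mono_on hint' (hI.const_mul a) measurableSet_Ioi
    intro x hx
    have hx0 : 0 < x := hz.trans hx
    rw [hG']
    simp only
    have : 0 ≤ (1 - a) * x ^ (-a) := by
      apply mul_nonneg _ (by positivity); linarith
    have h5 := Real.exp_pos (-(x ^ a))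
    nlinarith
  rw [hval, hG, integral_const_mul] at hle
  have h6 : z ^ (1 - a) * Real.exp (-(z ^ a)) ≤ a * BI a z := by
    unfold BI
    simpa using hle
  have e2 : z ^ (a - 1) * z ^ (1 - a) = 1 := by
    rw [← Real.rpow_add hz]
    have : a - 1 + (1 - a) = 0 := by ring
    rw [this, Real.rpow_zero]
  calc Real.exp (-(z ^ a)) = z ^ (a - 1) * z ^ (1 - a) * Real.exp (-(z ^ a)) := by
        rw [e2, one_mul]
    _ = z ^ (a - 1) * (z ^ (1 - a) * Real.exp (-(z ^ a))) := by ring
    _ ≤ z ^ (a - 1) * (a * BI a z) := by gcongr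
    _ = _ := by ring

end calc_

/-- Tonelli: integral of a primitive -/
lemma lintegral_primitive (μ : Measure ℝ) [SFinite μ] {q : ℝ → ℝ≥0∞} (hq : Measurable q) (z : ℝ) :
    ∫⁻ s, (∫⁻ y in Set.Ioo z s, q y) ∂μ = ∫⁻ y in Set.Ioi z, q y * μ (Set.Ioi y) := by
  have h1 : ∀ s, ∫⁻ y in Set.Ioo z s, q y = ∫⁻ y, (Set.Ioo z s).indicator q y := fun s => by
    rw [lintegral_indicator measurableSet_Ioo]
  simp_rw [h1]
  have hset : MeasurableSet {p : ℝ × ℝ | z < p.2 ∧ p.2 < p.1} :=
    (measurableSet_lt measurable_const measurable_snd).inter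
      (measurableSet_lt measurable_snd measurable_fst)
  have hmeas : Measurable (fun p : ℝ × ℝ => (Set.Ioo z p.1).indicator q p.2) := by
    have e : (fun p : ℝ × ℝ => (Set.Ioo z p.1).indicator q p.2) =
        {p : ℝ × ℝ | z < p.2 ∧ p.2 < p.1}.indicator (fun p => q p.2) := by
      funext p
      simp [Set.indicator]
    rw [e]
    exact (hq.comp measurable_snd).indicator hset
  rw [lintegral_lintegral_swap hmeas.aemeasurable, ← lintegral_indicator measurableSet_Ioi]
  apply lintegral_congr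
  intro y
  by_cases hy : z < y
  · rw [Set.indicator_of_mem (by exact hy)]
    have e : (fun s => (Set.Ioo z s).indicator q y) =
        fun s => q y * (Set.Ioi y).indicator (fun _ => (1 : ℝ≥0∞)) s := by
      funext s
      by_cases hs : y < s
      · simp [Set.indicator, hy, hs]
      · simp [Set.indicator, hs]
    rw [e, lintegral_const_mul _ (measurable_const.indicator measurableSet_Ioi),
      lintegral_indicator measurableSet_Ioi]
    simp
  · rw [Set.indicator_of_notMem (by exact hy)]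
    have e : (fun s => (Set.Ioo z s).indicator q y) = fun _ => 0 := by
      funext s
      simp [Set.indicator, hy]
    rw [e]
    simp

section weib

variable {a : ℝ} {μ : Measure ℝ} [IsProbabilityMeasure μ]

lemma lintegral_sub_pos (ha0 : 0 < a) (ha1 : a < 1)
    (hμ : ∀ x, 0 ≤ x → μ (Set.Ioi x) = ENNReal.ofReal (Real.exp (-(x ^ a)))) {z : ℝ} (hz : 0 ≤ z) :
    ∫⁻ s, ENNReal.ofReal (s - z) ∂μ = ENNReal.ofReal (BI a z) := by
  have h1 : ∀ s : ℝ, ENNReal.ofReal (s - z) = ∫⁻ y in Set.Ioo z s, (1 : ℝ≥0∞) := by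
    intro s; simp
  simp_rw [h1]
  rw [lintegral_primitive μ measurable_const z]
  unfold BI
  rw [ofReal_integral_eq_lintegral_ofReal (BI_integrableOn ha0 ha1 hz)
    (by filter_upwards with y; positivity)]
  apply setLIntegral_congr_fun measurableSet_Ioi
  intro y hy
  simp only [one_mul]
  exact hμ y (hz.trans (le_of_lt hy))

lemma integratedTail_eq (hμ : ∀ x, 0 ≤ x → μ (Set.Ioi x) = ENNReal.ofReal (Real.exp (-(x ^ a))))
    {z : ℝ} (hz : 0 ≤ z) : integratedTail μ z = min 1 (BI a z) := by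
  unfold integratedTail BI
  congr 1
  apply setIntegral_congr_fun measurableSet_Ioi
  intro s hs
  exact weibull_real hμ (hz.trans (le_of_lt hs))

lemma tendsto_BI (ha0 : 0 < a) (ha1 : a < 1) : Tendsto (BI a) atTop (𝓝 0) := by
  obtain ⟨y0, hy01, h⟩ := integ_bounds ha0 ha1
  have h1 := (tendsto_rpow_mul_exp ha0 ha1).const_mul (2 / a)
  rw [mul_zero] at h1
  refine squeeze_zero' ?_ ?_ h1
  · filter_upwards [eventually_ge_atTop 0] with z hz
    exact (BI_pos ha0 ha1 hz).le
  · filter_upwards [eventually_ge_atTop y0] with z hz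
    have := (h z hz).1
    unfold BI
    linarith

end weib

end Pool.Agent.Lib.MP_04add8_pr
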