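import Mathlib
import Pool.Agent.Lib.MP_04add8_pr.Weibull

/-! The exact upper bound: choice of constants. -/

open Filter Topology

namespace Pool.Agent.Lib.MP_04add8_pr

lemma rpow_sub_lower {a η u : ℝ} (ha0 : 0 < a) (ha1 : a < 1) (hu : 0 ≤ u) (h : 1 ≤ η - u) :
    η ^ a - u ≤ (η - u) ^ a := by
  have h1 := rpow_add_le_tangent ha0 ha1 (by linarith : 0 < η - u) (y := u) (by linarith)
  have e : η - u + u = η := by ring
  rw [e] at h1
  have h2 : (η - u) ^ (a - 1) ≤ 1 := Real.rpow_le_one_of_one_le_of_nonpos h (by linarith)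
  have h3 : 0 ≤ (η - u) ^ (a - 1) := by
    have : 0 ≤ η - u := by linarith
    positivity
  have h4 : a * (η - u) ^ (a - 1) * u ≤ 1 * 1 * u := by gcongr
  linarith

/-- the choice of `δ` -/
lemma exists_delta {a b k0 : ℝ} (ha0 : 0 < a) (ha1 : a < 1) (hb : 0 < b) (hb1 : b < 1)
    (hk0 : 8 ≤ k0) (hη : (1 + 1 / b) ^ a < 2) :
    ∃ δ : ℝ, 0 < δ ∧ δ ≤ 1 / 8 ∧ k0 * ((1 / b) ^ a * δ ^ (1 - a)) ≤ 1 / 2 ∧
      a * (1 + 1 / b) * (δ * b / 2) ^ (1 - a) ≤ 1 / 2 ∧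
      (1 + 1 / b) ^ a < (1 + 1 / b - 2 * δ) ^ a + (1 - a) * (δ * b / 2) ^ a ∧
      (1 + 1 / b) ^ a < 2 * ((1 + 1 / b - 2 * δ) / (1 + 1 / b)) ^ a ∧
      (1 + 1 / b) ^ a < (δ * b / 2) ^ a + (1 + 1 / b - 2 * δ - δ * b / 2 / b) ^ a ∧
      (1 + 1 / b) ^ a < k0 * δ / 2 + (1 + 1 / b - 3 * δ) ^ a := by
  set η := 1 + 1 / b with hηdef
  have hη2 : 2 ≤ η := by
    have : 1 ≤ 1 / b := by rw [le_div_iff₀ hb]; linarith
    rw [hηdef]; linarith
  have hηa1 : 1 ≤ η ^ a := Real.one_le_rpow (by linarith) ha0.le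
  have h0 : Tendsto (fun δ : ℝ => δ ^ (1 - a)) (𝓝[>] 0) (𝓝 0) := by
    have h1 : Continuous fun δ : ℝ => δ ^ (1 - a) := Real.continuous_rpow_const (by linarith)
    have h2 := h1.tendsto 0
    rw [Real.zero_rpow (by linarith)] at h2
    exact h2.mono_left nhdsWithin_le_nhds
  have hba : 0 < (b / 2) ^ a := by positivity
  have h1a : 0 < 1 - a := by linarith
  have e1 := h0.eventually_lt_const (u := 1 / (2 * k0 * (1 / b) ^ a)) (by positivity)
  have e2 := h0.eventually_lt_const (u := 1 / (2 * a * η)) (by positivity)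
  have e3 := h0.eventually_lt_const (u := (1 - a) * (b / 2) ^ a / 2) (by positivity)
  have e4 := h0.eventually_lt_const (u := (b / 2) ^ a * (2 / 5)) (by positivity)
  have e5 : ∀ᶠ δ : ℝ in 𝓝[>] 0, δ ∈ Set.Ioo 0 (min (1 / 8) ((2 - η ^ a) / 4)) := by
    apply Ioo_mem_nhdsGT
    apply lt_min (by norm_num)
    linarith
  obtain ⟨δ, h1, h2, h3, h4, h5⟩ := (e1.and (e2.and (e3.and (e4.and e5)))).exists
  have hδ0 : 0 < δ := h5.1
  have hδ8 : δ < 1 / 8 := h5.2.trans_le (min_le_left _ _)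
  have hδη : δ < (2 - η ^ a) / 4 := h5.2.trans_le (min_le_right _ _)
  have hsplit : δ = δ ^ a * δ ^ (1 - a) := by
    rw [← Real.rpow_add hδ0]; simp
  have hδa : 0 < δ ^ a := by positivity
  have hd : (δ * b / 2) ^ a = (b / 2) ^ a * δ ^ a := by
    rw [← Real.mul_rpow (by positivity) hδ0.le]; congr 1; ring
  refine ⟨δ, hδ0, hδ8.le, ?_, ?_, ?_, ?_, ?_, ?_⟩
  · rw [lt_div_iff₀ (by positivity)] at h1
    nlinarith
  · have h6 : (δ * b / 2) ^ (1 - a) ≤ δ ^ (1 - a) := by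
      apply Real.rpow_le_rpow (by positivity) _ h1a.le
      nlinarith
    rw [lt_div_iff₀ (by positivity)] at h2
    have h7 : a * η * (δ * b / 2) ^ (1 - a) ≤ a * η * δ ^ (1 - a) := by gcongr
    linarith
  · have h6 := rpow_sub_lower (η := η) (u := 2 * δ) ha0 ha1 (by linarith) (by linarith)
    have h7 : 2 * δ < (1 - a) * ((b / 2) ^ a * δ ^ a) := by
      calc 2 * δ = 2 * δ ^ a * δ ^ (1 - a) := by rw [mul_assoc, ← hsplit]
        _ < 2 * δ ^ a * ((1 - a) * (b / 2) ^ a / 2) := by gcongr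
        _ = _ := by ring
    rw [hd]
    linarith
  · have h6 := rpow_sub_lower (η := η) (u := 2 * δ) ha0 ha1 (by linarith) (by linarith)
    rw [Real.div_rpow (by linarith) (by linarith), mul_div_assoc', lt_div_iff₀ (by positivity)]
    have h7 : 4 * δ < (2 - η ^ a) * η ^ a := by nlinarith
    nlinarith
  · have e : η - 2 * δ - δ * b / 2 / b = η - 5 / 2 * δ := by field_simp; ring
    rw [e]
    have h6 := rpow_sub_lower (η := η) (u := 5 / 2 * δ) ha0 ha1 (by linarith) (by linarith)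
    have h7 : 5 / 2 * δ < (b / 2) ^ a * δ ^ a := by
      calc 5 / 2 * δ = 5 / 2 * δ ^ a * δ ^ (1 - a) := by rw [mul_assoc, ← hsplit]
        _ < 5 / 2 * δ ^ a * ((b / 2) ^ a * (2 / 5)) := by gcongr
        _ = _ := by ring
    rw [hd]
    linarith
  · have h6 := rpow_sub_lower (η := η) (u := 3 * δ) ha0 ha1 (by linarith) (by linarith)
    nlinarith

/-- the choice of `lam` -/
lemma exists_lam {a b k0 δ : ℝ} (ha0 : 0 < a) (ha1 : a < 1) (hb : 0 < b) (hb1 : b < 1)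
    (hη : (1 + 1 / b) ^ a < 2) (hδ0 : 0 < δ) (hδ8 : δ ≤ 1 / 8)
    (h1 : (1 + 1 / b) ^ a < (1 + 1 / b - 2 * δ) ^ a + (1 - a) * (δ * b / 2) ^ a)
    (h2 : (1 + 1 / b) ^ a < 2 * ((1 + 1 / b - 2 * δ) / (1 + 1 / b)) ^ a)
    (h3 : (1 + 1 / b) ^ a < (δ * b / 2) ^ a + (1 + 1 / b - 2 * δ - δ * b / 2 / b) ^ a)
    (h4 : (1 + 1 / b) ^ a < k0 * δ / 2 + (1 + 1 / b - 3 * δ) ^ a) :
    ∃ l : ℝ, b < l ∧ l < 1 ∧
      (1 + 1 / b) ^ a < l * min ((l * (1 + 1 / b - 2 * δ)) ^ a + (1 - a) * (δ * b / 2) ^ a)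
        (min (2 * ((l * (1 + 1 / b - 2 * δ)) / (1 + 1 / (b / l))) ^ a)
          ((δ * b / 2) ^ a + (l * (1 + 1 / b - 2 * δ) - δ * b / 2 / (b / l)) ^ a)) ∧
      δ * b / 2 ≤ (l * (1 + 1 / b - 2 * δ)) / (1 + 1 / (b / l)) ∧
      (1 + 1 / b) ^ a < k0 * δ / 2 + l * (l * (1 + 1 / b - 3 * δ)) ^ a ∧
      (1 + 1 / (b / l)) ^ a < 2 := by
  set η := 1 + 1 / b with hηdef
  have hη2 : 2 ≤ η := by
    have : 1 ≤ 1 / b := by rw [le_div_iff₀ hb]; linarith
    rw [hηdef]; linarith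
  have hrc : Continuous fun y : ℝ => y ^ a := Real.continuous_rpow_const ha0.le
  have c1 : ContinuousAt (fun l : ℝ => l * ((l * (η - 2 * δ)) ^ a + (1 - a) * (δ * b / 2) ^ a)) 1 := by
    apply Continuous.continuousAt
    have : Continuous fun l : ℝ => (l * (η - 2 * δ)) ^ a := hrc.comp (by fun_prop)
    fun_prop
  have hne : (1 : ℝ) + 1 / b ≠ 0 := by positivity
  have cq : ContinuousAt (fun l : ℝ => (l * (η - 2 * δ)) / (1 + l / b)) 1 := by
    have hnum : ContinuousAt (fun l : ℝ => l * (η - 2 * δ)) 1 := by fun_prop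
    have hden : ContinuousAt (fun l : ℝ => 1 + l / b) 1 := by fun_prop
    exact hnum.div hden hne
  have c2 : ContinuousAt (fun l : ℝ => l * (2 * ((l * (η - 2 * δ)) / (1 + l / b)) ^ a)) 1 := by
    have h5 : ContinuousAt (fun l : ℝ => ((l * (η - 2 * δ)) / (1 + l / b)) ^ a) 1 :=
      ContinuousAt.rpow_const cq (Or.inr ha0.le)
    fun_prop
  have c3 : ContinuousAt (fun l : ℝ => l * ((δ * b / 2) ^ a +
      (l * (η - 2 * δ) - δ * b / 2 * l / b) ^ a)) 1 := by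
    apply Continuous.continuousAt
    have : Continuous fun l : ℝ => (l * (η - 2 * δ) - δ * b / 2 * l / b) ^ a :=
      hrc.comp (by fun_prop)
    fun_prop
  have c4 : ContinuousAt (fun l : ℝ => k0 * δ / 2 + l * (l * (η - 3 * δ)) ^ a) 1 := by
    apply Continuous.continuousAt
    have : Continuous fun l : ℝ => (l * (η - 3 * δ)) ^ a := hrc.comp (by fun_prop)
    fun_prop
  have c5 : ContinuousAt (fun l : ℝ => (1 + l / b) ^ a) 1 := by
    apply Continuous.continuousAt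
    exact hrc.comp (by fun_prop)
  have e1 : ∀ᶠ l : ℝ in 𝓝 1, η ^ a < l * ((l * (η - 2 * δ)) ^ a + (1 - a) * (δ * b / 2) ^ a) := by
    apply c1.eventually_const_lt
    simpa using h1
  have e2 : ∀ᶠ l : ℝ in 𝓝 1, η ^ a < l * (2 * ((l * (η - 2 * δ)) / (1 + l / b)) ^ a) := by
    apply c2.eventually_const_lt
    simp only
    rw [one_mul, one_mul, ← hηdef]
    exact h2
  have e3 : ∀ᶠ l : ℝ in 𝓝 1, η ^ a < l * ((δ * b / 2) ^ a +
      (l * (η - 2 * δ) - δ * b / 2 * l / b) ^ a) := by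
    apply c3.eventually_const_lt
    simpa using h3
  have e4 : ∀ᶠ l : ℝ in 𝓝 1, η ^ a < k0 * δ / 2 + l * (l * (η - 3 * δ)) ^ a := by
    apply c4.eventually_const_lt
    simpa using h4
  have e5 : ∀ᶠ l : ℝ in 𝓝 1, (1 + l / b) ^ a < 2 := by
    apply c5.eventually_lt_const
    simp only
    rw [← hηdef]
    exact hη
  have e6 : ∀ᶠ l : ℝ in 𝓝 1, δ * b / 2 < (l * (η - 2 * δ)) / (1 + l / b) := by
    apply cq.eventually_const_lt
    simp only
    rw [lt_div_iff₀ (by positivity), ← hηdef]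
    have h5 : δ * b / 2 * η = δ * (b + 1) / 2 := by rw [hηdef]; field_simp
    rw [h5]
    nlinarith
  have e7 : ∀ᶠ l : ℝ in 𝓝[<] 1, l ∈ Set.Ioo b 1 := Ioo_mem_nhdsLT hb1
  obtain ⟨l, ⟨g1, g2, g3, g4, g5, g6⟩, g7⟩ :=
    (((e1.and (e2.and (e3.and (e4.and (e5.and e6))))).filter_mono nhdsWithin_le_nhds).and
      e7).exists
  have hl0 : 0 < l := hb.trans g7.1
  have hbl : 1 / (b / l) = l / b := by field_simp
  refine ⟨l, g7.1, g7.2, ?_, ?_, g4, ?_⟩
  · rw [hbl, mul_min_of_nonneg _ _ hl0.le, mul_min_of_nonneg _ _ hl0.le]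
    refine lt_min g1 (lt_min g2 ?_)
    have e : δ * b / 2 / (b / l) = δ * b / 2 * l / b := by field_simp
    rw [e]
    exact g3
  · rw [hbl]; exact g6.le
  · rw [hbl]; exact g5

end Pool.Agent.Lib.MP_04add8_pr
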