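import Mathlib
import Pool.Agent.Lib.MP_04add8_pr.Tail

/-! Rate conservation and a priori integrability for stationary laws of the
Kiefer-Wolfowitz chain. -/

open MeasureTheory ProbabilityTheory Filter Topology
open scoped ENNReal

set_option linter.unusedSectionVars false

namespace Pool.Agent.Lib.MP_04add8_pr

/-- cost of the one-big-job / two-big-jobs strategies -/
noncomputable def J0 (a b : ℝ) (w : ℝ × ℝ) : ℝ := min ((w.2 + w.1 / b) ^ a) (w.1 ^ a + w.2 ^ a)

lemma measurable_J0 (a b : ℝ) : Measurable (J0 a b) := by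
  unfold J0
  fun_prop

lemma J0_le_cost {a b R : ℝ} (ha : 0 < a) (hb : 0 < b) {w : ℝ × ℝ} (h1 : 0 ≤ w.1)
    (h2 : 0 ≤ w.2) : J0 a b w ≤ cost a b R w := by
  unfold J0 cost bigA
  have h3 : w.1 ≤ √(w.1 ^ 2 + R ^ 2) := by
    apply Real.le_sqrt_of_sq_le; nlinarith [sq_nonneg R]
  have h4 : w.2 + w.1 / b ≤ w.2 + √(w.1 ^ 2 + R ^ 2) / b := by gcongr
  have h5 : 0 ≤ w.2 + w.1 / b := by positivity
  have h6 : w.1 ^ a + w.2 ^ a ≤ w.1 ^ a + w.2 ^ a + 1 := by linarith
  gcongr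

lemma rpow_le_J0 {a b : ℝ} (ha : 0 < a) (hb : 0 < b) {w : ℝ × ℝ} (h1 : 0 ≤ w.1)
    (h2 : 0 ≤ w.2) : w.2 ^ a ≤ J0 a b w := by
  unfold J0
  apply le_min
  · have : 0 ≤ w.1 / b := by positivity
    gcongr
    linarith
  · have : 0 ≤ w.1 ^ a := by positivity
    linarith

lemma J0_nonneg {a b : ℝ} (ha : 0 < a) (hb : 0 < b) {w : ℝ × ℝ} (h1 : 0 ≤ w.1)
    (h2 : 0 ≤ w.2) : 0 ≤ J0 a b w :=
  le_trans (by positivity) (rpow_le_J0 ha hb h1 h2)

section stat

variable {a : ℝ} {μ ν : Measure ℝ} [IsProbabilityMeasure μ] [IsProbabilityMeasure ν]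
  {π : Measure (ℝ × ℝ)}

/-- upper rate conservation -/
lemma IsStationaryKW.rate_upper (h : IsStationaryKW μ ν π) {f g k : ℝ × ℝ → ℝ≥0∞}
    (hf : Measurable f) (hg : Measurable g) (hk : Measurable k) (hfin : ∫⁻ w, f w ∂π ≠ ∞)
    (hd : ∀ w : ℝ × ℝ, 0 ≤ w.1 → w.1 ≤ w.2 →
      ∫⁻ p, f (kwStep w p.1 p.2) ∂(μ.prod ν) + g w ≤ f w + k w) :
    ∫⁻ w, g w ∂π ≤ ∫⁻ w, k w ∂π := by
  have h1 := h.lintegral hf
  have h2 : ∫⁻ w, f w ∂π + ∫⁻ w, g w ∂π ≤ ∫⁻ w, f w ∂π + ∫⁻ w, k w ∂π := by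
    conv_lhs => rw [h1]
    rw [← lintegral_add_right _ hg, ← lintegral_add_right _ hk]
    apply lintegral_mono_ae
    filter_upwards [h.ae_ordered] with w hw using hd w hw.1 hw.2
  exact (ENNReal.add_le_add_iff_left hfin).mp h2

/-- lower rate conservation -/
lemma IsStationaryKW.rate_lower (h : IsStationaryKW μ ν π) {f g k : ℝ × ℝ → ℝ≥0∞}
    (hf : Measurable f) (hg : Measurable g) (hk : Measurable k) (hfin : ∫⁻ w, f w ∂π ≠ ∞)
    (hd : ∀ w : ℝ × ℝ, 0 ≤ w.1 → w.1 ≤ w.2 →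
      f w + k w ≤ ∫⁻ p, f (kwStep w p.1 p.2) ∂(μ.prod ν) + g w) :
    ∫⁻ w, k w ∂π ≤ ∫⁻ w, g w ∂π := by
  have h1 := h.lintegral hf
  have h2 : ∫⁻ w, f w ∂π + ∫⁻ w, k w ∂π ≤ ∫⁻ w, f w ∂π + ∫⁻ w, g w ∂π := by
    conv_rhs => rw [h1]
    rw [← lintegral_add_right _ hg, ← lintegral_add_right _ hk]
    apply lintegral_mono_ae
    filter_upwards [h.ae_ordered] with w hw using hd w hw.1 hw.2
  exact (ENNReal.add_le_add_iff_left hfin).mp h2

/-- a priori exponential integrability of the cost -/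
theorem apriori (ha0 : 0 < a) (ha1 : a < 1)
    (hμ : ∀ x, 0 ≤ x → μ (Set.Ioi x) = ENNReal.ofReal (Real.exp (-(x ^ a))))
    (hν : ν (Set.Iio 0) = 0) (hνi : Integrable (fun t : ℝ => t) ν)
    (hgt : (∫ t, t ∂ν) < ∫ s, s ∂μ)
    {b : ℝ} (hb : 0 < b) (hb1 : b < 1) (hbm : (∫ s, s ∂μ) < (1 + b) * ∫ t, t ∂ν)
    {lam' : ℝ} (hl0' : 0 < lam') (hl1' : lam' < 1) (hπ : IsStationaryKW μ ν π) :
    Integrable (fun w => Real.exp (lam' * J0 a b w)) π := by
  set lam := (1 + lam') / 2 with hlam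
  have hl0 : 0 < lam := by rw [hlam]; linarith
  have hl1 : lam < 1 := by rw [hlam]; linarith
  set δ := lam - lam' with hδ
  have hδ0 : 0 < δ := by rw [hδ, hlam]; linarith
  obtain ⟨R, L, k, K, hR, hL, hk, hK, hdrift⟩ :=
    drift_exists ha0 ha1 hμ hν hνi hgt hb hb1 hbm hl0 hl1
  set p := (1 - a) / a with hp
  have hp0 : 0 < p := by
    have : 0 < 1 - a := by linarith
    positivity
  set c' := ((p / δ) ^ p)⁻¹ with hc'
  have hc'0 : 0 < c' := by positivity
  have hpoly : ∀ y : ℝ, 0 < y → c' ≤ y ^ (a - 1) * Real.exp (δ * y ^ a) := by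
    intro y hy
    have h1 := rpow_le_exp (p := p) (c := δ) (u := y ^ a) hp0 hδ0 (by positivity)
    have h2 : (y ^ a) ^ p = y ^ (1 - a) := by
      rw [← Real.rpow_mul hy.le]; congr 1; rw [hp]; field_simp
    rw [h2] at h1
    have h3 : y ^ (a - 1) = (y ^ (1 - a))⁻¹ := by
      rw [← Real.rpow_neg hy.le]; congr 1; ring
    have h4 : 0 < y ^ (1 - a) := by positivity
    have h5 : 0 < (p / δ) ^ p := by positivity
    rw [h3, hc', inv_mul_eq_div, le_div_iff₀ h4, inv_mul_eq_div, div_le_iff₀ h5]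
    linarith
  have hprob : IsProbabilityMeasure π := hπ.1
  set H : ℝ × ℝ → ℝ≥0∞ := fun w => ENNReal.ofReal (Real.exp (lam * cost a b R w)) with hH
  set g : ℝ × ℝ → ℝ≥0∞ := fun w => if L ≤ w.2 then
    ENNReal.ofReal (k * w.2 ^ (a - 1) * Real.exp (lam * cost a b R w)) else 0 with hg
  have hcm := measurable_cost a b R
  have hHm : Measurable H := by
    rw [hH]; fun_prop
  have hgm : Measurable g := by
    rw [hg]
    apply Measurable.ite (measurableSet_le measurable_const measurable_snd)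
    · fun_prop
    · exact measurable_const
  have hmain := hπ.lyapunov hHm hgm (fun w => ENNReal.ofReal_ne_top) (ENNReal.ofReal K)
    (fun w h1 h2 => hdrift w h1 h2)
  have hJm := measurable_J0 a b
  refine ⟨by fun_prop, ?_⟩
  rw [hasFiniteIntegral_iff_ofReal (by filter_upwards with w; positivity)]
  set C := Real.exp (lam' * (L ^ a + L ^ a)) with hC
  have hbound : ∀ᵐ w ∂π, ENNReal.ofReal (Real.exp (lam' * J0 a b w)) ≤
      ENNReal.ofReal C + ENNReal.ofReal (1 / (k * c')) * g w := by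
    filter_upwards [hπ.ae_ordered] with w hw
    by_cases hwL : L ≤ w.2
    · have hw2 : 0 < w.2 := hL.trans_le hwL
      have hw20 := hw2.le
      have e : g w = ENNReal.ofReal (k * w.2 ^ (a - 1) * Real.exp (lam * cost a b R w)) := by
        rw [hg]; simp only; rw [if_pos hwL]
      rw [e, ← ENNReal.ofReal_mul (by positivity)]
      refine le_trans ?_ le_add_self
      apply ENNReal.ofReal_le_ofReal
      have h7 := hpoly w.2 hw2
      have hJc := J0_le_cost (R := R) ha0 hb hw.1 hw20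
      have hJ2 := rpow_le_J0 ha0 hb hw.1 hw20
      have h8 : lam' * J0 a b w + δ * w.2 ^ a ≤ lam * cost a b R w := by
        have e1 : lam = lam' + δ := by rw [hδ]; ring
        have h9 : lam' * J0 a b w ≤ lam' * cost a b R w := by gcongr
        have h10 : δ * w.2 ^ a ≤ δ * cost a b R w := by
          have := hJ2.trans hJc
          gcongr
        rw [e1, add_mul]; linarith
      have h11 : Real.exp (lam' * J0 a b w) * Real.exp (δ * w.2 ^ a) ≤
          Real.exp (lam * cost a b R w) := by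
        rw [← Real.exp_add]
        exact Real.exp_le_exp.mpr h8
      calc Real.exp (lam' * J0 a b w)
          = 1 / c' * (c' * Real.exp (lam' * J0 a b w)) := by field_simp
        _ ≤ 1 / c' * ((w.2 ^ (a - 1) * Real.exp (δ * w.2 ^ a)) * Real.exp (lam' * J0 a b w)) := by
            gcongr
        _ = 1 / c' * w.2 ^ (a - 1) *
            (Real.exp (lam' * J0 a b w) * Real.exp (δ * w.2 ^ a)) := by ring
        _ ≤ 1 / c' * w.2 ^ (a - 1) * Real.exp (lam * cost a b R w) := by gcongr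
        _ = 1 / (k * c') * (k * w.2 ^ (a - 1) * Real.exp (lam * cost a b R w)) := by
            field_simp
    · push Not at hwL
      refine le_trans ?_ le_self_add
      apply ENNReal.ofReal_le_ofReal
      rw [hC]
      apply Real.exp_le_exp.mpr
      have h1 : w.1 ≤ L := hw.2.trans hwL.le
      have h2 : J0 a b w ≤ L ^ a + L ^ a := by
        unfold J0
        refine (min_le_right _ _).trans ?_
        have h0 := hw.1
        have h0' := hw.1.trans hw.2
        gcongr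
      gcongr
  calc ∫⁻ w, ENNReal.ofReal (Real.exp (lam' * J0 a b w)) ∂π
      ≤ ∫⁻ w, (ENNReal.ofReal C + ENNReal.ofReal (1 / (k * c')) * g w) ∂π :=
        lintegral_mono_ae hbound
    _ = ENNReal.ofReal C + ENNReal.ofReal (1 / (k * c')) * ∫⁻ w, g w ∂π := by
        rw [lintegral_add_left measurable_const, lintegral_const_mul _ hgm]
        simp
    _ ≤ ENNReal.ofReal C + ENNReal.ofReal (1 / (k * c')) * ENNReal.ofReal K := by gcongr
    _ < ∞ := ENNReal.add_lt_top.mpr ⟨ENNReal.ofReal_lt_top,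
        ENNReal.mul_lt_top ENNReal.ofReal_lt_top ENNReal.ofReal_lt_top⟩

end stat

end Pool.Agent.Lib.MP_04add8_pr
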