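import Mathlib
import Pool.Agent.Lib.MP_04add8_pr.Exact.Rate

/-! The potential for the exact upper bound: deterministic one-step estimates. -/

open MeasureTheory ProbabilityTheory Filter Topology
open scoped ENNReal

set_option linter.unusedSectionVars false

namespace Pool.Agent.Lib.MP_04add8_pr

/-- `Y + 1/k` for `Y ≥ 0`, `exp (k Y) / k` for `Y < 0`. -/
noncomputable def gt (k Y : ℝ) : ℝ := if 0 ≤ Y then Y + 1 / k else Real.exp (k * Y) / k

/-- derivative of `gt` -/
noncomputable def dg (k Y : ℝ) : ℝ := min 1 (Real.exp (k * Y))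

lemma dg_nonneg (k Y : ℝ) : 0 ≤ dg k Y := le_min zero_le_one (Real.exp_pos _).le

lemma dg_le_one (k Y : ℝ) : dg k Y ≤ 1 := min_le_left _ _

lemma dg_of_nonneg {k Y : ℝ} (hk : 0 < k) (hY : 0 ≤ Y) : dg k Y = 1 := by
  unfold dg
  apply min_eq_left
  rw [← Real.exp_zero]
  apply Real.exp_le_exp.mpr
  positivity

lemma dg_of_nonpos {k Y : ℝ} (hk : 0 < k) (hY : Y ≤ 0) : dg k Y = Real.exp (k * Y) := by
  unfold dg
  apply min_eq_right
  rw [← Real.exp_zero]
  apply Real.exp_le_exp.mpr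
  exact mul_nonpos_of_nonneg_of_nonpos hk.le hY

lemma gt_pos {k : ℝ} (hk : 0 < k) (Y : ℝ) : 0 < gt k Y := by
  unfold gt
  split_ifs <;> positivity

/-- convexity -/
lemma gt_conv {k : ℝ} (hk : 0 < k) (A B : ℝ) : gt k B - gt k A ≤ dg k B * (B - A) := by
  rcases le_or_gt 0 B with hB | hB
  · rw [dg_of_nonneg hk hB, one_mul]
    unfold gt
    rw [if_pos hB]
    split_ifs with hA
    · linarith
    · have h1 := Real.add_one_le_exp (k * A)
      have h2 : A + 1 / k ≤ Real.exp (k * A) / k := by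
        rw [le_div_iff₀ hk]
        have : (A + 1 / k) * k = k * A + 1 := by field_simp
        linarith
      linarith
  · rw [dg_of_nonpos hk hB.le]
    unfold gt
    rw [if_neg (by linarith)]
    have hE := Real.exp_pos (k * B)
    split_ifs with hA
    · have h1 := Real.add_one_le_exp (-(k * B))
      have h2 : Real.exp (k * B) * Real.exp (-(k * B)) = 1 := by
        rw [← Real.exp_add]; simp
      have h3 : Real.exp (k * B) * (1 - k * B) ≤ 1 := by
        calc Real.exp (k * B) * (1 - k * B) ≤ Real.exp (k * B) * Real.exp (-(k * B)) := by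
              gcongr; linarith
          _ = 1 := h2
      have h4 : Real.exp (k * B) / k - Real.exp (k * B) * B ≤ 1 / k := by
        have : Real.exp (k * B) / k - Real.exp (k * B) * B =
            (Real.exp (k * B) * (1 - k * B)) / k := by field_simp
        rw [this]
        gcongr
      have h5 : Real.exp (k * B) ≤ 1 := by
        rw [Real.exp_le_one_iff]
        exact mul_nonpos_of_nonneg_of_nonpos hk.le hB.le
      nlinarith
    · have h1 := Real.add_one_le_exp (k * A - k * B)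
      have h2 : Real.exp (k * B) * Real.exp (k * A - k * B) = Real.exp (k * A) := by
        rw [← Real.exp_add]; congr 1; ring
      have h3 : Real.exp (k * B) * (k * A - k * B + 1) ≤ Real.exp (k * A) := by
        rw [← h2]; gcongr
      have h4 : Real.exp (k * B) / k - Real.exp (k * A) / k ≤ Real.exp (k * B) * (B - A) := by
        rw [← sub_div, div_le_iff₀ hk]
        nlinarith
      exact h4

lemma gt_mono {k : ℝ} (hk : 0 < k) : Monotone (gt k) := by
  intro A B hAB
  have h := gt_conv hk B A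
  have h2 : dg k A * (A - B) ≤ 0 :=
    mul_nonpos_of_nonneg_of_nonpos (dg_nonneg _ _) (by linarith)
  linarith

lemma dg_shift_up {k Y D r : ℝ} (hk : 0 < k) (hD : 0 ≤ D) (hY : -r ≤ Y) (hr : 0 ≤ r) :
    dg k (Y + D) ≤ dg k Y * Real.exp (k * min D r) := by
  have hm : 0 ≤ min D r := le_min hD hr
  rcases le_or_gt 0 Y with h | h
  · rw [dg_of_nonneg hk h, one_mul]
    refine (dg_le_one _ _).trans ?_
    apply Real.one_le_exp
    positivity
  · rw [dg_of_nonpos hk h.le, ← Real.exp_add]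
    rcases le_total D r with h2 | h2
    · rw [min_eq_left h2]
      refine (min_le_right _ _).trans (le_of_eq ?_)
      congr 1; ring
    · rw [min_eq_right h2]
      refine (dg_le_one _ _).trans ?_
      apply Real.one_le_exp
      have : 0 ≤ Y + r := by linarith
      nlinarith

lemma dg_shift_down {k Y D : ℝ} (hD : D ≤ 0) (hk : 0 < k) :
    dg k Y * Real.exp (k * D) ≤ dg k (Y + D) := by
  unfold dg
  apply le_min
  · have h1 : Real.exp (k * D) ≤ 1 := by
      rw [Real.exp_le_one_iff]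
      exact mul_nonpos_of_nonneg_of_nonpos hk.le hD
    calc min 1 (Real.exp (k * Y)) * Real.exp (k * D) ≤ 1 * 1 := by
          gcongr
          exact min_le_left _ _
      _ = 1 := one_mul _
  · calc min 1 (Real.exp (k * Y)) * Real.exp (k * D) ≤ Real.exp (k * Y) * Real.exp (k * D) := by
          gcongr; exact min_le_right _ _
      _ = _ := by rw [← Real.exp_add]; congr 1; ring

/-- the one-step estimate for `gt` -/
lemma gt_step {k Y D Z P N r : ℝ} (hk : 0 < k) (hr : 0 ≤ r) (hY : -r ≤ Y)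
    (hDZ : D ≤ Z) (hDP : D ≤ P) (hP : 0 ≤ P) (hN : -N ≤ Z) :
    gt k (Y + D) ≤ gt k Y + dg k Y * (Z + k * (P ^ 2 * Real.exp (k * min P r) + N ^ 2)) := by
  set D0 := min Z P with hD0
  have hDD : D ≤ D0 := le_min hDZ hDP
  refine (gt_mono hk (by linarith : Y + D ≤ Y + D0)).trans ?_
  have hconv := gt_conv hk Y (Y + D0)
  have e : Y + D0 - Y = D0 := by ring
  rw [e] at hconv
  have hd := dg_nonneg k Y
  have hPe : 0 ≤ P ^ 2 * Real.exp (k * min P r) := by positivity
  rcases le_or_gt 0 D0 with h | h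
  · have h1 := dg_shift_up (r := r) hk h hY hr
    have hmD : min D0 r ≤ D0 := min_le_left _ _
    have hm0 : 0 ≤ min D0 r := le_min h hr
    set z := k * min D0 r with hz
    have hz0 : 0 ≤ z := by positivity
    have h2 : Real.exp z ≤ 1 + z * Real.exp z := by
      have h3 := Real.add_one_le_exp (-z)
      have h4 : Real.exp z * Real.exp (-z) = 1 := by rw [← Real.exp_add]; simp
      have h5 := Real.exp_pos z
      nlinarith
    have hz1 : z ≤ k * D0 := by rw [hz]; gcongr
    have hDP' : D0 ≤ P := min_le_right _ _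
    have hDZ' : D0 ≤ Z := min_le_left _ _
    have hzP : z ≤ k * min P r := by
      rw [hz]; gcongr
    have h6 : dg k (Y + D0) * D0 ≤ dg k Y * (D0 + k * (P ^ 2 * Real.exp (k * min P r))) := by
      calc dg k (Y + D0) * D0 ≤ dg k Y * Real.exp z * D0 := by gcongr
        _ ≤ dg k Y * (1 + z * Real.exp z) * D0 := by gcongr
        _ = dg k Y * (D0 + z * D0 * Real.exp z) := by ring
        _ ≤ dg k Y * (D0 + (k * P) * P * Real.exp (k * min P r)) := by
            gcongr
            exact hz1.trans (by gcongr)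
        _ = _ := by ring
    have h7 : dg k Y * (D0 + k * (P ^ 2 * Real.exp (k * min P r))) ≤
        dg k Y * (Z + k * (P ^ 2 * Real.exp (k * min P r) + N ^ 2)) := by
      apply mul_le_mul_of_nonneg_left _ hd
      have : 0 ≤ k * N ^ 2 := by positivity
      have e2 : k * (P ^ 2 * Real.exp (k * min P r) + N ^ 2) =
        k * (P ^ 2 * Real.exp (k * min P r)) + k * N ^ 2 := by ring
      linarith
    linarith
  · have hZ : D0 = Z := by
      rcases le_total Z P with h2 | h2
      · exact min_eq_left h2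
      · exfalso
        rw [hD0, min_eq_right h2] at h
        linarith
    rw [hZ] at h hconv ⊢
    have h1 := dg_shift_down (Y := Y) h.le hk
    have h2 : dg k (Y + Z) * Z ≤ dg k Y * Real.exp (k * Z) * Z :=
      mul_le_mul_of_nonpos_right h1 h.le
    have h3 := Real.add_one_le_exp (k * Z)
    have h4 : dg k Y * Real.exp (k * Z) * Z ≤ dg k Y * (k * Z + 1) * Z := by
      apply mul_le_mul_of_nonpos_right _ h.le
      gcongr
    have h5 : Z ^ 2 ≤ N ^ 2 := by nlinarith
    have h6 : dg k Y * (k * Z + 1) * Z ≤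
        dg k Y * (Z + k * (P ^ 2 * Real.exp (k * min P r) + N ^ 2)) := by
      have e3 : dg k Y * (k * Z + 1) * Z = dg k Y * (Z + k * Z ^ 2) := by ring
      rw [e3]
      apply mul_le_mul_of_nonneg_left _ hd
      have e2 : k * (P ^ 2 * Real.exp (k * min P r) + N ^ 2) =
        k * (P ^ 2 * Real.exp (k * min P r)) + k * N ^ 2 := by ring
      have : k * Z ^ 2 ≤ k * N ^ 2 := by gcongr
      have : 0 ≤ k * (P ^ 2 * Real.exp (k * min P r)) := by positivity
      linarith
    linarith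

/-- smoothed slope-`c` function -/
noncomputable def f1 (c R y : ℝ) : ℝ := c * √(y ^ 2 + R ^ 2)

/-- slope-one function -/
noncomputable def f2 (c R x y : ℝ) : ℝ := y - x + c * √(x ^ 2 + R ^ 2)

/-- their minimum -/
noncomputable def ph (c R x y : ℝ) : ℝ := min (f1 c R y) (f2 c R x y)

/-- the signed distance to the target -/
noncomputable def YU (c R x : ℝ) (w : ℝ × ℝ) : ℝ :=
  w.2 + ph c R x w.1 - (x + c * √(x ^ 2 + R ^ 2))

lemma sqrt_le_add {y R : ℝ} (hy : 0 ≤ y) (hR : 0 ≤ R) : √(y ^ 2 + R ^ 2) ≤ y + R := by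
  apply Real.sqrt_le_iff.mpr
  exact ⟨by positivity, by nlinarith [mul_nonneg hy hR]⟩

lemma le_sqrt_add (y R : ℝ) : y ≤ √(y ^ 2 + R ^ 2) := by
  apply Real.le_sqrt_of_sq_le; nlinarith [sq_nonneg R]

lemma f1_inc {c R u v : ℝ} (hc : 1 ≤ c) (hR : 0 < R) (hv : 0 ≤ v) (huv : v ≤ u)
    (h : 2 * R ≤ (c - 1) * (u + v)) : u - v ≤ f1 c R u - f1 c R v := by
  unfold f1
  set p := √(u ^ 2 + R ^ 2) with hp
  set q := √(v ^ 2 + R ^ 2) with hq
  have hp0 : 0 < p := Real.sqrt_pos.mpr (by positivity)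
  have hq0 : 0 < q := Real.sqrt_pos.mpr (by positivity)
  have hp2 : p ^ 2 = u ^ 2 + R ^ 2 := Real.sq_sqrt (by positivity)
  have hq2 : q ^ 2 = v ^ 2 + R ^ 2 := Real.sq_sqrt (by positivity)
  have hpu : p ≤ u + R := sqrt_le_add (hv.trans huv) hR.le
  have hqv : q ≤ v + R := sqrt_le_add hv hR.le
  have h1 : (u - v) * (p + q) ≤ (c * p - c * q) * (p + q) := by
    have e : (c * p - c * q) * (p + q) = c * ((u - v) * (u + v)) := by
      have : (c * p - c * q) * (p + q) = c * (p ^ 2 - q ^ 2) := by ring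
      rw [this, hp2, hq2]; ring
    rw [e]
    have h2 : p + q ≤ c * (u + v) := by linarith
    have h3 : 0 ≤ u - v := by linarith
    nlinarith
  exact le_of_mul_le_mul_right h1 (by positivity)

lemma ph_of_le {c R x y : ℝ} (hc : 1 ≤ c) (hR : 0 < R) (hy : 0 ≤ y) (hyx : y ≤ x)
    (h : 2 * R ≤ (c - 1) * x) : ph c R x y = f1 c R y := by
  unfold ph
  apply min_eq_left
  have h1 := f1_inc hc hR hy hyx (by nlinarith)
  unfold f2
  unfold f1 at h1 ⊢
  linarith

lemma ph_of_ge {c R x y : ℝ} (hc : 1 ≤ c) (hR : 0 < R) (hx : 0 ≤ x) (hyx : x ≤ y)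
    (h : 2 * R ≤ (c - 1) * x) : ph c R x y = f2 c R x y := by
  unfold ph
  apply min_eq_right
  have h1 := f1_inc hc hR hx hyx (by nlinarith)
  unfold f2
  unfold f1 at h1 ⊢
  linarith

lemma f1_mono {c R u v : ℝ} (hc : 0 ≤ c) (hv : 0 ≤ v) (huv : v ≤ u) :
    f1 c R v ≤ f1 c R u := by
  unfold f1
  gcongr

lemma ph_mono {c R x u v : ℝ} (hc : 0 ≤ c) (hv : 0 ≤ v) (huv : v ≤ u) :
    ph c R x v ≤ ph c R x u := by
  unfold ph
  apply min_le_min (f1_mono hc hv huv)
  unfold f2
  linarith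

/-- sorting does not increase the potential -/
lemma ph_swap {c R x u v v0 : ℝ} (hc : 1 ≤ c) (hR : 0 < R) (hu : 0 ≤ u) (hv0 : 0 ≤ v0)
    (hv : v0 ≤ v) (h : 2 * R ≤ (c - 1) * v0) :
    max u v + ph c R x (min u v) ≤ v + ph c R x u := by
  rcases le_total u v with huv | huv
  · rw [max_eq_right huv, min_eq_left huv]
  · rw [max_eq_left huv, min_eq_right huv]
    have hv' : 0 ≤ v := hv0.trans hv
    have h1 := f1_inc hc hR hv' huv (by nlinarith)
    have h2 : ph c R x v + (u - v) ≤ ph c R x u := by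
      unfold ph
      apply le_min
      · have := min_le_left (f1 c R v) (f2 c R x v)
        linarith
      · have := min_le_right (f1 c R v) (f2 c R x v)
        unfold f2 at this ⊢
        linarith
    linarith

lemma ph_lip {c R x y s : ℝ} (hc : 1 ≤ c) (hs : 0 ≤ s) :
    ph c R x (y + s) ≤ ph c R x y + c * s := by
  unfold ph
  rw [← min_add_add_right]
  apply min_le_min
  · unfold f1
    have := sqrt_add_le (x := y) (R := R) hs
    nlinarith
  · unfold f2
    nlinarith

/-- bound by the unsorted vector with truncated interarrival time -/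
lemma YU_step {c R x : ℝ} (hc : 1 ≤ c) (hR : 0 < R) {w : ℝ × ℝ} {v0 : ℝ}
    (hv0 : 0 ≤ v0) (h : 2 * R ≤ (c - 1) * v0) {s t T : ℝ} (hT : T ≤ t) (hT2 : v0 ≤ w.2 - T) :
    YU c R x (kwStep w s t) ≤
      (w.2 - T) + ph c R x (max (w.1 + s - T) 0) - (x + c * √(x ^ 2 + R ^ 2)) := by
  unfold YU
  rw [kwStep_eq]
  simp only
  set u' := max (w.1 + s - t) 0 with hu'
  set v' := max (w.2 - t) 0 with hv'
  set u := max (w.1 + s - T) 0 with hu
  have h1 : u' ≤ u := by rw [hu', hu]; gcongr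
  have h2 : v' ≤ w.2 - T := by
    rw [hv']
    apply max_le
    · linarith
    · linarith
  have hu0 : 0 ≤ u := le_max_right _ _
  have hu0' : 0 ≤ u' := le_max_right _ _
  have hv0' : 0 ≤ v' := le_max_right _ _
  have h3 := ph_swap (x := x) hc hR hu0 hv0 hT2 h
  have h4 : max u' v' ≤ max u (w.2 - T) := max_le_max h1 h2
  have h5 : ph c R x (min u' v') ≤ ph c R x (min u (w.2 - T)) :=
    ph_mono (by linarith) (le_min hu0' hv0') (min_le_min h1 h2)
  linarith

/-- crude one-step bound -/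
lemma YU_step_lip {c R x : ℝ} (hc : 1 ≤ c) (hR : 0 < R) {w : ℝ × ℝ} (hw1 : 0 ≤ w.1) {v0 : ℝ}
    (hv0 : 0 ≤ v0) (h : 2 * R ≤ (c - 1) * v0) (hw2 : v0 ≤ w.2) {s t : ℝ} (hs : 0 ≤ s)
    (ht : 0 ≤ t) : YU c R x (kwStep w s t) ≤ YU c R x w + c * s := by
  have h1 := YU_step (x := x) hc hR (w := w) hv0 h (s := s) ht (by linarith)
  have e : max (w.1 + s - 0) 0 = w.1 + s := by rw [sub_zero]; exact max_eq_left (by linarith)
  rw [e] at h1
  have h2 := ph_lip (R := R) (x := x) (y := w.1) hc hs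
  unfold YU at h1 ⊢
  linarith

/-- the workload region where `YU` is not very negative -/
lemma YU_ge_imp {c R x r : ℝ} (hc : 1 ≤ c) (hR : 0 < R) {w : ℝ × ℝ} (hw1 : 0 ≤ w.1)
    (hx : 0 ≤ x) (h : -r ≤ YU c R x w) :
    (1 + c) * x - r - c * R ≤ w.2 + c * w.1 := by
  unfold YU at h
  have h1 : ph c R x w.1 ≤ c * (w.1 + R) := by
    refine (min_le_left _ _).trans ?_
    unfold f1
    have := sqrt_le_add hw1 hR.le
    gcongr
  have h2 := le_sqrt_add x R
  nlinarith

/-- one-step bound below level `x` -/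
lemma YU_step_low {c R x M : ℝ} (hc : 1 ≤ c) (hR : 0 < R) (hM : 0 < M)
    {w : ℝ × ℝ} (hw1 : 0 ≤ w.1) (hwx : w.1 ≤ x)
    (hRx : 2 * R ≤ (c - 1) * x) {v0 : ℝ} (hv0 : 0 ≤ v0) (h : 2 * R ≤ (c - 1) * v0)
    (hw2 : v0 + M ≤ w.2) {s t : ℝ} (hs : 0 ≤ s) (ht : 0 ≤ t) :
    YU c R x (kwStep w s t) ≤ YU c R x w + (-t + c * (w.1 / √(w.1 ^ 2 + R ^ 2)) * (s - t) +
      (1 + c) * (t ^ 2 / M) + c * (s ^ 2 + t ^ 2) / (2 * R)) := by
  set T := min t M with hT
  have hT0 : 0 ≤ T := le_min ht hM.le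
  have hTt : T ≤ t := min_le_left _ _
  have hTM : T ≤ M := min_le_right _ _
  have h1 := YU_step (x := x) hc hR (w := w) hv0 h (s := s) hTt (by linarith)
  set u := max (w.1 + s - T) 0 with hu
  have hu2 : u ^ 2 ≤ (w.1 + (s - T)) ^ 2 := by
    rcases le_total (w.1 + s - T) 0 with h' | h'
    · rw [hu, max_eq_right h']
      have := sq_nonneg (w.1 + (s - T))
      simpa using this
    · rw [hu, max_eq_left h']
      have : w.1 + s - T = w.1 + (s - T) := by ring
      rw [this]
  set p := √(w.1 ^ 2 + R ^ 2) with hp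
  have hp0 : 0 < p := Real.sqrt_pos.mpr (by positivity)
  set q := w.1 / p with hq
  have hq0 : 0 ≤ q := by positivity
  have hq1 : q ≤ 1 := by rw [hq, div_le_one hp0]; exact le_sqrt_add _ _
  have hsq : √(u ^ 2 + R ^ 2) ≤ p + q * (s - T) + (s - T) ^ 2 / (2 * R) := by
    refine le_trans ?_ (sqrt_taylor hR)
    gcongr
  have hphu : ph c R x u ≤ c * (p + q * (s - T) + (s - T) ^ 2 / (2 * R)) := by
    refine (min_le_left _ _).trans ?_
    unfold f1
    gcongr
  have hphw : ph c R x w.1 = c * p := ph_of_le hc hR hw1 hwx hRx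
  have hTlow : t - t ^ 2 / M ≤ T := by
    rcases le_total t M with h' | h'
    · rw [hT, min_eq_left h']
      have : 0 ≤ t ^ 2 / M := by positivity
      linarith
    · rw [hT, min_eq_right h']
      have : t ≤ t ^ 2 / M := by rw [le_div_iff₀ hM]; nlinarith
      linarith
  have hsT : (s - T) ^ 2 ≤ s ^ 2 + t ^ 2 := by
    have : T ^ 2 ≤ t ^ 2 := by gcongr
    nlinarith [mul_nonneg hs hT0]
  have h2 : c * ((s - T) ^ 2 / (2 * R)) ≤ c * (s ^ 2 + t ^ 2) / (2 * R) := by
    rw [mul_div_assoc]; gcongr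
  have htM : 0 ≤ t ^ 2 / M := by positivity
  have h3 : c * (q * (s - T)) ≤ c * q * (s - t) + c * (t ^ 2 / M) := by
    have : q * (s - T) ≤ q * (s - t) + t ^ 2 / M := by
      have h4 : q * (t - T) ≤ 1 * (t ^ 2 / M) := by
        apply mul_le_mul hq1 (by linarith) (by linarith) zero_le_one
      nlinarith
    have h5 : c * (q * (s - T)) ≤ c * (q * (s - t) + t ^ 2 / M) := by gcongr
    linarith
  have hYw : YU c R x w = w.2 + c * p - (x + c * √(x ^ 2 + R ^ 2)) := by
    unfold YU; rw [hphw]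
  rw [hYw]
  have e : c * (p + q * (s - T) + (s - T) ^ 2 / (2 * R)) =
      c * p + c * (q * (s - T)) + c * ((s - T) ^ 2 / (2 * R)) := by ring
  rw [e] at hphu
  have e2 : (1 + c) * (t ^ 2 / M) = t ^ 2 / M + c * (t ^ 2 / M) := by ring
  rw [e2]
  linarith

/-- one-step bound above level `x` -/
lemma YU_step_high {c R x M : ℝ} (hc : 1 ≤ c) (hR : 0 < R) (hM : 0 < M)
    {w : ℝ × ℝ} (hx : 0 ≤ x) (hwx : x ≤ w.1) (hMx : M ≤ x)
    (hRx : 2 * R ≤ (c - 1) * x) {v0 : ℝ} (hv0 : 0 ≤ v0) (h : 2 * R ≤ (c - 1) * v0)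
    (hw2 : v0 + M ≤ w.2) {s t : ℝ} (hs : 0 ≤ s) (ht : 0 ≤ t) :
    YU c R x (kwStep w s t) ≤ YU c R x w + (s - 2 * t + 2 * (t ^ 2 / M)) := by
  set T := min t M with hT
  have hT0 : 0 ≤ T := le_min ht hM.le
  have hTt : T ≤ t := min_le_left _ _
  have hTM : T ≤ M := min_le_right _ _
  have h1 := YU_step (x := x) hc hR (w := w) hv0 h (s := s) hTt (by linarith)
  have hu : max (w.1 + s - T) 0 = w.1 + s - T := max_eq_left (by linarith)
  rw [hu] at h1
  have hphu : ph c R x (w.1 + s - T) ≤ f2 c R x (w.1 + s - T) := min_le_right _ _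
  have hphw : ph c R x w.1 = f2 c R x w.1 := ph_of_ge hc hR hx hwx hRx
  have hTlow : t - t ^ 2 / M ≤ T := by
    rcases le_total t M with h' | h'
    · rw [hT, min_eq_left h']
      have : 0 ≤ t ^ 2 / M := by positivity
      linarith
    · rw [hT, min_eq_right h']
      have : t ≤ t ^ 2 / M := by rw [le_div_iff₀ hM]; nlinarith
      linarith
  have hYw : YU c R x w = w.2 + f2 c R x w.1 - (x + c * √(x ^ 2 + R ^ 2)) := by
    unfold YU; rw [hphw]
  rw [hYw]
  unfold f2 at hphu ⊢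
  linarith

/-- above level `x` the potential is positive -/
lemma YU_pos_of_ge {c R x : ℝ} (hc : 1 ≤ c) (hR : 0 < R) {w : ℝ × ℝ} (hx : 0 ≤ x)
    (hwx : x < w.1) (h12 : w.1 ≤ w.2) (hRx : 2 * R ≤ (c - 1) * x) : 0 < YU c R x w := by
  unfold YU
  rw [ph_of_ge hc hR hx hwx.le hRx]
  unfold f2
  linarith

end Pool.Agent.Lib.MP_04add8_pr
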