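import Mathlib
import Pool.Agent.Lib.MP_04add8_pr.Exact.UpperPot
import Pool.Agent.Lib.MP_04add8_pr.Exact.BI

/-! The exact upper bound: strictness of the cost inequality for a large job, and the
contribution of one big jump. -/

open MeasureTheory ProbabilityTheory Filter Topology
open scoped ENNReal

set_option linter.unusedSectionVars false

namespace Pool.Agent.Lib.MP_04add8_pr

/-- adding a job to `w`: either the one-big-job cost of the new vector is beaten with the margin
`(1 - a) s ^ a`, or the two-big-jobs cost is beaten. -/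
lemma strict {a b : ℝ} (ha0 : 0 < a) (ha1 : a < 1) (hb : 0 < b) (hb1 : b < 1) {w : ℝ × ℝ}
    (hw1 : 0 ≤ w.1) (hw2 : 0 < w.2) {s : ℝ} (hs : 0 ≤ s) :
    min ((max (w.1 + s) w.2 + min (w.1 + s) w.2 / b) ^ a + (1 - a) * s ^ a)
      ((w.1 + s) ^ a + w.2 ^ a) ≤ J0 a b w + s ^ a := by
  set A := w.2 + w.1 / b with hA
  have hA0 : 0 < A := by positivity
  have hAr : 0 < A ^ (1 - a) := by positivity
  have hAinv : A ^ (a - 1) * A ^ (1 - a) = 1 := by
    rw [← Real.rpow_add hA0]
    have : a - 1 + (1 - a) = 0 := by ring
    rw [this, Real.rpow_zero]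
  unfold J0
  rw [← hA]
  rcases min_cases (A ^ a) (w.1 ^ a + w.2 ^ a) with ⟨e, _⟩ | ⟨e, _⟩
  · rw [e]
    rcases le_or_gt (s ^ (1 - a)) (b * A ^ (1 - a)) with hsm | hsm
    · -- small job
      refine (min_le_left _ _).trans ?_
      have hA' : max (w.1 + s) w.2 + min (w.1 + s) w.2 / b ≤ A + s / b := by
        rcases le_total (w.1 + s) w.2 with h | h
        · rw [max_eq_right h, min_eq_left h, hA, add_div]; linarith
        · rw [max_eq_left h, min_eq_right h, hA]
          have h1 : w.1 + s + w.2 / b - (w.2 + w.1 / b + s / b) =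
            (w.2 - w.1 - s) * (1 / b - 1) := by ring
          have h2 : 0 ≤ 1 / b - 1 := by
            rw [sub_nonneg, le_div_iff₀ hb]; linarith
          nlinarith
      have h0 : 0 ≤ max (w.1 + s) w.2 + min (w.1 + s) w.2 / b := by
        have h3 : 0 ≤ min (w.1 + s) w.2 := le_min (by positivity) hw2.le
        have h4 : 0 ≤ max (w.1 + s) w.2 := le_max_of_le_right hw2.le
        positivity
      have hsb : 0 ≤ s / b := by positivity
      have h1 : (max (w.1 + s) w.2 + min (w.1 + s) w.2 / b) ^ a ≤ A ^ a + a * A ^ (a - 1) * (s / b) :=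
        (Real.rpow_le_rpow h0 hA' ha0.le).trans
          (rpow_add_le_tangent ha0 ha1 hA0 (by linarith))
      have h2 : A ^ (a - 1) * (s / b) ≤ s ^ a := by
        rcases hs.eq_or_lt with h | h
        · rw [← h]; simp [Real.zero_rpow ha0.ne']
        · have h3 : s = s ^ a * s ^ (1 - a) := by
            rw [← Real.rpow_add h]; simp
          calc A ^ (a - 1) * (s / b) = A ^ (a - 1) * (s ^ a * s ^ (1 - a) / b) := by rw [← h3]
            _ ≤ A ^ (a - 1) * (s ^ a * (b * A ^ (1 - a)) / b) := by gcongr
            _ = (A ^ (a - 1) * A ^ (1 - a)) * s ^ a := by field_simp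
            _ = s ^ a := by rw [hAinv, one_mul]
      have h4 : a * A ^ (a - 1) * (s / b) = a * (A ^ (a - 1) * (s / b)) := by ring
      rw [h4] at h1
      have h5 : a * (A ^ (a - 1) * (s / b)) ≤ a * s ^ a := by gcongr
      linarith
    · -- large job
      refine (min_le_right _ _).trans ?_
      have hs0 : 0 < s := by
        rcases hs.eq_or_lt with h | h
        · exfalso
          rw [← h, Real.zero_rpow (by linarith)] at hsm
          have : 0 < b * A ^ (1 - a) := by positivity
          linarith
        · exact h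
      have h1 := rpow_add_le_tangent ha0 ha1 hs0 (y := w.1) (by linarith)
      have h2 := rpow_add_le_tangent ha0 ha1 hA0 (y := -(w.1 / b)) (by
        rw [hA]; linarith)
      have e2 : A + -(w.1 / b) = w.2 := by rw [hA]; ring
      rw [e2] at h2
      have h3 : s ^ (a - 1) ≤ A ^ (a - 1) / b := by
        have e3 : s ^ (a - 1) * s ^ (1 - a) = 1 := by
          rw [← Real.rpow_add hs0]
          have : a - 1 + (1 - a) = 0 := by ring
          rw [this, Real.rpow_zero]
        rw [le_div_iff₀ hb]
        have hsr : 0 < s ^ (a - 1) := by positivity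
        have hAr' : 0 < A ^ (a - 1) := by positivity
        calc s ^ (a - 1) * b = s ^ (a - 1) * (b * A ^ (1 - a)) * A ^ (a - 1) := by
              have : s ^ (a - 1) * (b * A ^ (1 - a)) * A ^ (a - 1) =
                s ^ (a - 1) * b * (A ^ (a - 1) * A ^ (1 - a)) := by ring
              rw [this, hAinv, mul_one]
          _ ≤ s ^ (a - 1) * s ^ (1 - a) * A ^ (a - 1) := by gcongr
          _ = A ^ (a - 1) := by rw [e3, one_mul]
      have h4 : a * s ^ (a - 1) * w.1 ≤ a * (A ^ (a - 1) / b) * w.1 := by gcongr
      have e5 : a * A ^ (a - 1) * -(w.1 / b) = -(a * (A ^ (a - 1) / b) * w.1) := by ring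
      rw [e5] at h2
      have e6 : s + w.1 = w.1 + s := by ring
      rw [e6] at h1
      linarith
  · rw [e]
    refine (min_le_right _ _).trans ?_
    have := rpow_add_le_add ha0 ha1 hw1 hs
    linarith

/-- two jobs whose combined reach is at least `A0` -/
lemma two_jobs {a b : ℝ} (ha0 : 0 < a) (ha1 : a < 1) (hb : 0 < b) {p q p0 A0 : ℝ}
    (hpq : p ≤ q) (hA : A0 ≤ q + p / b) (hp0 : 0 ≤ p0) (hp0p : p0 ≤ p)
    (hp0A : p0 ≤ A0 / (1 + 1 / b)) :
    min (2 * (A0 / (1 + 1 / b)) ^ a) (p0 ^ a + (A0 - p0 / b) ^ a) ≤ p ^ a + q ^ a := by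
  set η := 1 + 1 / b with hη
  have hη0 : 0 < η := by positivity
  set m := A0 / η with hm
  have hm0 : 0 ≤ m := hp0.trans hp0A
  have hA0 : A0 = m + m / b := by
    rw [hm, hη]; field_simp
  set P := min p m with hP
  have hP0 : p0 ≤ P := le_min hp0p hp0A
  have hPm : P ≤ m := min_le_right _ _
  have hPb : 0 ≤ A0 - P / b := by
    have : P / b ≤ m / b := by gcongr
    linarith
  have h1 : P ^ a + (A0 - P / b) ^ a ≤ p ^ a + q ^ a := by
    have hPp : P ≤ p := min_le_left _ _
    have h2 : A0 - P / b ≤ q := by
      rcases le_total p m with h | h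
      · rw [hP, min_eq_left h]; linarith
      · rw [hP, min_eq_right h]
        have : m ≤ q := h.trans hpq
        linarith
    gcongr
    exact hp0.trans hP0
  refine le_trans ?_ h1
  -- concavity
  have hconc := Real.concaveOn_rpow ha0.le ha1.le
  rcases eq_or_lt_of_le hp0A with hq | hq
  · have : P = p0 := le_antisymm (hPm.trans hq.symm.le) hP0
    rw [this]
    exact min_le_right _ _
  · set t := (m - P) / (m - p0) with ht
    have hd : 0 < m - p0 := by linarith
    have ht0 : 0 ≤ t := by
      have : 0 ≤ m - P := by linarith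
      positivity
    have ht1 : t ≤ 1 := by rw [ht, div_le_one hd]; linarith
    have hPt : P = t * p0 + (1 - t) * m := by
      have h5 : t * (m - p0) = m - P := by rw [ht]; field_simp
      linarith
    have h3 := hconc.2 (x := p0) (y := m) hp0 hm0 ht0 (by linarith : (0:ℝ) ≤ 1 - t) (by ring)
    have hA1 : (0:ℝ) ≤ A0 - p0 / b := by
      have : p0 / b ≤ m / b := by gcongr
      linarith
    have h4 := hconc.2 (x := A0 - p0 / b) (y := m) hA1 hm0 ht0
      (by linarith : (0:ℝ) ≤ 1 - t) (by ring)
    simp only [smul_eq_mul] at h3 h4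
    have e4 : t * (A0 - p0 / b) + (1 - t) * m = A0 - P / b := by
      rw [hPt, hA0]; ring
    rw [← hPt] at h3
    rw [e4] at h4
    have h5 : min (2 * m ^ a) (p0 ^ a + (A0 - p0 / b) ^ a) ≤
        t * (p0 ^ a + (A0 - p0 / b) ^ a) + (1 - t) * (2 * m ^ a) := by
      have h6 := min_le_left (2 * m ^ a) (p0 ^ a + (A0 - p0 / b) ^ a)
      have h7 := min_le_right (2 * m ^ a) (p0 ^ a + (A0 - p0 / b) ^ a)
      have h8 : t * min (2 * m ^ a) (p0 ^ a + (A0 - p0 / b) ^ a) ≤
        t * (p0 ^ a + (A0 - p0 / b) ^ a) := by gcongr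
      have h9 : (1 - t) * min (2 * m ^ a) (p0 ^ a + (A0 - p0 / b) ^ a) ≤
        (1 - t) * (2 * m ^ a) := by
          apply mul_le_mul_of_nonneg_left h6; linarith
      linarith
    linarith

section weib

variable {a : ℝ} {μ : Measure ℝ} [IsProbabilityMeasure μ]

lemma intervalIntegral_exp_shift {k z u v : ℝ} (hk : k ≠ 0) :
    ∫ y in u..v, Real.exp (k * (y - z)) =
      Real.exp (k * (v - z)) / k - Real.exp (k * (u - z)) / k := by
  have h : ∀ y ∈ Set.uIcc u v, HasDerivAt (fun y => Real.exp (k * (y - z)) / k)
      (Real.exp (k * (y - z))) y := by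
    intro y _
    have h1 : HasDerivAt (fun y => k * (y - z)) k y := by
      simpa using ((hasDerivAt_id y).sub_const z).const_mul k
    have h2 := (h1.exp).div_const k
    refine h2.congr_deriv ?_
    field_simp
  exact intervalIntegral.integral_eq_sub_of_hasDerivAt h
    (Continuous.intervalIntegrable (by fun_prop) _ _)

lemma lintegral_Ioo_exp {k z u v : ℝ} (hk : 0 < k) (huv : u ≤ v) :
    ∫⁻ y in Set.Ioo u v, ENNReal.ofReal (Real.exp (k * (y - z))) =
      ENNReal.ofReal (Real.exp (k * (v - z)) / k - Real.exp (k * (u - z)) / k) := by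
  rw [← intervalIntegral_exp_shift hk.ne', intervalIntegral.integral_of_le huv,
    ← ofReal_integral_eq_lintegral_ofReal]
  · rw [integral_Ioc_eq_integral_Ioo]
  · exact (Continuous.integrableOn_Icc (by fun_prop)).mono_set Set.Ioo_subset_Icc_self
  · filter_upwards with y
    positivity

/-- pointwise: the increment of the potential as a primitive -/
lemma gt_sub_le_primitive {k r z s : ℝ} (hk : 0 < k) (hr : 0 ≤ r) :
    ENNReal.ofReal (gt k (s - z) - gt k (-r)) ≤ ENNReal.ofReal (s - z) +
      ∫⁻ y in Set.Ioo (z - r) s,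
        (Set.Iic z).indicator (fun y => ENNReal.ofReal (Real.exp (k * (y - z)))) y := by
  have hgr : gt k (-r) = Real.exp (-(k * r)) / k := by
    unfold gt
    split_ifs with h
    · have : r = 0 := by linarith
      rw [this]; simp
    · congr 2; ring
  rcases le_or_gt s (z - r) with h1 | h1
  · have : gt k (s - z) ≤ gt k (-r) := gt_mono hk (by linarith)
    rw [ENNReal.ofReal_of_nonpos (by linarith : gt k (s - z) - gt k (-r) ≤ 0)]
    exact zero_le
  · rcases le_or_gt s z with h2 | h2
    · refine le_trans ?_ le_add_self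
      have e : ∫⁻ y in Set.Ioo (z - r) s,
          (Set.Iic z).indicator (fun y => ENNReal.ofReal (Real.exp (k * (y - z)))) y =
          ∫⁻ y in Set.Ioo (z - r) s, ENNReal.ofReal (Real.exp (k * (y - z))) := by
        apply setLIntegral_congr_fun measurableSet_Ioo
        intro y hy
        rw [Set.indicator_of_mem (show y ∈ Set.Iic z from (hy.2.le.trans h2))]
      rw [e, lintegral_Ioo_exp hk h1.le]
      apply ENNReal.ofReal_le_ofReal
      have e1 : gt k (s - z) = Real.exp (k * (s - z)) / k := by
        unfold gt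
        split_ifs with h
        · have : s = z := by linarith
          rw [this]; simp
        · rfl
      rw [e1, hgr]
      have e2 : k * (z - r - z) = -(k * r) := by ring
      rw [e2]
    · have e : ENNReal.ofReal (Real.exp (k * (z - z)) / k - Real.exp (k * (z - r - z)) / k) ≤
          ∫⁻ y in Set.Ioo (z - r) s,
          (Set.Iic z).indicator (fun y => ENNReal.ofReal (Real.exp (k * (y - z)))) y := by
        rw [← lintegral_Ioo_exp hk (by linarith : z - r ≤ z)]
        calc ∫⁻ y in Set.Ioo (z - r) z, ENNReal.ofReal (Real.exp (k * (y - z)))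
            = ∫⁻ y in Set.Ioo (z - r) z,
              (Set.Iic z).indicator (fun y => ENNReal.ofReal (Real.exp (k * (y - z)))) y := by
              apply setLIntegral_congr_fun measurableSet_Ioo
              intro y hy
              rw [Set.indicator_of_mem (show y ∈ Set.Iic z from hy.2.le)]
          _ ≤ _ := lintegral_mono_set (Set.Ioo_subset_Ioo le_rfl h2.le)
      refine le_trans ?_ (add_le_add le_rfl e)
      have h3 : Real.exp (k * (z - r - z)) / k ≤ Real.exp (k * (z - z)) / k := by
        gcongr
        linarith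
      rw [← ENNReal.ofReal_add (by linarith) (by linarith)]
      apply ENNReal.ofReal_le_ofReal
      have e1 : gt k (s - z) = s - z + 1 / k := by
        unfold gt
        rw [if_pos (by linarith)]
      have e2 : k * (z - r - z) = -(k * r) := by ring
      rw [e1, hgr, e2, sub_self, mul_zero, Real.exp_zero]
      linarith

/-- contribution of one big jump -/
lemma jump_upper (ha0 : 0 < a) (ha1 : a < 1)
    (hμ : ∀ x, 0 ≤ x → μ (Set.Ioi x) = ENNReal.ofReal (Real.exp (-(x ^ a)))) {k r z : ℝ}
    (hk : 0 < k) (hr : 0 ≤ r) (hz : 0 < z - r) (hzk : a * (z - r) ^ (a - 1) ≤ k / 2) :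
    ∫⁻ s, ENNReal.ofReal (gt k (s - z) - gt k (-r)) ∂μ ≤
      ENNReal.ofReal (BI a z + 2 / k * Real.exp (-(z ^ a))) := by
  have hz0 : 0 < z := by linarith
  set q : ℝ → ℝ≥0∞ :=
    (Set.Iic z).indicator (fun y => ENNReal.ofReal (Real.exp (k * (y - z)))) with hq
  have hqm : Measurable q := by
    rw [hq]
    exact Measurable.indicator (by fun_prop) measurableSet_Iic
  calc ∫⁻ s, ENNReal.ofReal (gt k (s - z) - gt k (-r)) ∂μ
      ≤ ∫⁻ s, (ENNReal.ofReal (s - z) + ∫⁻ y in Set.Ioo (z - r) s, q y) ∂μ :=
        lintegral_mono fun s => gt_sub_le_primitive hk hr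
    _ = ENNReal.ofReal (BI a z) + ∫⁻ y in Set.Ioi (z - r), q y * μ (Set.Ioi y) := by
        rw [lintegral_add_left (by fun_prop), lintegral_sub_pos ha0 ha1 hμ hz0.le,
          lintegral_primitive μ hqm]
    _ ≤ ENNReal.ofReal (BI a z) + ENNReal.ofReal (2 / k * Real.exp (-(z ^ a))) := by
        gcongr
        have h1 : ∀ y ∈ Set.Ioi (z - r), q y * μ (Set.Ioi y) ≤
            (Set.Iic z).indicator (fun y => ENNReal.ofReal (Real.exp (-(z ^ a))) *
              ENNReal.ofReal (Real.exp (k / 2 * (y - z)))) y := by
          intro y hy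
          by_cases hyz : y ∈ Set.Iic z
          · rw [hq, Set.indicator_of_mem hyz, Set.indicator_of_mem hyz]
            have hy0 : 0 < y := hz.trans hy
            rw [hμ y hy0.le, ← ENNReal.ofReal_mul (Real.exp_pos _).le,
              ← ENNReal.ofReal_mul (Real.exp_pos _).le, ← Real.exp_add, ← Real.exp_add]
            apply ENNReal.ofReal_le_ofReal
            apply Real.exp_le_exp.mpr
            have hyz' : y ≤ z := hyz
            have h2 := rpow_add_le_tangent ha0 ha1 hy0 (y := z - y) (by linarith)
            have e : y + (z - y) = z := by ring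
            rw [e] at h2
            have h3 : y ^ (a - 1) ≤ (z - r) ^ (a - 1) :=
              Real.rpow_le_rpow_of_nonpos hz (le_of_lt hy) (by linarith)
            have h4 : a * y ^ (a - 1) ≤ k / 2 := le_trans (by gcongr) hzk
            have h5 : a * y ^ (a - 1) * (z - y) ≤ k / 2 * (z - y) := by
              apply mul_le_mul_of_nonneg_right h4; linarith
            linarith
          · rw [hq, Set.indicator_of_notMem hyz, zero_mul]
            exact zero_le
        calc ∫⁻ y in Set.Ioi (z - r), q y * μ (Set.Ioi y)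
            ≤ ∫⁻ y in Set.Ioi (z - r), (Set.Iic z).indicator
              (fun y => ENNReal.ofReal (Real.exp (-(z ^ a))) *
              ENNReal.ofReal (Real.exp (k / 2 * (y - z)))) y :=
              setLIntegral_mono' measurableSet_Ioi h1
          _ = ∫⁻ y in Set.Iic z ∩ Set.Ioi (z - r), ENNReal.ofReal (Real.exp (-(z ^ a))) *
              ENNReal.ofReal (Real.exp (k / 2 * (y - z))) := by
              rw [lintegral_indicator measurableSet_Iic, Measure.restrict_restrict measurableSet_Iic]
          _ = ∫⁻ y in Set.Ioc (z - r) z, ENNReal.ofReal (Real.exp (-(z ^ a))) *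
              ENNReal.ofReal (Real.exp (k / 2 * (y - z))) := by
              rw [Set.inter_comm, Set.Ioi_inter_Iic]
          _ = ∫⁻ y in Set.Ioo (z - r) z, ENNReal.ofReal (Real.exp (-(z ^ a))) *
              ENNReal.ofReal (Real.exp (k / 2 * (y - z))) := by
              rw [Measure.restrict_congr_set Ioo_ae_eq_Ioc.symm]
          _ = ENNReal.ofReal (Real.exp (-(z ^ a))) * ENNReal.ofReal
              (Real.exp (k / 2 * (z - z)) / (k / 2) -
                Real.exp (k / 2 * (z - r - z)) / (k / 2)) := by
              rw [lintegral_const_mul _ (by fun_prop),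
                lintegral_Ioo_exp (by positivity) (by linarith)]
          _ ≤ ENNReal.ofReal (2 / k * Real.exp (-(z ^ a))) := by
              rw [← ENNReal.ofReal_mul (Real.exp_pos _).le]
              apply ENNReal.ofReal_le_ofReal
              rw [mul_comm (2 / k)]
              gcongr
              rw [sub_self, mul_zero, Real.exp_zero]
              have h6 : 0 ≤ Real.exp (k / 2 * (z - r - z)) / (k / 2) := by positivity
              have h7 : 1 / (k / 2) = 2 / k := by field_simp
              linarith
    _ = _ := by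
        rw [ENNReal.ofReal_add (BI_pos ha0 ha1 hz0.le).le (by positivity)]

end weib

end Pool.Agent.Lib.MP_04add8_pr
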