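import Mathlib
import Pool.Agent.Lib.MP_04add8_pr.Exact.Rate

/-! The potential for the exact lower bound. -/

open MeasureTheory ProbabilityTheory Filter Topology
open scoped ENNReal

set_option linter.unusedSectionVars false

namespace Pool.Agent.Lib.MP_04add8_pr

/-- half the square of the positive part -/
noncomputable def sqp (y : ℝ) : ℝ := (max y 0) ^ 2 / 2

lemma sqp_taylor (y z : ℝ) : sqp y + max y 0 * z ≤ sqp (y + z) ∧
    sqp (y + z) ≤ sqp y + max y 0 * z + z ^ 2 / 2 := by
  unfold sqp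
  rcases le_total y 0 with h | h <;> rcases le_total (y + z) 0 with h' | h'
  · rw [max_eq_right h, max_eq_right h']
    constructor <;> nlinarith [sq_nonneg z]
  · rw [max_eq_right h, max_eq_left h']
    constructor <;> nlinarith [sq_nonneg z, sq_nonneg (y + z)]
  · rw [max_eq_left h, max_eq_right h']
    constructor <;> nlinarith [sq_nonneg z, sq_nonneg (y + z)]
  · rw [max_eq_left h, max_eq_left h']
    constructor <;> nlinarith [sq_nonneg z, sq_nonneg (y + z)]

/-- `y` cut off smoothly between `x - L` and `x` -/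
noncomputable def psi (x L y : ℝ) : ℝ := y - sqp (y - (x - L)) / L + sqp (y - x) / L

/-- derivative of `psi` -/
noncomputable def dpsi (x L y : ℝ) : ℝ := 1 - max (y - (x - L)) 0 / L + max (y - x) 0 / L

lemma psi_taylor {x L : ℝ} (hL : 0 < L) (y z : ℝ) :
    psi x L y + dpsi x L y * z - z ^ 2 / (2 * L) ≤ psi x L (y + z) := by
  have h1 := (sqp_taylor (y - (x - L)) z).2
  have h2 := (sqp_taylor (y - x) z).1
  have e1 : y - (x - L) + z = y + z - (x - L) := by ring
  have e2 : y - x + z = y + z - x := by ring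
  rw [e1] at h1
  rw [e2] at h2
  unfold psi dpsi
  have h3 : sqp (y + z - (x - L)) / L ≤
      (sqp (y - (x - L)) + max (y - (x - L)) 0 * z + z ^ 2 / 2) / L := by gcongr
  have h4 : (sqp (y - x) + max (y - x) 0 * z) / L ≤ sqp (y + z - x) / L := by gcongr
  have e3 : (sqp (y - (x - L)) + max (y - (x - L)) 0 * z + z ^ 2 / 2) / L =
      sqp (y - (x - L)) / L + max (y - (x - L)) 0 / L * z + z ^ 2 / (2 * L) := by
    field_simp
  have e4 : (sqp (y - x) + max (y - x) 0 * z) / L = sqp (y - x) / L + max (y - x) 0 / L * z := by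
    ring
  rw [e3] at h3
  rw [e4] at h4
  linarith

lemma dpsi_of_le {x L y : ℝ} (hL : 0 < L) (hy : y ≤ x - L) : dpsi x L y = 1 := by
  unfold dpsi
  rw [max_eq_right (by linarith), max_eq_right (by linarith)]
  simp

lemma dpsi_mid {x L y : ℝ} (hL : 0 < L) (hy : x - L ≤ y) (hy2 : y ≤ x) :
    dpsi x L y = (x - y) / L := by
  unfold dpsi
  rw [max_eq_left (by linarith), max_eq_right (by linarith)]
  field_simp
  ring

lemma dpsi_of_ge {x L y : ℝ} (hL : 0 < L) (hy : x ≤ y) : dpsi x L y = 0 := by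
  unfold dpsi
  rw [max_eq_left (by linarith), max_eq_left (by linarith)]
  field_simp
  ring

lemma dpsi_nonneg {x L : ℝ} (hL : 0 < L) (y : ℝ) : 0 ≤ dpsi x L y := by
  rcases le_total y (x - L) with h | h
  · rw [dpsi_of_le hL h]; norm_num
  · rcases le_total y x with h' | h'
    · rw [dpsi_mid hL h h']
      apply div_nonneg _ hL.le
      linarith
    · rw [dpsi_of_ge hL h']

lemma dpsi_le_one {x L : ℝ} (hL : 0 < L) (y : ℝ) : dpsi x L y ≤ 1 := by
  rcases le_total y (x - L) with h | h
  · rw [dpsi_of_le hL h]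
  · rcases le_total y x with h' | h'
    · rw [dpsi_mid hL h h', div_le_one hL]
      linarith
    · rw [dpsi_of_ge hL h']; norm_num

/-- the slope at `w₁` is at most `(w₂ - w₁) / L` when `w₂ ≥ x` -/
lemma dpsi_mul_le {x L y v : ℝ} (hL : 0 < L) (hv : x ≤ v) (hyv : y ≤ v) :
    dpsi x L y * L ≤ v - y := by
  rcases le_total y (x - L) with h | h
  · rw [dpsi_of_le hL h]; linarith
  · rcases le_total y x with h' | h'
    · rw [dpsi_mid hL h h', div_mul_cancel₀ _ hL.ne']
      linarith
    · rw [dpsi_of_ge hL h']; linarith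

lemma psi_of_le {x L y : ℝ} (hL : 0 < L) (hy : y ≤ x - L) : psi x L y = y := by
  unfold psi sqp
  rw [max_eq_right (by linarith), max_eq_right (by linarith)]
  simp

lemma psi_mid {x L y : ℝ} (hL : 0 < L) (hy : x - L ≤ y) (hy2 : y ≤ x) :
    psi x L y = y - (y - (x - L)) ^ 2 / (2 * L) := by
  unfold psi sqp
  rw [max_eq_left (by linarith), max_eq_right (by linarith)]
  field_simp
  ring

lemma psi_of_ge {x L y : ℝ} (hL : 0 < L) (hy : x ≤ y) : psi x L y = x - L / 2 := by
  unfold psi sqp
  rw [max_eq_left (by linarith), max_eq_left (by linarith)]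
  field_simp
  ring

lemma psi_mono {x L : ℝ} (hL : 0 < L) : Monotone (psi x L) := by
  intro y z hyz
  have h := psi_taylor (x := x) hL
  rcases le_total z (x - L) with h1 | h1
  · rw [psi_of_le hL h1, psi_of_le hL (hyz.trans h1)]; exact hyz
  · rcases le_total z x with h2 | h2
    · rw [psi_mid hL h1 h2]
      rcases le_total y (x - L) with h3 | h3
      · rw [psi_of_le hL h3]
        have : (z - (x - L)) ^ 2 / (2 * L) ≤ (z - (x - L)) := by
          rw [div_le_iff₀ (by positivity)]
          nlinarith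
        linarith
      · rw [psi_mid hL h3 (hyz.trans h2)]
        have : (z - (x - L)) ^ 2 / (2 * L) - (y - (x - L)) ^ 2 / (2 * L) ≤ z - y := by
          rw [← sub_div, div_le_iff₀ (by positivity)]
          nlinarith
        linarith
    · rw [psi_of_ge hL h2]
      rcases le_total y (x - L) with h3 | h3
      · rw [psi_of_le hL h3]; linarith
      · rcases le_total y x with h4 | h4
        · rw [psi_mid hL h3 h4]
          have : L / 2 - (x - y) ≤ (y - (x - L)) ^ 2 / (2 * L) := by
            rw [le_div_iff₀ (by positivity)]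
            nlinarith [sq_nonneg (x - y)]
          linarith
        · rw [psi_of_ge hL h4]

lemma psi_nonneg {x L y : ℝ} (hL : 0 < L) (hLx : L ≤ x) (hy : 0 ≤ y) : 0 ≤ psi x L y := by
  have h := psi_mono (x := x) hL hy
  rwa [psi_of_le hL (by linarith)] at h

lemma psi_le {x L y : ℝ} (hL : 0 < L) : psi x L y ≤ x - L / 2 := by
  have h := psi_mono (x := x) hL (le_max_left y x)
  rwa [psi_of_ge hL (le_max_right y x)] at h

/-- first-order lower bound for `psi` of the smaller workload after one step -/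
lemma psi_step {x L w1 w2 s t : ℝ} (hL : 0 < L) (h12 : w1 ≤ w2) (hx : x ≤ w2)
    (hs : 0 ≤ s) (ht : 0 ≤ t) :
    psi x L w1 + dpsi x L w1 * (s - t) - (s ^ 2 + t ^ 2) / L ≤
      psi x L (min (w1 + s) w2 - t) := by
  rcases le_total (w1 + s) w2 with h | h
  · rw [min_eq_left h]
    have h1 := psi_taylor (x := x) hL w1 (s - t)
    have e : w1 + (s - t) = w1 + s - t := by ring
    rw [e] at h1
    have h2 : (s - t) ^ 2 / (2 * L) ≤ (s ^ 2 + t ^ 2) / L := by
      rw [div_le_div_iff₀ (by positivity) hL]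
      nlinarith [mul_nonneg hs ht, sq_nonneg s, sq_nonneg t,
        mul_nonneg (mul_nonneg hs ht) hL.le, mul_nonneg (sq_nonneg s) hL.le,
        mul_nonneg (sq_nonneg t) hL.le]
    linarith
  · rw [min_eq_right h]
    set z := w2 - w1 with hz
    have hz0 : 0 ≤ z := by rw [hz]; linarith
    have hzs : z ≤ s := by rw [hz]; linarith
    have h1 := psi_taylor (x := x) hL w1 (z - t)
    have e : w1 + (z - t) = w2 - t := by rw [hz]; ring
    rw [e] at h1
    have hd := dpsi_mul_le (x := x) hL hx h12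
    rw [← hz] at hd
    have hd0 := dpsi_nonneg (x := x) hL w1
    have h2 : dpsi x L w1 * (s - z) ≤ s ^ 2 / (4 * L) := by
      rw [le_div_iff₀ (by positivity)]
      have h3 : dpsi x L w1 * L * (s - z) ≤ z * (s - z) := by
        apply mul_le_mul_of_nonneg_right hd; linarith
      nlinarith [sq_nonneg (s - 2 * z)]
    have h4 : (z - t) ^ 2 / (2 * L) ≤ (s ^ 2 + t ^ 2) / (2 * L) := by
      gcongr
      nlinarith [mul_nonneg hz0 ht]
    have h5 : s ^ 2 / (4 * L) + (s ^ 2 + t ^ 2) / (2 * L) ≤ (s ^ 2 + t ^ 2) / L := by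
      have : (s ^ 2 + t ^ 2) / L - (s ^ 2 / (4 * L) + (s ^ 2 + t ^ 2) / (2 * L)) =
          (s ^ 2 + 2 * t ^ 2) / (4 * L) := by
        field_simp
        ring
      have h6 : 0 ≤ (s ^ 2 + 2 * t ^ 2) / (4 * L) := by positivity
      linarith
    have h7 : dpsi x L w1 * (s - t) = dpsi x L w1 * (z - t) + dpsi x L w1 * (s - z) := by ring
    linarith

/-- total workload plus `(c-1)` times the cut-off smaller workload -/
noncomputable def FL (c x L : ℝ) (w : ℝ × ℝ) : ℝ := w.1 + w.2 + (c - 1) * psi x L w.1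

/-- threshold -/
noncomputable def thL (c x L : ℝ) : ℝ := 2 * x + (c - 1) * (x - L / 2)

lemma FL_pos_imp {c x L : ℝ} (hc : 1 ≤ c) (hL : 0 < L) {w : ℝ × ℝ} (h12 : w.1 ≤ w.2)
    (h : thL c x L < FL c x L w) : x < w.2 := by
  by_contra hcon
  push Not at hcon
  unfold FL thL at h
  have h1 := psi_le (x := x) (y := w.1) hL
  have h2 : (c - 1) * psi x L w.1 ≤ (c - 1) * (x - L / 2) := by
    apply mul_le_mul_of_nonneg_left h1; linarith
  linarith

/-- one-step lower bound -/
lemma FL_step {c x L : ℝ} (hc : 1 ≤ c) (hL : 0 < L) {w : ℝ × ℝ} (h12 : w.1 ≤ w.2)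
    (hx : x ≤ w.2) {s t : ℝ} (hs : 0 ≤ s) (ht : 0 ≤ t) :
    FL c x L w + (s - 2 * t) +
      (c - 1) * (dpsi x L w.1 * (s - t) - (s ^ 2 + t ^ 2) / L) ≤ FL c x L (kwStep w s t) := by
  have h1 := psi_step (x := x) hL h12 hx hs ht
  set u := max (w.1 + s - t) 0 with hu
  set v := max (w.2 - t) 0 with hv
  have hu1 : w.1 + s - t ≤ u := le_max_left _ _
  have hv1 : w.2 - t ≤ v := le_max_left _ _
  have h2 : min (w.1 + s) w.2 - t ≤ min u v := by
    apply le_min
    · refine le_trans ?_ hu1
      have := min_le_left (w.1 + s) w.2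
      linarith
    · refine le_trans ?_ hv1
      have := min_le_right (w.1 + s) w.2
      linarith
  have h3 := psi_mono (x := x) hL h2
  have h4 : (c - 1) * (psi x L w.1 + dpsi x L w.1 * (s - t) - (s ^ 2 + t ^ 2) / L) ≤
      (c - 1) * psi x L (min u v) := by
    apply mul_le_mul_of_nonneg_left (h1.trans h3); linarith
  have h5 : min u v + max u v = u + v := min_add_max u v
  unfold FL
  rw [kwStep_eq]
  simp only
  rw [← hu, ← hv]
  linarith

/-- after one step the potential is at least `s - t` -/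
lemma FL_ge {c x L : ℝ} (hc : 1 ≤ c) (hL : 0 < L) (hLx : L ≤ x) {w : ℝ × ℝ} (h1 : 0 ≤ w.1)
    {s t : ℝ} : s - t ≤ FL c x L (kwStep w s t) := by
  set u := max (w.1 + s - t) 0 with hu
  set v := max (w.2 - t) 0 with hv
  have hu0 : 0 ≤ u := le_max_right _ _
  have hv0 : 0 ≤ v := le_max_right _ _
  have hu1 : w.1 + s - t ≤ u := le_max_left _ _
  have h3 := psi_nonneg (y := min u v) hL hLx (le_min hu0 hv0)
  have h4 : 0 ≤ (c - 1) * psi x L (min u v) := mul_nonneg (by linarith) h3
  have h5 : min u v + max u v = u + v := min_add_max u v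
  unfold FL
  rw [kwStep_eq]
  simp only
  rw [← hu, ← hv]
  linarith

end Pool.Agent.Lib.MP_04add8_pr
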