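import Mathlib
import Pool.Agent.Lib.MP_04add8_pr.Exact.LowerPot
import Pool.Agent.Lib.MP_04add8_pr.Exact.BI

/-! The exact lower bound, integrated form. -/

open MeasureTheory ProbabilityTheory Filter Topology
open scoped ENNReal

set_option linter.unusedSectionVars false

namespace Pool.Agent.Lib.MP_04add8_pr

variable {a : ℝ} {μ ν : Measure ℝ} [IsProbabilityMeasure μ] [IsProbabilityMeasure ν]
  {π : Measure (ℝ × ℝ)}

lemma ofReal_integral_le_lintegral {α : Type*} [MeasurableSpace α] {m : Measure α} (f : α → ℝ) :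
    ENNReal.ofReal (∫ x, f x ∂m) ≤ ∫⁻ x, ENNReal.ofReal (f x) ∂m := by
  by_cases hf : Integrable f m
  · have h1 : ∫ x, f x ∂m ≤ ∫ x, max (f x) 0 ∂m :=
      integral_mono hf hf.pos_part fun x => le_max_left _ _
    refine (ENNReal.ofReal_le_ofReal h1).trans ?_
    rw [ofReal_integral_eq_lintegral_ofReal hf.pos_part
      (Filter.Eventually.of_forall fun x => le_max_right _ _)]
    apply lintegral_mono
    intro x
    simp only
    rcases le_total (f x) 0 with h | h
    · rw [max_eq_right h]; simp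
    · rw [max_eq_left h]
  · rw [integral_undef hf]; simp

/-- all moments of the larger workload are finite -/
lemma integrable_snd (ha0 : 0 < a) (ha1 : a < 1)
    (hμ : ∀ x, 0 ≤ x → μ (Set.Ioi x) = ENNReal.ofReal (Real.exp (-(x ^ a))))
    (hν : ν (Set.Iio 0) = 0) (hνi : Integrable (fun t : ℝ => t) ν)
    (hgt : (∫ t, t ∂ν) < ∫ s, s ∂μ) (hlt : (∫ s, s ∂μ) < 2 * ∫ t, t ∂ν)
    (hπ : IsStationaryKW μ ν π) : Integrable (fun w : ℝ × ℝ => w.2) π := by
  set E := ∫ s, s ∂μ with hE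
  set m := ∫ t, t ∂ν with hmdef
  have hm : 0 < m := by linarith
  obtain ⟨b, hb1, hb2⟩ := exists_between (show (E - m) / m < 1 by rw [div_lt_one hm]; linarith)
  have hb0 : 0 < b := lt_trans (div_pos (by linarith) hm) hb1
  have hbm : E < (1 + b) * m := by
    rw [div_lt_iff₀ hm] at hb1
    linarith
  have h1 := apriori ha0 ha1 hμ hν hνi hgt hb0 hb2 hbm (lam' := 1 / 2) (by norm_num)
    (by norm_num) hπ
  have hprob : IsProbabilityMeasure π := hπ.1
  refine Integrable.mono' (h1.const_mul (((1 / a) / (1 / 2)) ^ (1 / a))) (by fun_prop) ?_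
  filter_upwards [hπ.ae_ordered] with w hw
  have hw2 : 0 ≤ w.2 := hw.1.trans hw.2
  rw [Real.norm_of_nonneg hw2]
  have h2 := rpow_le_exp (p := 1 / a) (c := 1 / 2) (u := w.2 ^ a) (by positivity) (by norm_num)
    (by positivity)
  have h3 : (w.2 ^ a) ^ (1 / a) = w.2 := by
    rw [← Real.rpow_mul hw2, mul_one_div_cancel ha0.ne', Real.rpow_one]
  rw [h3] at h2
  refine h2.trans ?_
  have h4 := rpow_le_J0 ha0 hb0 hw.1 hw2
  gcongr

/-- integrals of quadratic polynomials in `(s, t)` -/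
lemma integral_quad (ha0 : 0 < a)
    (hμ : ∀ x, 0 ≤ x → μ (Set.Ioi x) = ENNReal.ofReal (Real.exp (-(x ^ a))))
    (hνi : Integrable (fun t : ℝ => t) ν) (hνi2 : Integrable (fun t : ℝ => t ^ 2) ν)
    (A B C D F : ℝ) :
    Integrable (fun p : ℝ × ℝ => A + B * p.1 + C * p.2 + D * p.1 ^ 2 + F * p.2 ^ 2)
      (μ.prod ν) ∧
    ∫ p : ℝ × ℝ, (A + B * p.1 + C * p.2 + D * p.1 ^ 2 + F * p.2 ^ 2) ∂(μ.prod ν) =
      A + B * (∫ s, s ∂μ) + C * (∫ t, t ∂ν) + D * (∫ s, s ^ 2 ∂μ) + F * (∫ t, t ^ 2 ∂ν) := by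
  have i1 : Integrable (fun p : ℝ × ℝ => p.1) (μ.prod ν) := by
    have : Integrable (fun s : ℝ => s) μ := by
      simpa using weibull_integrable_pow ha0 hμ 1 (by norm_num)
    exact this.comp_fst ν
  have i2 : Integrable (fun p : ℝ × ℝ => p.2) (μ.prod ν) := hνi.comp_snd μ
  have i3 : Integrable (fun p : ℝ × ℝ => p.1 ^ 2) (μ.prod ν) :=
    (weibull_integrable_pow ha0 hμ 2 (by norm_num)).comp_fst ν
  have i4 : Integrable (fun p : ℝ × ℝ => p.2 ^ 2) (μ.prod ν) := hνi2.comp_snd μ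
  have e1 : ∫ p : ℝ × ℝ, p.1 ∂(μ.prod ν) = ∫ s, s ∂μ := by
    rw [integral_prod _ i1]; simp
  have e2 : ∫ p : ℝ × ℝ, p.2 ∂(μ.prod ν) = ∫ t, t ∂ν := by
    rw [integral_prod _ i2]; simp
  have e3 : ∫ p : ℝ × ℝ, p.1 ^ 2 ∂(μ.prod ν) = ∫ s, s ^ 2 ∂μ := by
    rw [integral_prod _ i3]; simp
  have e4 : ∫ p : ℝ × ℝ, p.2 ^ 2 ∂(μ.prod ν) = ∫ t, t ^ 2 ∂ν := by
    rw [integral_prod _ i4]; simp
  have j0 : Integrable (fun _ : ℝ × ℝ => A) (μ.prod ν) := integrable_const _
  have j1 : Integrable (fun p : ℝ × ℝ => B * p.1) (μ.prod ν) := i1.const_mul B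
  have j2 : Integrable (fun p : ℝ × ℝ => C * p.2) (μ.prod ν) := i2.const_mul C
  have j3 : Integrable (fun p : ℝ × ℝ => D * p.1 ^ 2) (μ.prod ν) := i3.const_mul D
  have j4 : Integrable (fun p : ℝ × ℝ => F * p.2 ^ 2) (μ.prod ν) := i4.const_mul F
  have k1 : Integrable (fun p : ℝ × ℝ => A + B * p.1) (μ.prod ν) := j0.add j1
  have k2 : Integrable (fun p : ℝ × ℝ => A + B * p.1 + C * p.2) (μ.prod ν) := k1.add j2
  have k3 : Integrable (fun p : ℝ × ℝ => A + B * p.1 + C * p.2 + D * p.1 ^ 2) (μ.prod ν) :=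
    k2.add j3
  refine ⟨k3.add j4, ?_⟩
  rw [integral_add k3 j4, integral_add k2 j3, integral_add k1 j2, integral_add j0 j1,
    integral_const_mul, integral_const_mul, integral_const_mul, integral_const_mul,
    e1, e2, e3, e4]
  simp

lemma measurable_psi (x L : ℝ) : Measurable (psi x L) := by
  unfold psi sqp
  fun_prop

lemma measurable_FL (c x L : ℝ) : Measurable (FL c x L) := by
  have := measurable_psi x L
  unfold FL
  fun_prop

/-- **Lower rate inequality.** -/
theorem lower_rate (ha0 : 0 < a) (ha1 : a < 1)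
    (hμ : ∀ x, 0 ≤ x → μ (Set.Ioi x) = ENNReal.ofReal (Real.exp (-(x ^ a))))
    (hν : ν (Set.Iio 0) = 0) (hνi : Integrable (fun t : ℝ => t) ν)
    (hνi2 : Integrable (fun t : ℝ => t ^ 2) ν)
    (hgt : (∫ t, t ∂ν) < ∫ s, s ∂μ) (hlt : (∫ s, s ∂μ) < 2 * ∫ t, t ∂ν)
    (hπ : IsStationaryKW μ ν π) {c x L τ : ℝ} (hc : 1 ≤ c) (hL : 0 < L) (hLx : L ≤ x)
    (hτ : 0 ≤ τ) (hcτ : (c - 1) * ((∫ s, s ∂μ) - ∫ t, t ∂ν) = 2 * (∫ t, t ∂ν) - (∫ s, s ∂μ) + τ)
    (hLτ : (c - 1) * (((∫ s, s ^ 2 ∂μ) + ∫ t, t ^ 2 ∂ν) / L) ≤ τ) :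
    (∫⁻ p, ENNReal.ofReal (p.1 - p.2 - thL c x L) ∂(μ.prod ν)) *
      π {w | FL c x L w ≤ thL c x L} ≤
      ENNReal.ofReal (2 * (∫ t, t ∂ν) - (∫ s, s ∂μ) + τ) * π {w | x - L < w.1} := by
  set E := ∫ s, s ∂μ with hE
  set m := ∫ t, t ∂ν with hmdef
  set E2 := ∫ s, s ^ 2 ∂μ with hE2
  set T2 := ∫ t, t ^ 2 ∂ν with hT2
  set θ := thL c x L with hθ
  have hprob : IsProbabilityMeasure π := hπ.1
  set B := ∫⁻ p : ℝ × ℝ, ENNReal.ofReal (p.1 - p.2 - θ) ∂(μ.prod ν) with hB
  have hFm := measurable_FL c x L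
  set S0 : Set (ℝ × ℝ) := {w | FL c x L w ≤ θ} with hS0
  set S1 : Set (ℝ × ℝ) := {w | x - L < w.1} with hS1
  have hS0m : MeasurableSet S0 := measurableSet_le hFm measurable_const
  have hS1m : MeasurableSet S1 := measurableSet_lt measurable_const measurable_fst
  have hx0 : 0 < x := hL.trans_le hLx
  have hspos : ∀ᵐ p ∂(μ.prod ν), 0 ≤ p.1 ∧ 0 ≤ p.2 := by
    have h1 : ∀ᵐ p ∂(μ.prod ν), 0 ≤ p.1 := by
      have := (Measure.quasiMeasurePreserving_fst (μ := μ) (ν := ν)).ae
        ((weibull_ae_pos ha0 hμ).mono fun s hs => hs.le)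
      exact this
    have h2 : ∀ᵐ p ∂(μ.prod ν), 0 ≤ p.2 := by
      have := (Measure.quasiMeasurePreserving_snd (μ := μ) (ν := ν)).ae (ae_nonneg_of_Iio hν)
      exact this
    filter_upwards [h1, h2] with p hp1 hp2 using ⟨hp1, hp2⟩
  have key := hπ.rate_lower (f := fun w => ENNReal.ofReal (FL c x L w - θ))
    (g := S1.indicator fun _ => ENNReal.ofReal (2 * m - E + τ))
    (k := S0.indicator fun _ => B) (by fun_prop) (measurable_const.indicator hS1m)
    (measurable_const.indicator hS0m) ?_ ?_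
  · rw [lintegral_indicator hS0m, lintegral_indicator hS1m, setLIntegral_const,
      setLIntegral_const] at key
    exact key
  · -- finiteness
    have hsnd := integrable_snd ha0 ha1 hμ hν hνi hgt hlt hπ
    apply ne_of_lt
    calc ∫⁻ w, ENNReal.ofReal (FL c x L w - θ) ∂π ≤ ∫⁻ w, ENNReal.ofReal (2 * w.2) ∂π := by
          apply lintegral_mono_ae
          filter_upwards [hπ.ae_ordered] with w hw
          apply ENNReal.ofReal_le_ofReal
          rw [hθ]
          unfold FL thL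
          have h1 := psi_le (x := x) (y := w.1) hL
          have h2 : (c - 1) * psi x L w.1 ≤ (c - 1) * (x - L / 2) := by
            apply mul_le_mul_of_nonneg_left h1; linarith
          have := hw.2
          linarith
      _ < ∞ := by
          have h3 := (hsnd.const_mul 2)
          have h4 : 0 ≤ᵐ[π] fun w : ℝ × ℝ => 2 * w.2 := by
            filter_upwards [hπ.ae_ordered] with w hw
            have : 0 ≤ w.2 := hw.1.trans hw.2
            simp only [Pi.zero_apply]
            positivity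
          rw [← ofReal_integral_eq_lintegral_ofReal h3 h4]
          exact ENNReal.ofReal_lt_top
  · intro w hw1 hw12
    by_cases hF : FL c x L w ≤ θ
    · -- potential zero
      have e1 : ENNReal.ofReal (FL c x L w - θ) = 0 := ENNReal.ofReal_of_nonpos (by linarith)
      rw [e1, zero_add, Set.indicator_of_mem (by exact hF)]
      refine le_trans ?_ le_self_add
      apply lintegral_mono
      intro p
      apply ENNReal.ofReal_le_ofReal
      have := FL_ge (w := w) (s := p.1) (t := p.2) hc hL hLx hw1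
      linarith
    · push Not at hF
      rw [Set.indicator_of_notMem (by simpa [hS0] using hF), add_zero]
      have hw2 : x < w.2 := FL_pos_imp hc hL hw12 hF
      set d := dpsi x L w.1 with hd
      have hd0 : 0 ≤ d := dpsi_nonneg hL _
      have hd1 : d ≤ 1 := dpsi_le_one hL _
      set ℓ : ℝ × ℝ → ℝ := fun p => (FL c x L w - θ) + (1 + (c - 1) * d) * p.1 +
        (-(2 + (c - 1) * d)) * p.2 + (-((c - 1) / L)) * p.1 ^ 2 + (-((c - 1) / L)) * p.2 ^ 2
        with hℓ
      have hint : ∫ p, ℓ p ∂(μ.prod ν) = (FL c x L w - θ) + (1 + (c - 1) * d) * E +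
          (-(2 + (c - 1) * d)) * m + (-((c - 1) / L)) * E2 + (-((c - 1) / L)) * T2 :=
        (integral_quad ha0 hμ hνi hνi2 _ _ _ _ _).2
      have hle : ∀ᵐ p ∂(μ.prod ν), ℓ p ≤ FL c x L (kwStep w p.1 p.2) - θ := by
        filter_upwards [hspos] with p hp
        have := FL_step (x := x) (L := L) hc hL hw12 hw2.le hp.1 hp.2
        rw [hℓ]
        simp only
        rw [← hd] at this
        have e5 : (c - 1) * (d * (p.1 - p.2) - (p.1 ^ 2 + p.2 ^ 2) / L) =
            (c - 1) * d * p.1 - (c - 1) * d * p.2 - (c - 1) / L * p.1 ^ 2 -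
              (c - 1) / L * p.2 ^ 2 := by
          ring
        rw [e5] at this
        linarith
      have hval : FL c x L w - θ - (if x - L < w.1 then 2 * m - E + τ else 0) ≤
          ∫ p, ℓ p ∂(μ.prod ν) := by
        rw [hint]
        have h5 : (c - 1) / L * E2 + (c - 1) / L * T2 ≤ τ := by
          have : (c - 1) * ((E2 + T2) / L) = (c - 1) / L * E2 + (c - 1) / L * T2 := by ring
          linarith
        have h6 : (1 + (c - 1) * d) * E + (-(2 + (c - 1) * d)) * m =
            -(2 * m - E) + (2 * m - E + τ) * d := by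
          have : (1 + (c - 1) * d) * E + (-(2 + (c - 1) * d)) * m =
            -(2 * m - E) + ((c - 1) * (E - m)) * d := by ring
          rw [this, hcτ]
        split_ifs with hwx
        · have h7 : 0 ≤ (2 * m - E + τ) * d := by
            apply mul_nonneg _ hd0; linarith
          linarith
        · have h8 : d = 1 := dpsi_of_le hL (by linarith)
          rw [h8] at h6 ⊢
          linarith
      have hstep : ENNReal.ofReal (∫ p, ℓ p ∂(μ.prod ν)) ≤
          ∫⁻ p, ENNReal.ofReal (FL c x L (kwStep w p.1 p.2) - θ) ∂(μ.prod ν) := by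
        refine (ofReal_integral_le_lintegral ℓ).trans ?_
        apply lintegral_mono_ae
        filter_upwards [hle] with p hp
        exact ENNReal.ofReal_le_ofReal hp
      by_cases hwx : x - L < w.1
      · rw [Set.indicator_of_mem (by exact hwx)]
        rw [if_pos hwx] at hval
        calc ENNReal.ofReal (FL c x L w - θ)
            ≤ ENNReal.ofReal ((∫ p, ℓ p ∂(μ.prod ν)) + (2 * m - E + τ)) := by
              apply ENNReal.ofReal_le_ofReal; linarith
          _ ≤ ENNReal.ofReal (∫ p, ℓ p ∂(μ.prod ν)) + ENNReal.ofReal (2 * m - E + τ) :=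
              ENNReal.ofReal_add_le
          _ ≤ _ := by gcongr
      · rw [if_neg hwx] at hval
        refine le_trans ?_ le_self_add
        refine le_trans (ENNReal.ofReal_le_ofReal ?_) hstep
        linarith

end Pool.Agent.Lib.MP_04add8_pr
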