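import Mathlib
import Pool.Agent.Lib.MP_04add8_pr.Exact.UpperPot
import Pool.Agent.Lib.MP_04add8_pr.Exact.LowerInt

/-! The exact upper bound, rate inequality. -/

open MeasureTheory ProbabilityTheory Filter Topology
open scoped ENNReal

set_option linter.unusedSectionVars false

namespace Pool.Agent.Lib.MP_04add8_pr

variable {a : ℝ} {μ ν : Measure ℝ} [IsProbabilityMeasure μ] [IsProbabilityMeasure ν]
  {π : Measure (ℝ × ℝ)}

lemma ae_prod_nonneg (ha0 : 0 < a)
    (hμ : ∀ x, 0 ≤ x → μ (Set.Ioi x) = ENNReal.ofReal (Real.exp (-(x ^ a))))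
    (hν : ν (Set.Iio 0) = 0) : ∀ᵐ p ∂(μ.prod ν), 0 ≤ p.1 ∧ 0 ≤ p.2 := by
  have h1 : ∀ᵐ p ∂(μ.prod ν), 0 ≤ p.1 := by
    have := (Measure.quasiMeasurePreserving_fst (μ := μ) (ν := ν)).ae
      ((weibull_ae_pos ha0 hμ).mono fun s hs => hs.le)
    exact this
  have h2 : ∀ᵐ p ∂(μ.prod ν), 0 ≤ p.2 := by
    have := (Measure.quasiMeasurePreserving_snd (μ := μ) (ν := ν)).ae (ae_nonneg_of_Iio hν)
    exact this
  filter_upwards [h1, h2] with p hp1 hp2 using ⟨hp1, hp2⟩

lemma integrable_sq_exp (ha0 : 0 < a)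
    (hμ : ∀ x, 0 ≤ x → μ (Set.Ioi x) = ENNReal.ofReal (Real.exp (-(x ^ a)))) :
    Integrable (fun s : ℝ => s ^ 2 * Real.exp (s ^ a / 2)) μ := by
  refine Integrable.mono' ((weibull_integrable_exp ha0 hμ (c := 3 / 4) (by norm_num)
    (by norm_num)).const_mul (((2 / a) / (1 / 4)) ^ (2 / a))) (by fun_prop) ?_
  filter_upwards [weibull_ae_pos ha0 hμ] with s hs
  rw [Real.norm_of_nonneg (by positivity)]
  have h1 := rpow_le_exp (p := 2 / a) (c := 1 / 4) (u := s ^ a) (by positivity) (by norm_num)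
    (by positivity)
  have h2 : (s ^ a) ^ (2 / a) = s ^ 2 := by
    rw [← Real.rpow_mul hs.le, mul_div_cancel₀ _ ha0.ne']
    norm_num
  rw [h2] at h1
  calc s ^ 2 * Real.exp (s ^ a / 2)
      ≤ ((2 / a) / (1 / 4)) ^ (2 / a) * Real.exp (1 / 4 * s ^ a) * Real.exp (s ^ a / 2) := by
        gcongr
    _ = _ := by rw [mul_assoc, ← Real.exp_add]; congr 2; ring

lemma measurable_gt (k : ℝ) : Measurable (gt k) := by
  unfold gt
  apply Measurable.ite (measurableSet_le measurable_const measurable_id)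
  · fun_prop
  · fun_prop

lemma measurable_YU (c R x : ℝ) : Measurable (YU c R x) := by
  unfold YU ph f1 f2
  fun_prop

lemma gt_le {k Y : ℝ} (hk : 0 < k) : gt k Y ≤ 1 / k + max Y 0 := by
  unfold gt
  split_ifs with h
  · rw [max_eq_left h]; linarith
  · have h1 : Real.exp (k * Y) ≤ 1 := by
      rw [Real.exp_le_one_iff]
      push Not at h
      exact mul_nonpos_of_nonneg_of_nonpos hk.le h.le
    have h2 : Real.exp (k * Y) / k ≤ 1 / k := by gcongr
    have h3 : 0 ≤ max Y 0 := le_max_right _ _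
    linarith

/-- crude bound for `YU` -/
lemma YU_le {c R x : ℝ} (hc : 1 ≤ c) (hR : 0 < R) {w : ℝ × ℝ} (hw1 : 0 ≤ w.1)
    (h12 : w.1 ≤ w.2) (hx : 0 ≤ x) : YU c R x w ≤ (1 + c) * w.2 := by
  unfold YU
  have h1 : ph c R x w.1 ≤ c * √(w.1 ^ 2 + R ^ 2) := min_le_left _ _
  have h2 : √(w.1 ^ 2 + R ^ 2) ≤ w.1 + R := sqrt_le_add hw1 hR.le
  have h3 : R ≤ √(x ^ 2 + R ^ 2) := by
    apply Real.le_sqrt_of_sq_le; nlinarith [sq_nonneg x]
  have h4 : c * √(w.1 ^ 2 + R ^ 2) ≤ c * (w.1 + R) := by gcongr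
  have h5 : c * R ≤ c * √(x ^ 2 + R ^ 2) := by gcongr
  nlinarith

/-- **Upper rate inequality.** -/
theorem upper_rate (ha0 : 0 < a) (ha1 : a < 1)
    (hμ : ∀ x, 0 ≤ x → μ (Set.Ioi x) = ENNReal.ofReal (Real.exp (-(x ^ a))))
    (hν : ν (Set.Iio 0) = 0) (hνi : Integrable (fun t : ℝ => t) ν)
    (hνi2 : Integrable (fun t : ℝ => t ^ 2) ν)
    (hgt : (∫ t, t ∂ν) < ∫ s, s ∂μ) (hlt : (∫ s, s ∂μ) < 2 * ∫ t, t ∂ν)
    (hπ : IsStationaryKW μ ν π) {c x R k r M v0 τ : ℝ} (hc : 1 ≤ c) (hR : 0 < R) (hk : 0 < k)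
    (hr : 0 ≤ r) (hM : 0 < M) (hMx : M ≤ x) (hv0 : 0 ≤ v0) (hRv : 2 * R ≤ (c - 1) * v0)
    (hRx : 2 * R ≤ (c - 1) * x)
    (hreg : ∀ w : ℝ × ℝ, 0 ≤ w.1 → w.1 ≤ w.2 → -r ≤ YU c R x w → v0 + M ≤ w.2)
    (hQ : ∀ s : ℝ, 0 ≤ s → k * min (c * s) r ≤ s ^ a / 2)
    (hcm : c * ((∫ s, s ∂μ) - ∫ t, t ∂ν) = (∫ t, t ∂ν) - τ)
    (herr : (1 + c) * ((∫ t, t ^ 2 ∂ν) / M) +
      c * ((∫ s, s ^ 2 ∂μ) + ∫ t, t ^ 2 ∂ν) / (2 * R) +
      k * (c ^ 2 * (∫ s, s ^ 2 * Real.exp (s ^ a / 2) ∂μ) + (1 + c) ^ 2 * ∫ t, t ^ 2 ∂ν) ≤ τ)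
    (hκ1 : 0 ≤ 2 * (∫ t, t ∂ν) - (∫ s, s ∂μ) - τ)
    (hκk : 2 * (∫ t, t ∂ν) - (∫ s, s ∂μ) - τ ≤ 1 / k) :
    ENNReal.ofReal (2 * (∫ t, t ∂ν) - (∫ s, s ∂μ) - τ) * π {w | x < w.1} ≤
      ENNReal.ofReal (Real.exp (-(k * r)) / k) * π {w | -r ≤ YU c R x w} +
      ∫⁻ w in {w | YU c R x w < -r},
        ∫⁻ p, ENNReal.ofReal (gt k (YU c R x (kwStep w p.1 p.2)) - gt k (-r)) ∂(μ.prod ν) ∂π := by
  set E := ∫ s, s ∂μ with hE
  set m := ∫ t, t ∂ν with hmdef
  set E2 := ∫ s, s ^ 2 ∂μ with hE2
  set T2 := ∫ t, t ^ 2 ∂ν with hT2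
  set Q1 := ∫ s, s ^ 2 * Real.exp (s ^ a / 2) ∂μ with hQ1
  set κ := 2 * m - E - τ with hκ
  have hprob : IsProbabilityMeasure π := hπ.1
  have hx0 : 0 < x := hM.trans_le hMx
  have hspos := ae_prod_nonneg (ν := ν) ha0 hμ hν
  have hgm := measurable_gt k
  have hYm := measurable_YU c R x
  have hstepm := measurable_kwStep
  have hE20 : 0 ≤ E2 := integral_nonneg fun t => by positivity
  have hT20 : 0 ≤ T2 := integral_nonneg fun t => by positivity
  have hQ10 : 0 ≤ Q1 := integral_nonneg fun t => by positivity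
  have hτ0 : 0 ≤ τ := by
    refine le_trans ?_ herr
    positivity
  have hg0 : gt k (-r) = Real.exp (-(k * r)) / k := by
    unfold gt
    split_ifs with h
    · have : r = 0 := by linarith
      rw [this]; simp
    · congr 2; ring
  set f : ℝ × ℝ → ℝ≥0∞ := fun w => ENNReal.ofReal (gt k (YU c R x w) - gt k (-r)) with hf
  have hfm : Measurable f := by rw [hf]; fun_prop
  set U : ℝ × ℝ → ℝ≥0∞ := fun w => ∫⁻ p, f (kwStep w p.1 p.2) ∂(μ.prod ν) with hU
  have hUm : Measurable U := by
    rw [hU]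
    exact Measurable.lintegral_prod_right' (f := fun q : (ℝ × ℝ) × (ℝ × ℝ) =>
      f (kwStep q.1 q.2.1 q.2.2)) (hfm.comp hstepm)
  set S0 : Set (ℝ × ℝ) := {w | -r ≤ YU c R x w} with hS0
  set S1 : Set (ℝ × ℝ) := {w | YU c R x w < -r} with hS1
  set S2 : Set (ℝ × ℝ) := {w | x < w.1} with hS2
  have hS0m : MeasurableSet S0 := measurableSet_le measurable_const hYm
  have hS1m : MeasurableSet S1 := measurableSet_lt hYm measurable_const
  have hS2m : MeasurableSet S2 := measurableSet_lt measurable_const measurable_fst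
  have key := hπ.rate_upper (f := f) (g := S2.indicator fun _ => ENNReal.ofReal κ)
    (k := fun w => S0.indicator (fun _ => ENNReal.ofReal (gt k (-r))) w + S1.indicator U w)
    hfm (measurable_const.indicator hS2m)
    ((measurable_const.indicator hS0m).add (hUm.indicator hS1m)) ?_ ?_
  · rw [lintegral_indicator hS2m, setLIntegral_const,
      lintegral_add_left (measurable_const.indicator hS0m), lintegral_indicator hS0m,
      setLIntegral_const, lintegral_indicator hS1m] at key
    rw [← hg0]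
    exact key
  · -- finiteness
    have hsnd := integrable_snd ha0 ha1 hμ hν hνi hgt hlt hπ
    apply ne_of_lt
    calc ∫⁻ w, f w ∂π ≤ ∫⁻ w, ENNReal.ofReal (1 / k + (1 + c) * w.2) ∂π := by
          apply lintegral_mono_ae
          filter_upwards [hπ.ae_ordered] with w hw
          apply ENNReal.ofReal_le_ofReal
          have h1 := gt_le (Y := YU c R x w) hk
          have h2 := YU_le hc hR hw.1 hw.2 hx0.le
          have h3 := gt_pos hk (-r)
          have h4 : max (YU c R x w) 0 ≤ (1 + c) * w.2 := by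
            apply max_le h2
            have : 0 ≤ w.2 := hw.1.trans hw.2
            positivity
          linarith
      _ < ∞ := by
          have h3 : Integrable (fun w : ℝ × ℝ => 1 / k + (1 + c) * w.2) π :=
            (integrable_const _).add (hsnd.const_mul (1 + c))
          have h4 : 0 ≤ᵐ[π] fun w : ℝ × ℝ => 1 / k + (1 + c) * w.2 := by
            filter_upwards [hπ.ae_ordered] with w hw
            have : 0 ≤ w.2 := hw.1.trans hw.2
            simp only [Pi.zero_apply]
            positivity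
          rw [← ofReal_integral_eq_lintegral_ofReal h3 h4]
          exact ENNReal.ofReal_lt_top
  · intro w hw1 hw12
    by_cases hY : -r ≤ YU c R x w
    · -- near or inside the target
      have hnS1 : w ∉ S1 := by
        change ¬ (YU c R x w < -r)
        linarith
      rw [Set.indicator_of_mem (show w ∈ S0 from hY), Set.indicator_of_notMem hnS1, add_zero]
      have hw2 := hreg w hw1 hw12 hY
      set Y := YU c R x w with hYdef
      have hgY : gt k (-r) ≤ gt k Y := gt_mono hk hY
      have hd0 := dg_nonneg k Y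
      have hd1 := dg_le_one k Y
      have hgr := gt_pos hk (-r)
      have hsum : ENNReal.ofReal (gt k Y) ≤ f w + ENNReal.ofReal (gt k (-r)) := by
        rw [hf]
        simp only
        rw [← hYdef, ← ENNReal.ofReal_add (by linarith) hgr.le]
        apply ENNReal.ofReal_le_ofReal
        linarith
      refine le_trans ?_ hsum
      have hiQ : Integrable (fun p : ℝ × ℝ => p.1 ^ 2 * Real.exp (p.1 ^ a / 2)) (μ.prod ν) :=
        (integrable_sq_exp ha0 hμ).comp_fst ν
      have heQ : ∫ p : ℝ × ℝ, p.1 ^ 2 * Real.exp (p.1 ^ a / 2) ∂(μ.prod ν) = Q1 := by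
        rw [integral_prod _ hiQ]; simp [hQ1]
      -- generic estimate
      have gen : ∀ A B C D F : ℝ, 0 ≤ D → 0 ≤ F →
          (∀ s t : ℝ, 0 ≤ s → 0 ≤ t → YU c R x (kwStep w s t) ≤
            Y + (B * s + C * t + D * s ^ 2 + F * t ^ 2)) →
          (∀ s t : ℝ, 0 ≤ s → 0 ≤ t → -((1 + c) * t) ≤ B * s + C * t + D * s ^ 2 + F * t ^ 2) →
          A = B * E + C * m + D * E2 + F * T2 + k * (c ^ 2 * Q1 + (1 + c) ^ 2 * T2) →
          ∫⁻ p, f (kwStep w p.1 p.2) ∂(μ.prod ν) ≤ ENNReal.ofReal (gt k Y + dg k Y * A) := by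
        intro A B C D F hD hF hZ hN hA
        set ℓ : ℝ × ℝ → ℝ := fun p => gt k Y + dg k Y *
          ((0 + B * p.1 + C * p.2 + D * p.1 ^ 2 + (F + k * (1 + c) ^ 2) * p.2 ^ 2) +
            k * c ^ 2 * (p.1 ^ 2 * Real.exp (p.1 ^ a / 2))) with hℓ
        obtain ⟨hi1, he1⟩ := integral_quad (ν := ν) ha0 hμ hνi hνi2 0 B C D (F + k * (1 + c) ^ 2)
        have hi2 : Integrable (fun p : ℝ × ℝ =>
            k * c ^ 2 * (p.1 ^ 2 * Real.exp (p.1 ^ a / 2))) (μ.prod ν) := hiQ.const_mul _
        have hi3 : Integrable (fun p : ℝ × ℝ =>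
          ((0 + B * p.1 + C * p.2 + D * p.1 ^ 2 + (F + k * (1 + c) ^ 2) * p.2 ^ 2) +
            k * c ^ 2 * (p.1 ^ 2 * Real.exp (p.1 ^ a / 2)))) (μ.prod ν) := hi1.add hi2
        have hi4 : Integrable (fun p : ℝ × ℝ => dg k Y *
          ((0 + B * p.1 + C * p.2 + D * p.1 ^ 2 + (F + k * (1 + c) ^ 2) * p.2 ^ 2) +
            k * c ^ 2 * (p.1 ^ 2 * Real.exp (p.1 ^ a / 2)))) (μ.prod ν) := hi3.const_mul _
        have hiℓ : Integrable ℓ (μ.prod ν) := (integrable_const _).add hi4
        have hval : ∫ p, ℓ p ∂(μ.prod ν) = gt k Y + dg k Y * A := by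
          rw [hℓ, integral_add (integrable_const _) hi4, integral_const_mul,
            integral_add hi1 hi2, he1, integral_const_mul, heQ, hA]
          simp only [integral_const, probReal_univ, smul_eq_mul, one_mul]
          ring
        have hle : ∀ᵐ p ∂(μ.prod ν), gt k (YU c R x (kwStep w p.1 p.2)) ≤ ℓ p := by
          filter_upwards [hspos] with p hp
          have h1 := hZ p.1 p.2 hp.1 hp.2
          have h2 := YU_step_lip (x := x) hc hR hw1 hv0 hRv (by linarith : v0 ≤ w.2) hp.1 hp.2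
          rw [← hYdef] at h2
          have h3 := hN p.1 p.2 hp.1 hp.2
          have h4 := gt_step (k := k) (Y := Y) (D := YU c R x (kwStep w p.1 p.2) - Y)
            (Z := B * p.1 + C * p.2 + D * p.1 ^ 2 + F * p.2 ^ 2) (P := c * p.1)
            (N := (1 + c) * p.2) (r := r) hk hr hY (by linarith) (by linarith)
            (by have := hp.1; positivity) h3
          have e1 : Y + (YU c R x (kwStep w p.1 p.2) - Y) = YU c R x (kwStep w p.1 p.2) := by ring
          rw [e1] at h4
          refine h4.trans ?_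
          rw [hℓ]
          simp only
          have h5 : Real.exp (k * min (c * p.1) r) ≤ Real.exp (p.1 ^ a / 2) :=
            Real.exp_le_exp.mpr (hQ p.1 hp.1)
          have h6 : (c * p.1) ^ 2 * Real.exp (k * min (c * p.1) r) ≤
              (c * p.1) ^ 2 * Real.exp (p.1 ^ a / 2) := by gcongr
          have h7 : k * ((c * p.1) ^ 2 * Real.exp (k * min (c * p.1) r) + ((1 + c) * p.2) ^ 2) ≤
              k * ((c * p.1) ^ 2 * Real.exp (p.1 ^ a / 2) + ((1 + c) * p.2) ^ 2) := by gcongr
          have h8 : B * p.1 + C * p.2 + D * p.1 ^ 2 + F * p.2 ^ 2 +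
              k * ((c * p.1) ^ 2 * Real.exp (k * min (c * p.1) r) + ((1 + c) * p.2) ^ 2) ≤
              (0 + B * p.1 + C * p.2 + D * p.1 ^ 2 + (F + k * (1 + c) ^ 2) * p.2 ^ 2) +
              k * c ^ 2 * (p.1 ^ 2 * Real.exp (p.1 ^ a / 2)) := by
            have e2 : (0 + B * p.1 + C * p.2 + D * p.1 ^ 2 + (F + k * (1 + c) ^ 2) * p.2 ^ 2) +
              k * c ^ 2 * (p.1 ^ 2 * Real.exp (p.1 ^ a / 2)) =
              B * p.1 + C * p.2 + D * p.1 ^ 2 + F * p.2 ^ 2 +
              k * ((c * p.1) ^ 2 * Real.exp (p.1 ^ a / 2) + ((1 + c) * p.2) ^ 2) := by ring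
            rw [e2]; linarith
          have h9 := mul_le_mul_of_nonneg_left h8 hd0
          linarith
        calc ∫⁻ p, f (kwStep w p.1 p.2) ∂(μ.prod ν)
            ≤ ∫⁻ p, ENNReal.ofReal (ℓ p) ∂(μ.prod ν) := by
              apply lintegral_mono_ae
              filter_upwards [hle] with p hp
              apply ENNReal.ofReal_le_ofReal
              linarith
          _ = ENNReal.ofReal (∫ p, ℓ p ∂(μ.prod ν)) := by
              rw [ofReal_integral_eq_lintegral_ofReal hiℓ]
              filter_upwards [hle] with p hp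
              exact (gt_pos hk _).le.trans hp
          _ = _ := by rw [hval]
      rcases le_or_gt w.1 x with hwx | hwx
      · -- below level x
        have hnS2 : w ∉ S2 := by
          change ¬ (x < w.1)
          linarith
        rw [Set.indicator_of_notMem hnS2, add_zero]
        set q := w.1 / √(w.1 ^ 2 + R ^ 2) with hq
        have hp0 : 0 < √(w.1 ^ 2 + R ^ 2) := Real.sqrt_pos.mpr (by positivity)
        have hq0 : 0 ≤ q := by positivity
        have hq1 : q ≤ 1 := by rw [hq, div_le_one hp0]; exact le_sqrt_add _ _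
        have hmain := gen _ (c * q) (-(1 + c * q)) (c / (2 * R)) ((1 + c) / M + c / (2 * R))
          (by positivity) (by positivity) ?_ ?_ rfl
        · refine hmain.trans (ENNReal.ofReal_le_ofReal ?_)
          have hneg : c * q * E + -(1 + c * q) * m + c / (2 * R) * E2 +
              ((1 + c) / M + c / (2 * R)) * T2 + k * (c ^ 2 * Q1 + (1 + c) ^ 2 * T2) ≤ 0 := by
            have h1 : c * q * E + -(1 + c * q) * m = -m + q * (c * (E - m)) := by ring
            have h2 : c / (2 * R) * E2 + ((1 + c) / M + c / (2 * R)) * T2 =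
                (1 + c) * (T2 / M) + c * (E2 + T2) / (2 * R) := by ring
            have h3 : q * (c * (E - m)) ≤ 1 * (c * (E - m)) := by
              have : 0 ≤ c * (E - m) := by
                apply mul_nonneg (by linarith); linarith
              gcongr
            rw [hcm] at h3 h1
            linarith
          have := mul_nonpos_of_nonneg_of_nonpos hd0 hneg
          linarith
        · intro s t hs ht
          have h1 := YU_step_low (x := x) hc hR hM hw1 hwx hRx hv0 hRv hw2 hs ht
          rw [← hYdef, ← hq] at h1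
          refine h1.trans (le_of_eq ?_)
          ring
        · intro s t hs ht
          have h1 : 0 ≤ c * q * s := by positivity
          have h2 : 0 ≤ c / (2 * R) * s ^ 2 := by positivity
          have h3 : 0 ≤ ((1 + c) / M + c / (2 * R)) * t ^ 2 := by positivity
          have h4 : (1 + c * q) * t ≤ (1 + c) * t := by
            have : c * q ≤ c * 1 := by gcongr
            gcongr; linarith
          linarith
      · -- above level x
        rw [Set.indicator_of_mem (show w ∈ S2 from hwx)]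
        have hYpos : 0 < Y := YU_pos_of_ge hc hR hx0.le hwx hw12 hRx
        have hd : dg k Y = 1 := dg_of_nonneg hk hYpos.le
        have hmain := gen _ 1 (-2) 0 (2 / M) le_rfl (by positivity) ?_ ?_ rfl
        · have hgtY : κ ≤ gt k Y := by
            have h1 : gt k Y = Y + 1 / k := by unfold gt; rw [if_pos hYpos.le]
            rw [h1]; linarith
          rw [hd, one_mul] at hmain
          calc ∫⁻ p, f (kwStep w p.1 p.2) ∂(μ.prod ν) + ENNReal.ofReal κ
              ≤ ENNReal.ofReal (gt k Y - κ) + ENNReal.ofReal κ := by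
                gcongr
                refine hmain.trans (ENNReal.ofReal_le_ofReal ?_)
                have h2 : (2 : ℝ) / M * T2 ≤ (1 + c) * (T2 / M) := by
                  have : 2 / M * T2 = 2 * (T2 / M) := by ring
                  rw [this]
                  have : 0 ≤ T2 / M := by positivity
                  gcongr; linarith
                have h3 : 0 ≤ c * (E2 + T2) / (2 * R) := by positivity
                rw [hκ]
                linarith
            _ = ENNReal.ofReal (gt k Y) := by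
                rw [← ENNReal.ofReal_add (by linarith) hκ1]
                congr 1; ring
        · intro s t hs ht
          have h1 := YU_step_high (x := x) hc hR hM hx0.le hwx.le hMx hRx hv0 hRv hw2 hs ht
          rw [← hYdef] at h1
          refine h1.trans (le_of_eq ?_)
          ring
        · intro s t hs ht
          have h3 : 0 ≤ 2 / M * t ^ 2 := by positivity
          nlinarith
    · -- far from the target
      push Not at hY
      have hnS0 : w ∉ S0 := by
        change ¬ (-r ≤ YU c R x w)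
        linarith
      have hnS2 : w ∉ S2 := by
        intro hw
        have := YU_pos_of_ge (R := R) hc hR hx0.le hw hw12 hRx
        linarith
      have e1 : S1.indicator U w = U w := Set.indicator_of_mem (show w ∈ S1 from hY) _
      rw [Set.indicator_of_notMem hnS0, e1, Set.indicator_of_notMem hnS2]
      simp only [add_zero, zero_add]
      exact le_add_self

end Pool.Agent.Lib.MP_04add8_pr
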