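import Mathlib
import Pool.Agent.Lib.MP_04add8_pr.Exact.UpperInt
import Pool.Agent.Lib.MP_04add8_pr.Exact.Strict

/-! The exact upper bound: the contribution of the region far from the target. -/

open MeasureTheory ProbabilityTheory Filter Topology
open scoped ENNReal

set_option linter.unusedSectionVars false

namespace Pool.Agent.Lib.MP_04add8_pr

/-- the size a single job must have to reach the target from `w` -/
noncomputable def zf (c R x : ℝ) (w : ℝ × ℝ) : ℝ :=
  x + c * √(x ^ 2 + R ^ 2) - w.1 - c * w.2 - c * R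

lemma YU_step_zf {c R x : ℝ} (hc : 1 ≤ c) (hR : 0 < R) {w : ℝ × ℝ} (hw1 : 0 ≤ w.1)
    (h12 : w.1 ≤ w.2) {s t : ℝ} (hs : 0 ≤ s) (ht : 0 ≤ t) :
    YU c R x (kwStep w s t) ≤ s - zf c R x w := by
  unfold YU zf
  rw [kwStep_eq]
  simp only
  set u := max (w.1 + s - t) 0 with hu
  set v := max (w.2 - t) 0 with hv
  have hu0 : 0 ≤ u := le_max_right _ _
  have hv0 : 0 ≤ v := le_max_right _ _
  have hu1 : u ≤ w.1 + s := max_le (by linarith) (by linarith)
  have hv1 : v ≤ w.2 := max_le (by linarith) (by linarith)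
  have h1 : ph c R x (min u v) ≤ c * (min u v + R) := by
    refine (min_le_left _ _).trans ?_
    unfold f1
    have := sqrt_le_add (y := min u v) (R := R) (le_min hu0 hv0) hR.le
    gcongr
  have h2 : max u v + c * min u v ≤ w.1 + s + c * w.2 := by
    rcases le_total u v with h | h
    · rw [max_eq_right h, min_eq_left h]
      nlinarith
    · rw [max_eq_left h, min_eq_right h]
      nlinarith
  linarith

lemma far_pointwise {a b' : ℝ} (ha0 : 0 < a) (ha1 : a < 1) (hb' : 0 < b') (hb1' : b' < 1)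
    {c R x k r A0 d lam V : ℝ} (hc : 1 ≤ c) (hR : 0 < R) (hk : 0 < k) (hx : 0 < x)
    (hd : 0 < d) (hRd : 2 * R ≤ (c - 1) * d) (hdr : d ≤ r / (2 * c))
    (hdA : d ≤ A0 / (1 + 1 / b'))
    (hA : ∀ w' : ℝ × ℝ, 0 ≤ w'.1 → w'.1 ≤ w'.2 → -r ≤ YU c R x w' → A0 ≤ w'.2 + w'.1 / b')
    (hl : 0 ≤ lam)
    (hV : V ≤ lam * min (A0 ^ a + (1 - a) * d ^ a)
      (min (2 * (A0 / (1 + 1 / b')) ^ a) (d ^ a + (A0 - d / b') ^ a)))
    {w : ℝ × ℝ} (hw1 : 0 ≤ w.1) (h12 : w.1 ≤ w.2) (hY : YU c R x w < -r) {s t : ℝ}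
    (hs : 0 ≤ s) (ht : 0 ≤ t) :
    ENNReal.ofReal (gt k (YU c R x (kwStep w s t)) - gt k (-r)) ≤
      (if w.2 ≤ d then ENNReal.ofReal (gt k (s - zf c R x w) - gt k (-r)) else 0) +
      (if -(2 * r) ≤ YU c R x w then ENNReal.ofReal (Real.exp (-(k * r / 2)) / k) else 0) +
      ENNReal.ofReal ((1 / k + (1 + c)) * Real.exp (-V)) *
        (ENNReal.ofReal ((1 + w.2) * Real.exp (lam * J0 a b' w)) *
          ENNReal.ofReal ((1 + s) * Real.exp (lam * s ^ a))) := by
  have hc0 : 0 < c := by linarith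
  have hw2 : 0 ≤ w.2 := hw1.trans h12
  rcases le_or_gt w.2 d with hwd | hwd
  · rw [if_pos hwd, add_assoc]
    refine le_trans ?_ le_self_add
    apply ENNReal.ofReal_le_ofReal
    have := gt_mono hk (YU_step_zf (x := x) hc hR hw1 h12 hs ht)
    linarith
  · rw [if_neg (by linarith : ¬ w.2 ≤ d), zero_add]
    rcases le_or_gt s (r / (2 * c)) with hsr | hsr
    · refine le_trans ?_ le_self_add
      have h1 := YU_step_lip (x := x) hc hR hw1 hd.le hRd hwd.le hs ht
      have h2 : c * s ≤ r / 2 := by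
        calc c * s ≤ c * (r / (2 * c)) := by gcongr
          _ = r / 2 := by field_simp
      rcases le_or_gt (-(2 * r)) (YU c R x w) with h3 | h3
      · rw [if_pos h3]
        apply ENNReal.ofReal_le_ofReal
        have h4 : gt k (YU c R x (kwStep w s t)) ≤ gt k (-(r / 2)) := gt_mono hk (by linarith)
        have h5 : gt k (-(r / 2)) = Real.exp (-(k * r / 2)) / k := by
          unfold gt
          split_ifs with h
          · have : r = 0 := by linarith
            rw [this]; simp
          · congr 2; ring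
        have h6 := gt_pos hk (-r)
        linarith
      · rw [if_neg (by linarith)]
        have h4 : gt k (YU c R x (kwStep w s t)) ≤ gt k (-r) := gt_mono hk (by linarith)
        rw [ENNReal.ofReal_of_nonpos (by linarith)]
    · refine le_trans ?_ le_add_self
      rcases le_or_gt (YU c R x (kwStep w s t)) (-r) with h1 | h1
      · have h4 : gt k (YU c R x (kwStep w s t)) ≤ gt k (-r) := gt_mono hk h1
        rw [ENNReal.ofReal_of_nonpos (by linarith)]
        exact zero_le
      · rw [← ENNReal.ofReal_mul (by positivity), ← ENNReal.ofReal_mul (by positivity)]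
        apply ENNReal.ofReal_le_ofReal
        set w' := kwStep w s t with hw'
        have hw'1 : 0 ≤ w'.1 := kwStep_fst_nonneg _ _ _
        have hw'12 : w'.1 ≤ w'.2 := kwStep_fst_le_snd _ _ _
        set p := min (w.1 + s) w.2 with hp
        set q := max (w.1 + s) w.2 with hq
        have hu1 : max (w.1 + s - t) 0 ≤ w.1 + s := max_le (by linarith) (by linarith)
        have hv1 : max (w.2 - t) 0 ≤ w.2 := max_le (by linarith) (by linarith)
        have hw'p : w'.1 ≤ p := by
          rw [hw', kwStep_eq, hp]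
          exact min_le_min hu1 hv1
        have hw'q : w'.2 ≤ q := by
          rw [hw', kwStep_eq, hq]
          exact max_le_max hu1 hv1
        have hpd : d ≤ p := by
          rw [hp]
          exact le_min (by linarith) hwd.le
        have hpq : p ≤ q := min_le_max
        have hA1 : A0 ≤ q + p / b' := by
          have h2 := hA w' hw'1 hw'12 h1.le
          have h3 : w'.1 / b' ≤ p / b' := by gcongr
          linarith
        have hA0 : 0 ≤ A0 := by
          have : 0 ≤ A0 / (1 + 1 / b') := hd.le.trans hdA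
          have h3 : 0 < 1 + 1 / b' := by positivity
          by_contra hcon
          push Not at hcon
          have := div_neg_of_neg_of_pos hcon h3
          linarith
        have hst := strict ha0 ha1 hb' hb1' hw1 (hd.trans hwd) hs
        have htj := two_jobs ha0 ha1 hb' hpq hA1 hd.le hpd hdA
        have hpqs : (w.1 + s) ^ a + w.2 ^ a = p ^ a + q ^ a := by
          rcases le_total (w.1 + s) w.2 with h | h
          · rw [hp, hq, min_eq_left h, max_eq_right h]
          · rw [hp, hq, min_eq_right h, max_eq_left h]; ring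
        have hds : d ≤ s := by linarith
        have h2 : min (A0 ^ a + (1 - a) * d ^ a)
            (min (2 * (A0 / (1 + 1 / b')) ^ a) (d ^ a + (A0 - d / b') ^ a)) ≤
            J0 a b' w + s ^ a := by
          refine le_trans ?_ hst
          apply min_le_min
          · have h3 : A0 ^ a ≤ (q + p / b') ^ a := by gcongr
            have h4 : (1 - a) * d ^ a ≤ (1 - a) * s ^ a := by
              apply mul_le_mul_of_nonneg_left _ (by linarith)
              gcongr
            linarith
          · rw [hpqs]; exact htj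
        have h3 : V ≤ lam * J0 a b' w + lam * s ^ a := by
          refine hV.trans ?_
          rw [← mul_add]
          gcongr
        have h4 : 1 ≤ Real.exp (-V) * (Real.exp (lam * J0 a b' w) * Real.exp (lam * s ^ a)) := by
          rw [← Real.exp_add, ← Real.exp_add]
          apply Real.one_le_exp
          linarith
        have h5 := gt_le (k := k) (Y := YU c R x w') hk
        have h6 := YU_le (x := x) hc hR hw'1 hw'12 hx.le
        have h7 : w'.2 ≤ w.2 + s := by
          refine hw'q.trans ?_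
          rw [hq]
          exact max_le (by linarith) (by linarith)
        have h8 : max (YU c R x w') 0 ≤ (1 + c) * (w.2 + s) := by
          apply max_le
          · refine h6.trans ?_
            gcongr
          · positivity
        have h9 := gt_pos hk (-r)
        have h10 : 1 / k + (1 + c) * (w.2 + s) ≤ (1 / k + (1 + c)) * ((1 + w.2) * (1 + s)) := by
          have h11 : 1 + w.2 + s ≤ (1 + w.2) * (1 + s) := by nlinarith
          have h12' : 0 < 1 / k := by positivity
          have h13 : (1 / k + (1 + c)) * (1 + w.2 + s) ≤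
              (1 / k + (1 + c)) * ((1 + w.2) * (1 + s)) := by gcongr
          have h14 : 0 ≤ 1 / k * (w.2 + s) := by positivity
          nlinarith
        calc gt k (YU c R x w') - gt k (-r) ≤ (1 / k + (1 + c)) * ((1 + w.2) * (1 + s)) * 1 := by
              linarith
          _ ≤ (1 / k + (1 + c)) * ((1 + w.2) * (1 + s)) *
              (Real.exp (-V) * (Real.exp (lam * J0 a b' w) * Real.exp (lam * s ^ a))) := by
              gcongr
          _ = _ := by ring

section stat

variable {a : ℝ} {μ ν : Measure ℝ} [IsProbabilityMeasure μ] [IsProbabilityMeasure ν]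
  {π : Measure (ℝ × ℝ)}

lemma lintegral_comp_fst {g : ℝ → ℝ≥0∞} (hg : Measurable g) :
    ∫⁻ p, g p.1 ∂(μ.prod ν) = ∫⁻ s, g s ∂μ := by
  rw [lintegral_prod (fun p : ℝ × ℝ => g p.1) (hg.comp measurable_fst).aemeasurable]
  simp

lemma measurable_zf (c R x : ℝ) : Measurable (zf c R x) := by
  unfold zf
  fun_prop

/-- **The far region.** -/
theorem far_integral (ha0 : 0 < a) (ha1 : a < 1)
    (hμ : ∀ x, 0 ≤ x → μ (Set.Ioi x) = ENNReal.ofReal (Real.exp (-(x ^ a))))
    (hν : ν (Set.Iio 0) = 0) (hπ : IsStationaryKW μ ν π)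
    {b' : ℝ} (hb' : 0 < b') (hb1' : b' < 1)
    {c R x k r A0 d lam V B θ : ℝ} (hc : 1 ≤ c) (hR : 0 < R) (hk : 0 < k) (hx : 0 < x)
    (hr : 0 ≤ r)
    (hd : 0 < d) (hRd : 2 * R ≤ (c - 1) * d) (hdr : d ≤ r / (2 * c))
    (hdA : d ≤ A0 / (1 + 1 / b'))
    (hA : ∀ w' : ℝ × ℝ, 0 ≤ w'.1 → w'.1 ≤ w'.2 → -r ≤ YU c R x w' → A0 ≤ w'.2 + w'.1 / b')
    (hl : 0 ≤ lam)
    (hV : V ≤ lam * min (A0 ^ a + (1 - a) * d ^ a)
      (min (2 * (A0 / (1 + 1 / b')) ^ a) (d ^ a + (A0 - d / b') ^ a)))
    (hB : ∀ w : ℝ × ℝ, 0 ≤ w.1 → w.1 ≤ w.2 → w.2 ≤ d →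
      ∫⁻ s, ENNReal.ofReal (gt k (s - zf c R x w) - gt k (-r)) ∂μ ≤
        ENNReal.ofReal (B * Real.exp (θ * w.2))) (hB0 : 0 ≤ B) :
    ∫⁻ w in {w | YU c R x w < -r},
        ∫⁻ p, ENNReal.ofReal (gt k (YU c R x (kwStep w p.1 p.2)) - gt k (-r)) ∂(μ.prod ν) ∂π ≤
      ENNReal.ofReal B * ∫⁻ w in {w | w.2 ≤ d}, ENNReal.ofReal (Real.exp (θ * w.2)) ∂π +
      ENNReal.ofReal (Real.exp (-(k * r / 2)) / k) * π {w | -(2 * r) ≤ YU c R x w} +
      ENNReal.ofReal ((1 / k + (1 + c)) * Real.exp (-V)) *
        ((∫⁻ w, ENNReal.ofReal ((1 + w.2) * Real.exp (lam * J0 a b' w)) ∂π) *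
          ∫⁻ s, ENNReal.ofReal ((1 + s) * Real.exp (lam * s ^ a)) ∂μ) := by
  have hprob : IsProbabilityMeasure π := hπ.1
  have hspos := ae_prod_nonneg (ν := ν) ha0 hμ hν
  have hgm := measurable_gt k
  have hYm := measurable_YU c R x
  have hJm := measurable_J0 a b'
  set S1 : Set (ℝ × ℝ) := {w | YU c R x w < -r} with hS1
  have hS1m : MeasurableSet S1 := measurableSet_lt hYm measurable_const
  set Sd : Set (ℝ × ℝ) := {w | w.2 ≤ d} with hSd
  have hSdm : MeasurableSet Sd := measurableSet_le measurable_snd measurable_const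
  set S2 : Set (ℝ × ℝ) := {w | -(2 * r) ≤ YU c R x w} with hS2
  have hS2m : MeasurableSet S2 := measurableSet_le measurable_const hYm
  set K2 := ∫⁻ s, ENNReal.ofReal ((1 + s) * Real.exp (lam * s ^ a)) ∂μ with hK2
  set C3 := ENNReal.ofReal ((1 / k + (1 + c)) * Real.exp (-V)) with hC3
  set F1 : ℝ × ℝ → ℝ≥0∞ := fun w => ENNReal.ofReal (Real.exp (θ * w.2)) with hF1
  have hF1m : Measurable F1 := by rw [hF1]; fun_prop
  set F3 : ℝ × ℝ → ℝ≥0∞ := fun w => ENNReal.ofReal ((1 + w.2) * Real.exp (lam * J0 a b' w)) with hF3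
  have hF3m : Measurable F3 := by rw [hF3]; fun_prop
  set C2 := ENNReal.ofReal (Real.exp (-(k * r / 2)) / k) with hC2
  -- the inner integral
  have inner : ∀ w : ℝ × ℝ, 0 ≤ w.1 → w.1 ≤ w.2 → w ∈ S1 →
      ∫⁻ p, ENNReal.ofReal (gt k (YU c R x (kwStep w p.1 p.2)) - gt k (-r)) ∂(μ.prod ν) ≤
      ENNReal.ofReal B * Sd.indicator F1 w + S2.indicator (fun _ => C2) w + C3 * (F3 w * K2) := by
    intro w hw1 h12 hw
    have hgsm : Measurable fun s : ℝ =>
        (if w.2 ≤ d then ENNReal.ofReal (gt k (s - zf c R x w) - gt k (-r)) else 0) := by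
      by_cases h : w.2 ≤ d
      · simp only [if_pos h]; fun_prop
      · simp only [if_neg h]; fun_prop
    have hesm : Measurable fun s : ℝ => ENNReal.ofReal ((1 + s) * Real.exp (lam * s ^ a)) := by
      fun_prop
    calc ∫⁻ p, ENNReal.ofReal (gt k (YU c R x (kwStep w p.1 p.2)) - gt k (-r)) ∂(μ.prod ν)
        ≤ ∫⁻ p, ((if w.2 ≤ d then ENNReal.ofReal (gt k (p.1 - zf c R x w) - gt k (-r)) else 0) +
          (if -(2 * r) ≤ YU c R x w then C2 else 0) +
          C3 * (F3 w * ENNReal.ofReal ((1 + p.1) * Real.exp (lam * p.1 ^ a)))) ∂(μ.prod ν) := by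
          apply lintegral_mono_ae
          filter_upwards [hspos] with p hp
          exact far_pointwise ha0 ha1 hb' hb1' hc hR hk hx hd hRd hdr hdA hA hl hV hw1 h12 hw
            hp.1 hp.2
      _ = ∫⁻ s, (if w.2 ≤ d then ENNReal.ofReal (gt k (s - zf c R x w) - gt k (-r)) else 0) ∂μ +
          (if -(2 * r) ≤ YU c R x w then C2 else 0) + C3 * (F3 w * K2) := by
          rw [lintegral_add_right _ (by fun_prop), lintegral_add_right _ measurable_const,
            lintegral_comp_fst (g := fun s =>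
              (if w.2 ≤ d then ENNReal.ofReal (gt k (s - zf c R x w) - gt k (-r)) else 0)) hgsm,
            lintegral_const_mul _ (by fun_prop), lintegral_const_mul _ (by fun_prop),
            lintegral_comp_fst (g := fun s => ENNReal.ofReal ((1 + s) * Real.exp (lam * s ^ a)))
              hesm, lintegral_const, hK2]
          simp
      _ ≤ _ := by
          have h1 : ∫⁻ s, (if w.2 ≤ d then ENNReal.ofReal (gt k (s - zf c R x w) - gt k (-r))
              else 0) ∂μ ≤ ENNReal.ofReal B * Sd.indicator F1 w := by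
            by_cases h : w.2 ≤ d
            · simp only [if_pos h]
              rw [Set.indicator_of_mem (show w ∈ Sd from h), hF1]
              simp only
              rw [← ENNReal.ofReal_mul hB0]
              exact hB w hw1 h12 h
            · simp only [if_neg h]
              simp
          have h2 : (if -(2 * r) ≤ YU c R x w then C2 else 0) = S2.indicator (fun _ => C2) w := by
            by_cases h : -(2 * r) ≤ YU c R x w
            · rw [if_pos h, Set.indicator_of_mem (show w ∈ S2 from h)]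
            · rw [if_neg h, Set.indicator_of_notMem (show w ∉ S2 from h)]
          rw [h2]
          gcongr
  calc ∫⁻ w in S1, ∫⁻ p, ENNReal.ofReal
        (gt k (YU c R x (kwStep w p.1 p.2)) - gt k (-r)) ∂(μ.prod ν) ∂π
      ≤ ∫⁻ w in S1, (ENNReal.ofReal B * Sd.indicator F1 w + S2.indicator (fun _ => C2) w +
          C3 * (F3 w * K2)) ∂π := by
        apply lintegral_mono_ae
        filter_upwards [ae_restrict_mem hS1m, ae_restrict_of_ae hπ.ae_ordered] with w hw1 hw2
        exact inner w hw2.1 hw2.2 hw1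
    _ ≤ ∫⁻ w, (ENNReal.ofReal B * Sd.indicator F1 w + S2.indicator (fun _ => C2) w +
          C3 * (F3 w * K2)) ∂π := setLIntegral_le_lintegral _ _
    _ = _ := by
        rw [lintegral_add_right _ ((hF3m.mul_const K2).const_mul C3),
          lintegral_add_right _ (measurable_const.indicator hS2m),
          lintegral_const_mul _ (hF1m.indicator hSdm), lintegral_indicator hSdm,
          lintegral_indicator hS2m, setLIntegral_const,
          lintegral_const_mul _ (hF3m.mul_const K2), lintegral_mul_const _ hF3m]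

/-- the contribution of the starting points close to the origin -/
lemma near_bound (ha0 : 0 < a) (ha1 : a < 1)
    (hμ : ∀ x, 0 ≤ x → μ (Set.Ioi x) = ENNReal.ofReal (Real.exp (-(x ^ a))))
    {c R x k k0 r H Z : ℝ} (hx : 0 < x) (hk0 : 0 < k0) (hk : k = k0 * x ^ (a - 1))
    (hk2 : 2 * a ≤ k0) (hr : 0 ≤ r) (hH : 0 ≤ H) {w : ℝ × ℝ} (hw2 : 0 ≤ w.2) (hc : 0 ≤ c)
    (h1 : x + r ≤ zf c R x w) (h2 : Z - (H + (1 + c) * w.2) ≤ zf c R x w)
    (h3 : x ≤ Z - (H + (1 + c) * w.2)) :
    ∫⁻ s, ENNReal.ofReal (gt k (s - zf c R x w) - gt k (-r)) ∂μ ≤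
        ENNReal.ofReal ((1 + 2 * a / k0) * Real.exp (a * x ^ (a - 1) * H) * BI a Z *
          Real.exp (a * x ^ (a - 1) * (1 + c) * w.2)) := by
  have hxa : 0 < x ^ (a - 1) := by positivity
  have hkp : 0 < k := by rw [hk]; positivity
  set z := zf c R x w with hz
  have hz0 : 0 < z := by linarith
  set h := H + (1 + c) * w.2 with hh
  have hh0 : 0 ≤ h := by positivity
  have h4 : a * (z - r) ^ (a - 1) ≤ k / 2 := by
    have h5 : (z - r) ^ (a - 1) ≤ x ^ (a - 1) :=
      Real.rpow_le_rpow_of_nonpos hx (by linarith) (by linarith)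
    calc a * (z - r) ^ (a - 1) ≤ a * x ^ (a - 1) := by gcongr
      _ ≤ k0 / 2 * x ^ (a - 1) := by gcongr; linarith
      _ = k / 2 := by rw [hk]; ring
  refine (jump_upper ha0 ha1 hμ hkp hr (by linarith) h4).trans ?_
  apply ENNReal.ofReal_le_ofReal
  have hBz := BI_pos ha0 ha1 hz0.le
  have h6 : 2 / k * Real.exp (-(z ^ a)) ≤ 2 * a / k0 * BI a z := by
    have h7 := exp_le_BI ha0 ha1 hz0
    have h8 : z ^ (a - 1) ≤ x ^ (a - 1) :=
      Real.rpow_le_rpow_of_nonpos hx (by linarith) (by linarith)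
    calc 2 / k * Real.exp (-(z ^ a)) ≤ 2 / k * (a * z ^ (a - 1) * BI a z) := by gcongr
      _ ≤ 2 / k * (a * x ^ (a - 1) * BI a z) := by gcongr
      _ = 2 * a / k0 * BI a z := by rw [hk]; field_simp
  have hZh : 0 < Z - h := by linarith
  have h9 : BI a z ≤ BI a (Z - h) := BI_anti ha0 ha1 hZh.le h2
  have h10 := BI_shift ha0 ha1 hZh hh0
  have e : Z - h + h = Z := by ring
  rw [e] at h10
  have h11 : BI a (Z - h) ≤ Real.exp (a * (Z - h) ^ (a - 1) * h) * BI a Z := by
    have h12 : Real.exp (a * (Z - h) ^ (a - 1) * h) *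
        (Real.exp (-(a * (Z - h) ^ (a - 1) * h)) * BI a (Z - h)) = BI a (Z - h) := by
      rw [← mul_assoc, ← Real.exp_add]; simp
    rw [← h12]
    gcongr
  have hBZ : 0 < BI a Z := BI_pos ha0 ha1 (by linarith)
  have h13 : Real.exp (a * (Z - h) ^ (a - 1) * h) ≤ Real.exp (a * x ^ (a - 1) * h) := by
    apply Real.exp_le_exp.mpr
    have : (Z - h) ^ (a - 1) ≤ x ^ (a - 1) :=
      Real.rpow_le_rpow_of_nonpos hx h3 (by linarith)
    gcongr
  have h14 : Real.exp (a * x ^ (a - 1) * h) =
      Real.exp (a * x ^ (a - 1) * H) * Real.exp (a * x ^ (a - 1) * (1 + c) * w.2) := by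
    rw [← Real.exp_add, hh]; congr 1; ring
  calc BI a z + 2 / k * Real.exp (-(z ^ a)) ≤ (1 + 2 * a / k0) * BI a z := by linarith
    _ ≤ (1 + 2 * a / k0) * (Real.exp (a * x ^ (a - 1) * h) * BI a Z) := by
        have : BI a z ≤ Real.exp (a * x ^ (a - 1) * h) * BI a Z := by
          refine (h9.trans h11).trans ?_
          gcongr
        gcongr
    _ = _ := by rw [h14]; ring

end stat

end Pool.Agent.Lib.MP_04add8_pr
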