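import Mathlib
import Pool.Agent.Lib.MP_04add8_pr.Exact.LowerInt

/-! The exact asymptotic lower bound. -/

open MeasureTheory ProbabilityTheory Filter Topology
open scoped ENNReal

set_option linter.unusedSectionVars false

namespace Pool.Agent.Lib.MP_04add8_pr

variable {a : ℝ} {μ ν : Measure ℝ} [IsProbabilityMeasure μ] [IsProbabilityMeasure ν]
  {π : Measure (ℝ × ℝ)}

lemma jump_lower (ha0 : 0 < a) (ha1 : a < 1)
    (hμ : ∀ x, 0 ≤ x → μ (Set.Ioi x) = ENNReal.ofReal (Real.exp (-(x ^ a))))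
    (hν : ν (Set.Iio 0) = 0) {θ T1 : ℝ} (hθ : 0 ≤ θ) (hT1 : 0 ≤ T1) :
    ENNReal.ofReal (BI a (θ + T1)) * ν (Set.Iic T1) ≤
      ∫⁻ p, ENNReal.ofReal (p.1 - p.2 - θ) ∂(μ.prod ν) := by
  rw [lintegral_prod_symm _ (by fun_prop)]
  have h1 : ∀ᵐ t ∂ν, (Set.Iic T1).indicator (fun _ => ENNReal.ofReal (BI a (θ + T1))) t ≤
      ∫⁻ s, ENNReal.ofReal (s - t - θ) ∂μ := by
    filter_upwards [ae_nonneg_of_Iio hν] with t ht
    have h2 : ∫⁻ s, ENNReal.ofReal (s - t - θ) ∂μ = ENNReal.ofReal (BI a (θ + t)) := by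
      rw [← lintegral_sub_pos ha0 ha1 hμ (by linarith : 0 ≤ θ + t)]
      apply lintegral_congr
      intro s
      congr 1
      ring
    by_cases htT : t ≤ T1
    · rw [Set.indicator_of_mem (by exact htT), h2]
      exact ENNReal.ofReal_le_ofReal (BI_anti ha0 ha1 (by linarith) (by linarith))
    · rw [Set.indicator_of_notMem (by exact htT)]
      exact zero_le
  calc ENNReal.ofReal (BI a (θ + T1)) * ν (Set.Iic T1)
      = ∫⁻ t, (Set.Iic T1).indicator (fun _ => ENNReal.ofReal (BI a (θ + T1))) t ∂ν := by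
        rw [lintegral_indicator measurableSet_Iic, setLIntegral_const]
    _ ≤ _ := lintegral_mono_ae h1

/-- real form of the lower rate inequality -/
lemma lower_real (ha0 : 0 < a) (ha1 : a < 1)
    (hμ : ∀ x, 0 ≤ x → μ (Set.Ioi x) = ENNReal.ofReal (Real.exp (-(x ^ a))))
    (hν : ν (Set.Iio 0) = 0) (hνi : Integrable (fun t : ℝ => t) ν)
    (hνi2 : Integrable (fun t : ℝ => t ^ 2) ν)
    (hgt : (∫ t, t ∂ν) < ∫ s, s ∂μ) (hlt : (∫ s, s ∂μ) < 2 * ∫ t, t ∂ν)
    (hπ : IsStationaryKW μ ν π) {T1 x : ℝ} (hT1 : 0 ≤ T1) (hx1 : 1 ≤ x)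
    (hx : (2 * (∫ t, t ∂ν) - (∫ s, s ∂μ) + 1) / ((∫ s, s ∂μ) - ∫ t, t ∂ν) *
      ((∫ s, s ^ 2 ∂μ) + ∫ t, t ^ 2 ∂ν) ≤ √x) :
    BI a ((∫ s, s ∂μ) / ((∫ s, s ∂μ) - ∫ t, t ∂ν) * x + √x / ((∫ s, s ∂μ) - ∫ t, t ∂ν) + T1) *
      ν.real (Set.Iic T1) * π.real {w | w.2 ≤ x} ≤
      (2 * (∫ t, t ∂ν) - (∫ s, s ∂μ) + 1 / √x) *
        π.real {w | x - (2 * (∫ t, t ∂ν) - (∫ s, s ∂μ) + 1) / ((∫ s, s ∂μ) - ∫ t, t ∂ν) *
          ((∫ s, s ^ 2 ∂μ) + ∫ t, t ^ 2 ∂ν) * √x < w.1} := by
  set E := ∫ s, s ∂μ with hE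
  set m := ∫ t, t ∂ν with hmdef
  set E2 := ∫ s, s ^ 2 ∂μ with hE2
  set T2 := ∫ t, t ^ 2 ∂ν with hT2
  have hprob : IsProbabilityMeasure π := hπ.1
  set Λ := (2 * m - E + 1) / (E - m) * (E2 + T2) with hΛ
  have hEm : 0 < E - m := by linarith
  have hκ : 0 < 2 * m - E := by linarith
  have hT20 : 0 ≤ T2 := integral_nonneg fun t => by positivity
  have hE20 : 0 < E2 := by
    have h1 : Integrable (fun s : ℝ => s ^ 2) μ := weibull_integrable_pow ha0 hμ 2 (by norm_num)
    have hpos := weibull_ae_pos ha0 hμ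
    rw [hE2, integral_pos_iff_support_of_nonneg_ae (by filter_upwards with s; positivity) h1]
    have h2 : μ (Function.support fun s : ℝ => s ^ 2) = 1 := by
      have h3 : μ (Function.support fun s : ℝ => s ^ 2) = μ Set.univ := by
        apply measure_congr
        filter_upwards [hpos] with s hs
        apply propext
        constructor
        · intro _; trivial
        · intro _
          change s ^ 2 ≠ 0
          positivity
      rw [h3]; simp
    rw [h2]; exact one_pos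
  have hx0 : 0 < x := by linarith
  have hsx : 0 < √x := Real.sqrt_pos.mpr hx0
  have hsx1 : 1 ≤ √x := Real.one_le_sqrt.mpr hx1
  have hsxx : √x * √x = x := Real.mul_self_sqrt hx0.le
  set τ := 1 / √x with hτ
  have hτ0 : 0 < τ := by positivity
  have hτ1 : τ ≤ 1 := by rw [hτ, div_le_one hsx]; exact hsx1
  set c := 1 + (2 * m - E + τ) / (E - m) with hc
  have hc1 : c - 1 = (2 * m - E + τ) / (E - m) := by rw [hc]; ring
  have hc0 : 0 < c - 1 := by rw [hc1]; positivity
  set L := (c - 1) * (E2 + T2) * √x with hL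
  have hL0 : 0 < L := by positivity
  have hLΛ : L ≤ Λ * √x := by
    rw [hL, hΛ, hc1]
    gcongr
  have hLx : L ≤ x := by
    calc L ≤ Λ * √x := hLΛ
      _ ≤ √x * √x := by gcongr
      _ = x := hsxx
  have hmain := lower_rate ha0 ha1 hμ hν hνi hνi2 hgt hlt hπ (c := c) (x := x) (L := L) (τ := τ)
    (by linarith) hL0 hLx hτ0.le
    (by rw [← hE, ← hmdef, hc1]; field_simp)
    (by
      rw [← hE2, ← hT2, hL, hτ]
      have : (c - 1) * ((E2 + T2) / ((c - 1) * (E2 + T2) * √x)) = 1 / √x := by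
        have : E2 + T2 ≠ 0 := by positivity
        field_simp
      rw [this])
  rw [← hE, ← hmdef] at hmain
  set θ := thL c x L with hθ
  have hθle : θ ≤ E / (E - m) * x + √x / (E - m) := by
    rw [hθ]
    unfold thL
    have h1 : 2 * x + (c - 1) * (x - L / 2) ≤ 2 * x + (c - 1) * x := by
      have : (c - 1) * (x - L / 2) ≤ (c - 1) * x := by
        apply mul_le_mul_of_nonneg_left _ hc0.le; linarith
      linarith
    refine h1.trans (le_of_eq ?_)
    rw [hc1, hτ]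
    have : x = √x * √x := hsxx.symm
    field_simp
    nlinarith
  have hθ0 : 0 ≤ θ := by
    rw [hθ]
    unfold thL
    have : 0 ≤ (c - 1) * (x - L / 2) := by
      apply mul_nonneg hc0.le; linarith
    linarith
  have hjump := jump_lower ha0 ha1 hμ hν hθ0 hT1
  have hsub1 : {w : ℝ × ℝ | w.2 ≤ x} ∩ {w | 0 ≤ w.1 ∧ w.1 ≤ w.2} ⊆ {w | FL c x L w ≤ θ} := by
    rintro w ⟨hw, hw'⟩
    by_contra hcon
    simp only [Set.mem_ofPred_eq, not_le] at hcon
    have := FL_pos_imp (x := x) (by linarith : (1 : ℝ) ≤ c) hL0 hw'.2 hcon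
    have hw2 : w.2 ≤ x := hw
    linarith
  have hle1 : π {w : ℝ × ℝ | w.2 ≤ x} ≤ π {w | FL c x L w ≤ θ} := by
    apply measure_mono_ae
    filter_upwards [hπ.ae_ordered] with w hw hwx
    exact hsub1 ⟨hwx, hw⟩
  have hle2 : π {w : ℝ × ℝ | x - L < w.1} ≤ π {w | x - Λ * √x < w.1} := by
    apply measure_mono
    intro w hw
    have hw' : x - L < w.1 := hw
    change x - Λ * √x < w.1
    linarith
  have h2 : ENNReal.ofReal (BI a (E / (E - m) * x + √x / (E - m) + T1)) * ν (Set.Iic T1) *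
      π {w : ℝ × ℝ | w.2 ≤ x} ≤
      ENNReal.ofReal (2 * m - E + τ) * π {w | x - Λ * √x < w.1} := by
    calc ENNReal.ofReal (BI a (E / (E - m) * x + √x / (E - m) + T1)) * ν (Set.Iic T1) *
          π {w : ℝ × ℝ | w.2 ≤ x}
        ≤ ENNReal.ofReal (BI a (θ + T1)) * ν (Set.Iic T1) * π {w | FL c x L w ≤ θ} := by
          gcongr
          exact BI_anti ha0 ha1 (by linarith) (by linarith)
      _ ≤ (∫⁻ p, ENNReal.ofReal (p.1 - p.2 - θ) ∂(μ.prod ν)) * π {w | FL c x L w ≤ θ} := by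
          gcongr
      _ ≤ ENNReal.ofReal (2 * m - E + τ) * π {w | x - L < w.1} := hmain
      _ ≤ _ := by gcongr
  have h3 := ENNReal.toReal_mono (ENNReal.mul_ne_top ENNReal.ofReal_ne_top (measure_ne_top _ _)) h2
  rw [ENNReal.toReal_mul, ENNReal.toReal_mul, ENNReal.toReal_mul,
    ENNReal.toReal_ofReal (by linarith : 0 ≤ 2 * m - E + τ)] at h3
  have hη0 : 0 ≤ E / (E - m) * x := by
    have : 0 < E := by linarith
    positivity
  have hB0 : 0 ≤ BI a (E / (E - m) * x + √x / (E - m) + T1) :=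
    (BI_pos ha0 ha1 (by positivity)).le
  rw [ENNReal.toReal_ofReal hB0] at h3
  exact h3

/-- **Exact lower bound**. -/
theorem exact_lower (ha0 : 0 < a) (ha2 : a < 1 / 2)
    (hμ : ∀ x, 0 ≤ x → μ (Set.Ioi x) = ENNReal.ofReal (Real.exp (-(x ^ a))))
    (hν : ν (Set.Iio 0) = 0) (hνi : Integrable (fun t : ℝ => t) ν)
    (hνi2 : Integrable (fun t : ℝ => t ^ 2) ν)
    (hgt : (∫ t, t ∂ν) < ∫ s, s ∂μ) (hlt : (∫ s, s ∂μ) < 2 * ∫ t, t ∂ν)
    (hπ : IsStationaryKW μ ν π) {ε : ℝ} (hε : 0 < ε) :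
    ∀ᶠ y in atTop, (1 - ε) * BI a ((∫ s, s ∂μ) / ((∫ s, s ∂μ) - ∫ t, t ∂ν) * y) ≤
      (2 * (∫ t, t ∂ν) - ∫ s, s ∂μ) * π.real {w | y < w.1} := by
  have ha1 : a < 1 := by linarith
  have hreal := fun {T1 x : ℝ} => lower_real (T1 := T1) (x := x) ha0 ha1 hμ hν hνi hνi2 hgt hlt hπ
  set E := ∫ s, s ∂μ with hE
  set m := ∫ t, t ∂ν with hmdef
  set E2 := ∫ s, s ^ 2 ∂μ with hE2
  set T2 := ∫ t, t ^ 2 ∂ν with hT2
  have hprob : IsProbabilityMeasure π := hπ.1
  set Λ := (2 * m - E + 1) / (E - m) * (E2 + T2) with hΛ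
  have hEm : 0 < E - m := by linarith
  have hE0 : 0 < E := by linarith
  have hκ : 0 < 2 * m - E := by linarith
  have hT20 : 0 ≤ T2 := integral_nonneg fun t => by positivity
  have hE20 : 0 ≤ E2 := integral_nonneg fun t => by positivity
  have hΛ0 : 0 ≤ Λ := by positivity
  set η := E / (E - m) with hη
  have hη0 : 0 < η := by positivity
  -- choose T1
  obtain ⟨T1, hT1, hT10⟩ : ∃ T1 : ℝ, 1 - ε / 4 < ν.real (Set.Iic T1) ∧ 0 ≤ T1 := by
    have h1 : Tendsto (fun x => ν (Set.Iic x)) atTop (𝓝 (ν Set.univ)) :=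
      tendsto_measure_Iic_atTop ν
    have h2 : Tendsto (fun x => ν.real (Set.Iic x)) atTop (𝓝 1) := by
      have h3 := (ENNReal.tendsto_toReal (by simp : ν Set.univ ≠ ∞)).comp h1
      simpa [measureReal_def, Function.comp_def] using h3
    obtain ⟨T1, h4, h5⟩ := ((h2.eventually_const_lt (by linarith : 1 - ε / 4 < 1)).and
      (eventually_ge_atTop 0)).exists
    exact ⟨T1, h4, h5⟩
  -- mass of the bounded part
  have hmass : Tendsto (fun x : ℝ => π.real {w | w.2 ≤ x}) atTop (𝓝 1) := by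
    have h1 : Tendsto (fun x => (π.map Prod.snd) (Set.Iic x)) atTop
        (𝓝 ((π.map Prod.snd) Set.univ)) := tendsto_measure_Iic_atTop _
    have hpm : IsProbabilityMeasure (π.map Prod.snd) :=
      Measure.isProbabilityMeasure_map measurable_snd.aemeasurable
    have h3 := (ENNReal.tendsto_toReal (by simp : (π.map Prod.snd) Set.univ ≠ ∞)).comp h1
    have h4 : ∀ x : ℝ, (π.map Prod.snd) (Set.Iic x) = π {w | w.2 ≤ x} := by
      intro x
      rw [Measure.map_apply measurable_snd measurableSet_Iic]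
      rfl
    simp only [Function.comp_def, h4] at h3
    simpa [measureReal_def] using h3
  -- the shift
  set C := 2 * η * Λ + 2 / (E - m) + T1 with hC
  have hC0 : 0 ≤ C := by positivity
  have hexp : Tendsto (fun y : ℝ => Real.exp (-(a * η ^ (a - 1) * C * y ^ (a - 1 / 2)))) atTop
      (𝓝 1) := by
    have h1 : Tendsto (fun y : ℝ => y ^ (a - 1 / 2)) atTop (𝓝 0) := by
      have := tendsto_rpow_neg_atTop (y := 1 / 2 - a) (by linarith)
      refine this.congr ?_
      intro y; congr 1; ring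
    have h2 := (h1.const_mul (a * η ^ (a - 1) * C)).neg
    rw [mul_zero, neg_zero] at h2
    have h3 := (Real.continuous_exp.tendsto 0).comp h2
    rw [Real.exp_zero] at h3
    exact h3
  have hX : Tendsto (fun y : ℝ => y + 2 * Λ * √y) atTop atTop := by
    apply tendsto_atTop_mono _ tendsto_id
    intro y
    have : 0 ≤ 2 * Λ * √y := by positivity
    simp only [id]
    linarith
  have hτ : Tendsto (fun y : ℝ => 1 / √(y + 2 * Λ * √y)) atTop (𝓝 0) := by
    have h1 : Tendsto (fun y : ℝ => √(y + 2 * Λ * √y)) atTop atTop :=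
      Real.tendsto_sqrt_atTop.comp hX
    have h2 := h1.inv_tendsto_atTop
    refine h2.congr ?_
    intro y
    simp
  -- the limiting constant
  have hlim : Tendsto (fun y : ℝ => (2 * m - E) / (2 * m - E + 1 / √(y + 2 * Λ * √y)) *
      (Real.exp (-(a * η ^ (a - 1) * C * y ^ (a - 1 / 2))) * ν.real (Set.Iic T1) *
        π.real {w | w.2 ≤ y + 2 * Λ * √y})) atTop (𝓝 (ν.real (Set.Iic T1))) := by
    have h1 : Tendsto (fun y : ℝ => (2 * m - E) / (2 * m - E + 1 / √(y + 2 * Λ * √y))) atTop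
        (𝓝 1) := by
      have h2 := (tendsto_const_nhds (x := 2 * m - E)).div
        ((tendsto_const_nhds (x := 2 * m - E)).add hτ) (by rw [add_zero]; exact hκ.ne')
      rw [add_zero, div_self hκ.ne'] at h2
      exact h2
    have h3 := h1.mul ((hexp.mul_const (ν.real (Set.Iic T1))).mul (hmass.comp hX))
    simpa using h3
  have hev := hlim.eventually_const_lt (by linarith : 1 - ε < ν.real (Set.Iic T1))
  filter_upwards [hev, eventually_ge_atTop 1, eventually_ge_atTop (Λ ^ 2)] with y hy hy1 hyΛ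
  have hy0 : 0 < y := by linarith
  have hsy : 0 < √y := Real.sqrt_pos.mpr hy0
  have hsy1 : 1 ≤ √y := Real.one_le_sqrt.mpr hy1
  have hsyy : √y * √y = y := Real.mul_self_sqrt hy0.le
  have hΛy : Λ ≤ √y := Real.le_sqrt_of_sq_le hyΛ
  set x := y + 2 * Λ * √y with hx
  have hyx : y ≤ x := by
    rw [hx]
    have : 0 ≤ 2 * Λ * √y := by positivity
    linarith
  have hx1 : 1 ≤ x := hy1.trans hyx
  have hx0 : 0 < x := by linarith
  have hsx : √x ≤ 2 * √y := by
    rw [Real.sqrt_le_left (by positivity)]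
    have : (2 * √y) ^ 2 = 4 * y := by rw [mul_pow, Real.sq_sqrt hy0.le]; ring
    rw [this, hx]
    have : Λ * √y ≤ √y * √y := by gcongr
    rw [hsyy] at this
    linarith
  have hsx0 : 0 < √x := Real.sqrt_pos.mpr hx0
  have hΛx : Λ ≤ √x := hΛy.trans (Real.sqrt_le_sqrt hyx)
  have h1 := hreal hT10 hx1 hΛx
  have h2 : π.real {w : ℝ × ℝ | x - Λ * √x < w.1} ≤ π.real {w | y < w.1} := by
    apply measureReal_mono
    · intro w hw
      have hw' : x - Λ * √x < w.1 := hw
      change y < w.1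
      have : Λ * √x ≤ Λ * (2 * √y) := by gcongr
      rw [hx] at hw'
      linarith
    · exact measure_ne_top _ _
  have h3 : Real.exp (-(a * η ^ (a - 1) * C * y ^ (a - 1 / 2))) * BI a (η * y) ≤
      BI a (η * x + √x / (E - m) + T1) := by
    have h4 := BI_shift ha0 ha1 (z := η * y) (h := C * √y) (by positivity) (by positivity)
    have e1 : a * (η * y) ^ (a - 1) * (C * √y) = a * η ^ (a - 1) * C * y ^ (a - 1 / 2) := by
      rw [Real.mul_rpow hη0.le hy0.le, Real.sqrt_eq_rpow]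
      have : y ^ (a - 1 / 2) = y ^ (a - 1) * y ^ (1 / 2 : ℝ) := by
        rw [← Real.rpow_add hy0]; congr 1; ring
      rw [this]; ring
    rw [e1] at h4
    refine h4.trans (BI_anti ha0 ha1 (by positivity) ?_)
    rw [hC]
    have h5 : √x / (E - m) ≤ 2 * √y / (E - m) := by gcongr
    rw [hx] at h5 ⊢
    have h6 : T1 ≤ T1 * √y := by nlinarith
    have h7 : 2 * √y / (E - m) = 2 / (E - m) * √y := by ring
    rw [h7] at h5
    have h8 : η * (y + 2 * Λ * √y) + 2 / (E - m) * √y + T1 * √y =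
        η * y + (2 * η * Λ + 2 / (E - m) + T1) * √y := by ring
    rw [← h8]
    gcongr
  have hBy : 0 < BI a (η * y) := BI_pos ha0 ha1 (by positivity)
  have hκx : 0 < 2 * m - E + 1 / √x := by positivity
  have h4 : Real.exp (-(a * η ^ (a - 1) * C * y ^ (a - 1 / 2))) * ν.real (Set.Iic T1) *
        π.real {w | w.2 ≤ x} * BI a (η * y) ≤ (2 * m - E + 1 / √x) * π.real {w | y < w.1} := by
    calc Real.exp (-(a * η ^ (a - 1) * C * y ^ (a - 1 / 2))) * ν.real (Set.Iic T1) *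
          π.real {w | w.2 ≤ x} * BI a (η * y)
        = (Real.exp (-(a * η ^ (a - 1) * C * y ^ (a - 1 / 2))) * BI a (η * y)) *
          ν.real (Set.Iic T1) * π.real {w | w.2 ≤ x} := by ring
      _ ≤ BI a (η * x + √x / (E - m) + T1) * ν.real (Set.Iic T1) * π.real {w | w.2 ≤ x} := by
          gcongr
      _ ≤ (2 * m - E + 1 / √x) * π.real {w | x - Λ * √x < w.1} := h1
      _ ≤ _ := by gcongr
  have h5 : (2 * m - E) / (2 * m - E + 1 / √x) *
      (Real.exp (-(a * η ^ (a - 1) * C * y ^ (a - 1 / 2))) * ν.real (Set.Iic T1) *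
        π.real {w | w.2 ≤ x}) * BI a (η * y) ≤ (2 * m - E) * π.real {w | y < w.1} := by
    calc _ = (2 * m - E) / (2 * m - E + 1 / √x) *
          (Real.exp (-(a * η ^ (a - 1) * C * y ^ (a - 1 / 2))) * ν.real (Set.Iic T1) *
          π.real {w | w.2 ≤ x} * BI a (η * y)) := by ring
      _ ≤ (2 * m - E) / (2 * m - E + 1 / √x) *
          ((2 * m - E + 1 / √x) * π.real {w | y < w.1}) := by gcongr
      _ = _ := by field_simp
  refine le_trans ?_ h5
  gcongr

end Pool.Agent.Lib.MP_04add8_pr
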