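import Mathlib
import Pool.Agent.Lib.MP_04add8_pr.Exact.Far

/-! The exact upper bound: the inequality at a fixed level, and integrability. -/

open MeasureTheory ProbabilityTheory Filter Topology
open scoped ENNReal

set_option linter.unusedSectionVars false

namespace Pool.Agent.Lib.MP_04add8_pr

variable {a : ℝ} {μ ν : Measure ℝ} [IsProbabilityMeasure μ] [IsProbabilityMeasure ν]
  {π : Measure (ℝ × ℝ)}

/-- a polynomial factor is absorbed -/
lemma one_add_mul_exp_le {lam lam' : ℝ} (ha0 : 0 < a) (h : lam < lam') :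
    ∃ C : ℝ, 0 < C ∧ ∀ y J : ℝ, 0 ≤ y → y ^ a ≤ J →
      (1 + y) * Real.exp (lam * J) ≤ C * Real.exp (lam' * J) := by
  set D := ((1 / a) / (lam' - lam)) ^ (1 / a) with hD
  have hd : 0 < lam' - lam := by linarith
  have hD0 : 0 < D := by positivity
  refine ⟨1 + D, by positivity, ?_⟩
  intro y J hy hJ
  have h1 := rpow_le_exp (p := 1 / a) (c := lam' - lam) (u := y ^ a) (by positivity) hd
    (by positivity)
  rw [← Real.rpow_mul hy, mul_one_div_cancel ha0.ne', Real.rpow_one] at h1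
  have hya : 0 ≤ y ^ a := by positivity
  have hJ0 : 0 ≤ J := hya.trans hJ
  have h2 : Real.exp ((lam' - lam) * y ^ a) ≤ Real.exp ((lam' - lam) * J) := by
    apply Real.exp_le_exp.mpr; gcongr
  have h3 : 1 ≤ Real.exp ((lam' - lam) * J) := by
    apply Real.one_le_exp; positivity
  have h4 : 1 + y ≤ (1 + D) * Real.exp ((lam' - lam) * J) := by
    have h5 : y ≤ D * Real.exp ((lam' - lam) * J) := h1.trans (by gcongr)
    linarith
  calc (1 + y) * Real.exp (lam * J) ≤ (1 + D) * Real.exp ((lam' - lam) * J) * Real.exp (lam * J) := by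
        gcongr
    _ = _ := by rw [mul_assoc, ← Real.exp_add]; congr 2; ring

lemma integrable_one_add_J0 (ha0 : 0 < a) (ha1 : a < 1)
    (hμ : ∀ x, 0 ≤ x → μ (Set.Ioi x) = ENNReal.ofReal (Real.exp (-(x ^ a))))
    (hν : ν (Set.Iio 0) = 0) (hνi : Integrable (fun t : ℝ => t) ν)
    (hgt : (∫ t, t ∂ν) < ∫ s, s ∂μ)
    {b : ℝ} (hb : 0 < b) (hb1 : b < 1) (hbm : (∫ s, s ∂μ) < (1 + b) * ∫ t, t ∂ν)
    {lam : ℝ} (hl0 : 0 < lam) (hl1 : lam < 1) (hπ : IsStationaryKW μ ν π) :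
    Integrable (fun w => (1 + w.2) * Real.exp (lam * J0 a b w)) π := by
  have hJm := measurable_J0 a b
  have hprob : IsProbabilityMeasure π := hπ.1
  obtain ⟨C, hC, h⟩ := one_add_mul_exp_le (a := a) (lam := lam) (lam' := (1 + lam) / 2) ha0
    (by linarith)
  have hi := apriori ha0 ha1 hμ hν hνi hgt hb hb1 hbm (lam' := (1 + lam) / 2) (by linarith)
    (by linarith) hπ
  refine Integrable.mono' (hi.const_mul C) (by fun_prop) ?_
  filter_upwards [hπ.ae_ordered] with w hw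
  have hw2 : 0 ≤ w.2 := hw.1.trans hw.2
  rw [Real.norm_of_nonneg (by positivity)]
  exact h w.2 _ hw2 (rpow_le_J0 ha0 hb hw.1 hw2)

lemma integrable_one_add_weib (ha0 : 0 < a)
    (hμ : ∀ x, 0 ≤ x → μ (Set.Ioi x) = ENNReal.ofReal (Real.exp (-(x ^ a))))
    {lam : ℝ} (hl0 : 0 < lam) (hl1 : lam < 1) :
    Integrable (fun s : ℝ => (1 + s) * Real.exp (lam * s ^ a)) μ := by
  obtain ⟨C, hC, h⟩ := one_add_mul_exp_le (a := a) (lam := lam) (lam' := (1 + lam) / 2) ha0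
    (by linarith)
  have hi := weibull_integrable_exp ha0 hμ (c := (1 + lam) / 2) (by linarith) (by linarith)
  refine Integrable.mono' (hi.const_mul C) (by fun_prop) ?_
  filter_upwards [weibull_ae_pos ha0 hμ] with s hs
  rw [Real.norm_of_nonneg (by positivity)]
  exact h s _ hs.le le_rfl

/-- exponent bound for the starting points near the origin -/
lemma near_exponent {c0 d x y : ℝ} (ha1 : a < 1) (hx : 0 < x) (hc : 0 ≤ c0) (hd : 0 ≤ d)
    (hcd : c0 * d ^ (1 - a) ≤ 1 / 2) (hy : 0 ≤ y) (hyd : y ≤ d * x) :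
    c0 * x ^ (a - 1) * y ≤ 1 / 2 * y ^ a := by
  rcases hy.eq_or_lt with h | h
  · rw [← h]
    have : 0 ≤ (0 : ℝ) ^ a := by positivity
    linarith
  · have e : y = y ^ a * y ^ (1 - a) := by rw [← Real.rpow_add h]; simp
    have h1 : y ^ (1 - a) ≤ d ^ (1 - a) * x ^ (1 - a) := by
      rw [← Real.mul_rpow hd hx.le]
      exact Real.rpow_le_rpow hy hyd (by linarith)
    have h2 : x ^ (a - 1) * x ^ (1 - a) = 1 := by
      rw [← Real.rpow_add hx]
      have : a - 1 + (1 - a) = 0 := by ring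
      rw [this, Real.rpow_zero]
    calc c0 * x ^ (a - 1) * y = c0 * x ^ (a - 1) * (y ^ a * y ^ (1 - a)) := by rw [← e]
      _ ≤ c0 * x ^ (a - 1) * (y ^ a * (d ^ (1 - a) * x ^ (1 - a))) := by gcongr
      _ = (c0 * d ^ (1 - a)) * y ^ a * (x ^ (a - 1) * x ^ (1 - a)) := by ring
      _ = (c0 * d ^ (1 - a)) * y ^ a := by rw [h2, mul_one]
      _ ≤ 1 / 2 * y ^ a := by gcongr

/-- the starting points near the origin carry the whole mass -/
lemma tendsto_near (ha0 : 0 < a) (ha1 : a < 1)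
    (hμ : ∀ x, 0 ≤ x → μ (Set.Ioi x) = ENNReal.ofReal (Real.exp (-(x ^ a))))
    (hν : ν (Set.Iio 0) = 0) (hνi : Integrable (fun t : ℝ => t) ν)
    (hgt : (∫ t, t ∂ν) < ∫ s, s ∂μ) (hlt : (∫ s, s ∂μ) < 2 * ∫ t, t ∂ν)
    (hπ : IsStationaryKW μ ν π) {c0 d : ℝ} (hc : 0 ≤ c0) (hd : 0 < d)
    (hcd : c0 * d ^ (1 - a) ≤ 1 / 2) :
    Tendsto (fun x : ℝ => ∫ w, ({w : ℝ × ℝ | w.2 ≤ d * x}).indicator
      (fun w => Real.exp (c0 * x ^ (a - 1) * w.2)) w ∂π) atTop (𝓝 1) := by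
  have hprob : IsProbabilityMeasure π := hπ.1
  set E := ∫ s, s ∂μ with hE
  set m := ∫ t, t ∂ν with hmdef
  have hm : 0 < m := by linarith
  obtain ⟨b, hb1, hb2⟩ := exists_between (show (E - m) / m < 1 by rw [div_lt_one hm]; linarith)
  have hb0 : 0 < b := lt_trans (div_pos (by linarith) hm) hb1
  have hbm : E < (1 + b) * m := by
    rw [div_lt_iff₀ hm] at hb1
    linarith
  have hi := apriori ha0 ha1 hμ hν hνi hgt hb0 hb2 hbm (lam' := 1 / 2) (by norm_num)
    (by norm_num) hπ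
  have h1 : ∫ _w : ℝ × ℝ, (1 : ℝ) ∂π = 1 := by simp
  suffices key : Tendsto (fun x : ℝ => ∫ w, ({w : ℝ × ℝ | w.2 ≤ d * x}).indicator
      (fun w => Real.exp (c0 * x ^ (a - 1) * w.2)) w ∂π) atTop
      (𝓝 (∫ _w : ℝ × ℝ, (1 : ℝ) ∂π)) by
    rw [h1] at key
    exact key
  apply tendsto_integral_filter_of_dominated_convergence
    (fun w => Real.exp (1 / 2 * J0 a b w))
  · filter_upwards with x
    apply Measurable.aestronglyMeasurable
    apply Measurable.indicator (by fun_prop)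
    exact measurableSet_le measurable_snd measurable_const
  · filter_upwards [eventually_gt_atTop 0] with x hx
    filter_upwards [hπ.ae_ordered] with w hw
    have hw2 : 0 ≤ w.2 := hw.1.trans hw.2
    by_cases h : w.2 ≤ d * x
    · rw [Set.indicator_of_mem (show w ∈ {w : ℝ × ℝ | w.2 ≤ d * x} from h),
        Real.norm_of_nonneg (Real.exp_pos _).le]
      apply Real.exp_le_exp.mpr
      have h2 := near_exponent ha1 hx hc hd.le hcd hw2 h
      have h3 := rpow_le_J0 ha0 hb0 hw.1 hw2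
      linarith
    · rw [Set.indicator_of_notMem (show w ∉ {w : ℝ × ℝ | w.2 ≤ d * x} from h), norm_zero]
      positivity
  · exact hi
  · filter_upwards with w
    have h2 : ∀ᶠ x : ℝ in atTop, w.2 ≤ d * x :=
      (tendsto_id.const_mul_atTop hd).eventually_ge_atTop w.2
    have h3 : Tendsto (fun x : ℝ => Real.exp (c0 * x ^ (a - 1) * w.2)) atTop (𝓝 1) := by
      have h4 : Tendsto (fun x : ℝ => x ^ (-(1 - a))) atTop (𝓝 0) :=
        tendsto_rpow_neg_atTop (by linarith)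
      have h5 : Tendsto (fun x : ℝ => Real.exp (c0 * x ^ (-(1 - a)) * w.2)) atTop
          (𝓝 (Real.exp (c0 * 0 * w.2))) :=
        (Real.continuous_exp.tendsto _).comp ((h4.const_mul c0).mul_const w.2)
      simpa using h5
    refine h3.congr' ?_
    filter_upwards [h2] with x hx
    rw [Set.indicator_of_mem (show w ∈ {w : ℝ × ℝ | w.2 ≤ d * x} from hx)]

/-- **The upper bound at a fixed level.** -/
theorem upper_fixed (ha0 : 0 < a) (ha1 : a < 1)
    (hμ : ∀ x, 0 ≤ x → μ (Set.Ioi x) = ENNReal.ofReal (Real.exp (-(x ^ a))))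
    (hν : ν (Set.Iio 0) = 0) (hνi : Integrable (fun t : ℝ => t) ν)
    (hνi2 : Integrable (fun t : ℝ => t ^ 2) ν)
    (hgt : (∫ t, t ∂ν) < ∫ s, s ∂μ) (hlt : (∫ s, s ∂μ) < 2 * ∫ t, t ∂ν)
    (hπ : IsStationaryKW μ ν π) {c x R k r M v0 τ : ℝ} (hc : 1 ≤ c) (hR : 0 < R) (hk : 0 < k)
    (hr : 0 ≤ r) (hM : 0 < M) (hMx : M ≤ x) (hv0 : 0 ≤ v0) (hRv : 2 * R ≤ (c - 1) * v0)
    (hRx : 2 * R ≤ (c - 1) * x)
    (hreg : ∀ w : ℝ × ℝ, 0 ≤ w.1 → w.1 ≤ w.2 → -r ≤ YU c R x w → v0 + M ≤ w.2)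
    (hQ : ∀ s : ℝ, 0 ≤ s → k * min (c * s) r ≤ s ^ a / 2)
    (hcm : c * ((∫ s, s ∂μ) - ∫ t, t ∂ν) = (∫ t, t ∂ν) - τ)
    (herr : (1 + c) * ((∫ t, t ^ 2 ∂ν) / M) +
      c * ((∫ s, s ^ 2 ∂μ) + ∫ t, t ^ 2 ∂ν) / (2 * R) +
      k * (c ^ 2 * (∫ s, s ^ 2 * Real.exp (s ^ a / 2) ∂μ) + (1 + c) ^ 2 * ∫ t, t ^ 2 ∂ν) ≤ τ)
    (hκ1 : 0 ≤ 2 * (∫ t, t ∂ν) - (∫ s, s ∂μ) - τ)
    (hκk : 2 * (∫ t, t ∂ν) - (∫ s, s ∂μ) - τ ≤ 1 / k)
    {b' : ℝ} (hb' : 0 < b') (hb1' : b' < 1) (hbm : (∫ s, s ∂μ) < (1 + b') * ∫ t, t ∂ν)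
    {A0 d lam V B θ V2 : ℝ}
    (hd : 0 < d) (hRd : 2 * R ≤ (c - 1) * d) (hdr : d ≤ r / (2 * c))
    (hdA : d ≤ A0 / (1 + 1 / b'))
    (hA : ∀ w' : ℝ × ℝ, 0 ≤ w'.1 → w'.1 ≤ w'.2 → -r ≤ YU c R x w' → A0 ≤ w'.2 + w'.1 / b')
    (hl : 0 < lam) (hl1 : lam < 1)
    (hV : V ≤ lam * min (A0 ^ a + (1 - a) * d ^ a)
      (min (2 * (A0 / (1 + 1 / b')) ^ a) (d ^ a + (A0 - d / b') ^ a)))
    (hB : ∀ w : ℝ × ℝ, 0 ≤ w.1 → w.1 ≤ w.2 → w.2 ≤ d →
      ∫⁻ s, ENNReal.ofReal (gt k (s - zf c R x w) - gt k (-r)) ∂μ ≤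
        ENNReal.ofReal (B * Real.exp (θ * w.2))) (hB0 : 0 ≤ B) (hθ : 0 ≤ θ)
    (hV2 : ∀ w : ℝ × ℝ, 0 ≤ w.1 → w.1 ≤ w.2 → -(2 * r) ≤ YU c R x w → V2 ≤ lam * J0 a b' w) :
    (2 * (∫ t, t ∂ν) - (∫ s, s ∂μ) - τ) * π.real {w | x < w.1} ≤
      B * (∫ w, ({w : ℝ × ℝ | w.2 ≤ d}).indicator (fun w => Real.exp (θ * w.2)) w ∂π) +
      2 * (Real.exp (-(k * r / 2)) / k) *
        ((∫ w, Real.exp (lam * J0 a b' w) ∂π) * Real.exp (-V2)) +
      (1 / k + (1 + c)) * Real.exp (-V) *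
        ((∫ w, (1 + w.2) * Real.exp (lam * J0 a b' w) ∂π) *
          ∫ s, (1 + s) * Real.exp (lam * s ^ a) ∂μ) := by
  have hprob : IsProbabilityMeasure π := hπ.1
  have hx0 : 0 < x := hM.trans_le hMx
  have hYm := measurable_YU c R x
  have hmain := upper_rate ha0 ha1 hμ hν hνi hνi2 hgt hlt hπ hc hR hk hr hM hMx hv0 hRv hRx hreg
    hQ hcm herr hκ1 hκk
  have hfar := far_integral ha0 ha1 hμ hν hπ hb' hb1' hc hR hk hx0 hr hd hRd hdr hdA hA hl.le hV
    hB hB0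
  set κ := 2 * (∫ t, t ∂ν) - (∫ s, s ∂μ) - τ with hκ
  have hi1 := integrable_one_add_J0 ha0 ha1 hμ hν hνi hgt hb' hb1' hbm hl hl1 hπ
  have hi2 := integrable_one_add_weib ha0 hμ hl hl1
  have hi3 := apriori ha0 ha1 hμ hν hνi hgt hb' hb1' hbm hl hl1 hπ
  set K1 := ∫ w, (1 + w.2) * Real.exp (lam * J0 a b' w) ∂π with hK1
  set K2 := ∫ s, (1 + s) * Real.exp (lam * s ^ a) ∂μ with hK2
  set K4 := ∫ w, Real.exp (lam * J0 a b' w) ∂π with hK4
  have hn1 : 0 ≤ᵐ[π] fun w : ℝ × ℝ => (1 + w.2) * Real.exp (lam * J0 a b' w) := by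
    filter_upwards [hπ.ae_ordered] with w hw
    have hw2 : 0 ≤ w.2 := hw.1.trans hw.2
    simp only [Pi.zero_apply]
    positivity
  have hn2 : 0 ≤ᵐ[μ] fun s : ℝ => (1 + s) * Real.exp (lam * s ^ a) := by
    filter_upwards [weibull_ae_pos ha0 hμ] with s hs
    simp only [Pi.zero_apply]
    positivity
  have hn3 : 0 ≤ᵐ[π] fun w : ℝ × ℝ => Real.exp (lam * J0 a b' w) := by
    filter_upwards with w
    simp only [Pi.zero_apply]
    positivity
  have hK10 : 0 ≤ K1 := integral_nonneg_of_ae hn1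
  have hK20 : 0 ≤ K2 := integral_nonneg_of_ae hn2
  have hK40 : 0 ≤ K4 := integral_nonneg_of_ae hn3
  have e1 : ∫⁻ w, ENNReal.ofReal ((1 + w.2) * Real.exp (lam * J0 a b' w)) ∂π =
      ENNReal.ofReal K1 := (ofReal_integral_eq_lintegral_ofReal hi1 hn1).symm
  have e2 : ∫⁻ s, ENNReal.ofReal ((1 + s) * Real.exp (lam * s ^ a)) ∂μ = ENNReal.ofReal K2 :=
    (ofReal_integral_eq_lintegral_ofReal hi2 hn2).symm
  rw [e1, e2] at hfar
  -- the near region
  set Sd : Set (ℝ × ℝ) := {w | w.2 ≤ d} with hSd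
  have hSdm : MeasurableSet Sd := measurableSet_le measurable_snd measurable_const
  have hi4 : Integrable (Sd.indicator fun w => Real.exp (θ * w.2)) π := by
    refine Integrable.mono' (integrable_const (Real.exp (θ * d))) ?_ ?_
    · exact (Measurable.indicator (by fun_prop) hSdm).aestronglyMeasurable
    · filter_upwards with w
      by_cases h : w ∈ Sd
      · rw [Set.indicator_of_mem h, Real.norm_of_nonneg (Real.exp_pos _).le]
        apply Real.exp_le_exp.mpr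
        have : w.2 ≤ d := h
        gcongr
      · rw [Set.indicator_of_notMem h, norm_zero]; positivity
  have hn4 : 0 ≤ᵐ[π] Sd.indicator fun w => Real.exp (θ * w.2) := by
    filter_upwards with w
    apply Set.indicator_nonneg
    intro w _
    positivity
  set Φ := ∫ w, Sd.indicator (fun w => Real.exp (θ * w.2)) w ∂π with hΦ
  have hΦ0 : 0 ≤ Φ := integral_nonneg_of_ae hn4
  have e3 : ∫⁻ w in Sd, ENNReal.ofReal (Real.exp (θ * w.2)) ∂π = ENNReal.ofReal Φ := by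
    rw [hΦ, ofReal_integral_eq_lintegral_ofReal hi4 hn4, ← lintegral_indicator hSdm]
    apply lintegral_congr
    intro w
    by_cases h : w ∈ Sd
    · rw [Set.indicator_of_mem h, Set.indicator_of_mem h]
    · rw [Set.indicator_of_notMem h, Set.indicator_of_notMem h, ENNReal.ofReal_zero]
  rw [e3] at hfar
  -- the intermediate region
  set S2 : Set (ℝ × ℝ) := {w | -(2 * r) ≤ YU c R x w} with hS2
  have hS2m : MeasurableSet S2 := measurableSet_le measurable_const hYm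
  have e4 : π S2 ≤ ENNReal.ofReal (K4 * Real.exp (-V2)) := by
    have h1 : π S2 * ENNReal.ofReal (Real.exp V2) ≤ ENNReal.ofReal K4 := by
      rw [hK4, ofReal_integral_eq_lintegral_ofReal hi3 hn3]
      calc π S2 * ENNReal.ofReal (Real.exp V2)
          = ∫⁻ w in S2, ENNReal.ofReal (Real.exp V2) ∂π := by
            rw [setLIntegral_const, mul_comm]
        _ ≤ ∫⁻ w in S2, ENNReal.ofReal (Real.exp (lam * J0 a b' w)) ∂π := by
            apply lintegral_mono_ae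
            filter_upwards [ae_restrict_mem hS2m, ae_restrict_of_ae hπ.ae_ordered] with w hw1 hw2
            apply ENNReal.ofReal_le_ofReal
            exact Real.exp_le_exp.mpr (hV2 w hw2.1 hw2.2 hw1)
        _ ≤ _ := setLIntegral_le_lintegral _ _
    calc π S2 = π S2 * ENNReal.ofReal (Real.exp V2) * ENNReal.ofReal (Real.exp (-V2)) := by
          rw [mul_assoc, ← ENNReal.ofReal_mul (Real.exp_pos _).le, ← Real.exp_add]
          simp
      _ ≤ ENNReal.ofReal K4 * ENNReal.ofReal (Real.exp (-V2)) := by gcongr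
      _ = _ := by rw [← ENNReal.ofReal_mul hK40]
  have hmono : π {w | -r ≤ YU c R x w} ≤ π S2 := by
    apply measure_mono
    intro w hw
    have hw' : -r ≤ YU c R x w := hw
    change -(2 * r) ≤ YU c R x w
    linarith
  have hexp : Real.exp (-(k * r)) / k ≤ Real.exp (-(k * r / 2)) / k := by
    have : 0 ≤ k * r := by positivity
    gcongr
    linarith
  set C2 := Real.exp (-(k * r / 2)) / k with hC2
  have hC20 : 0 ≤ C2 := by positivity
  set C3 := (1 / k + (1 + c)) * Real.exp (-V) with hC3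
  have hC30 : 0 ≤ C3 := by positivity
  have htot : ENNReal.ofReal κ * π {w | x < w.1} ≤
      ENNReal.ofReal (B * Φ + 2 * C2 * (K4 * Real.exp (-V2)) + C3 * (K1 * K2)) := by
    calc ENNReal.ofReal κ * π {w | x < w.1} ≤
        ENNReal.ofReal (Real.exp (-(k * r)) / k) * π {w | -r ≤ YU c R x w} +
        (ENNReal.ofReal B * ENNReal.ofReal Φ + ENNReal.ofReal C2 * π S2 +
          ENNReal.ofReal C3 * (ENNReal.ofReal K1 * ENNReal.ofReal K2)) :=
          hmain.trans (add_le_add le_rfl hfar)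
      _ ≤ ENNReal.ofReal C2 * ENNReal.ofReal (K4 * Real.exp (-V2)) +
        (ENNReal.ofReal B * ENNReal.ofReal Φ +
          ENNReal.ofReal C2 * ENNReal.ofReal (K4 * Real.exp (-V2)) +
          ENNReal.ofReal C3 * (ENNReal.ofReal K1 * ENNReal.ofReal K2)) := by
          gcongr
          exact hmono.trans e4
      _ = _ := by
          have hq : 0 ≤ K4 * Real.exp (-V2) := by positivity
          rw [← ENNReal.ofReal_mul hC20, ← ENNReal.ofReal_mul hB0, ← ENNReal.ofReal_mul hK10,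
            ← ENNReal.ofReal_mul hC30, ← ENNReal.ofReal_add (by positivity) (by positivity),
            ← ENNReal.ofReal_add (by positivity) (by positivity),
            ← ENNReal.ofReal_add (by positivity) (by positivity)]
          congr 1
          ring
  have hfin : (0 : ℝ) ≤ B * Φ + 2 * C2 * (K4 * Real.exp (-V2)) + C3 * (K1 * K2) := by positivity
  have h5 := ENNReal.toReal_mono ENNReal.ofReal_ne_top htot
  rw [ENNReal.toReal_mul, ENNReal.toReal_ofReal hκ1, ENNReal.toReal_ofReal hfin] at h5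
  exact h5

end Pool.Agent.Lib.MP_04add8_pr
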