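import Mathlib
import Pool.Agent.Lib.MP_04add8_pr.Exact.UpperReal
import Pool.Agent.Lib.MP_04add8_pr.Exact.Const

/-! The exact upper bound: verification of the hypotheses for the chosen parameters. -/

open MeasureTheory ProbabilityTheory Filter Topology
open scoped ENNReal

set_option linter.unusedSectionVars false

namespace Pool.Agent.Lib.MP_04add8_pr

lemma min_le_rpow_mul {a u v : ℝ} (ha0 : 0 < a) (ha1 : a < 1) (hu : 0 ≤ u) (hv : 0 ≤ v) :
    min u v ≤ u ^ a * v ^ (1 - a) := by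
  have h0 : 0 ≤ min u v := le_min hu hv
  rcases h0.eq_or_lt with h | h
  · rw [← h]; positivity
  · have e : min u v = min u v ^ a * min u v ^ (1 - a) := by
      rw [← Real.rpow_add h]; simp
    rw [e]
    have h1 : min u v ^ a ≤ u ^ a := Real.rpow_le_rpow h0 (min_le_left _ _) ha0.le
    have h2 : min u v ^ (1 - a) ≤ v ^ (1 - a) :=
      Real.rpow_le_rpow h0 (min_le_right _ _) (by linarith)
    gcongr

variable {a : ℝ} {μ ν : Measure ℝ} [IsProbabilityMeasure μ] [IsProbabilityMeasure ν]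
  {π : Measure (ℝ × ℝ)}

theorem upper_pre (ha0 : 0 < a) (ha1 : a < 1)
    (hμ : ∀ x, 0 ≤ x → μ (Set.Ioi x) = ENNReal.ofReal (Real.exp (-(x ^ a))))
    (hν : ν (Set.Iio 0) = 0) (hνi : Integrable (fun t : ℝ => t) ν)
    (hνi2 : Integrable (fun t : ℝ => t ^ 2) ν)
    (hgt : (∫ t, t ∂ν) < ∫ s, s ∂μ) (hlt : (∫ s, s ∂μ) < 2 * ∫ t, t ∂ν)
    (hπ : IsStationaryKW μ ν π) {b k0 δ l C1 x c R τ : ℝ}
    (hb : b = ((∫ s, s ∂μ) - ∫ t, t ∂ν) / ∫ t, t ∂ν) (hk0 : 8 ≤ k0) (hδ0 : 0 < δ)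
    (hδ8 : δ ≤ 1 / 8)
    (hD1 : k0 * ((1 / b) ^ a * δ ^ (1 - a)) ≤ 1 / 2)
    (hl1 : b < l) (hl2 : l < 1)
    (hdA : δ * b / 2 ≤ (l * (1 + 1 / b - 2 * δ)) / (1 + 1 / (b / l)))
    (hη' : (1 + 1 / (b / l)) ^ a < 2)
    (hC1 : C1 = 4 * (1 + 1 / b) * (∫ t, t ^ 2 ∂ν) +
      (1 / b) * ((∫ s, s ^ 2 ∂μ) + ∫ t, t ^ 2 ∂ν) / 2 +
      ((1 / b) ^ 2 * (∫ s, s ^ 2 * Real.exp (s ^ a / 2) ∂μ) + (1 + 1 / b) ^ 2 * ∫ t, t ^ 2 ∂ν))
    (hx : 1 ≤ x) (hτ : τ = C1 * (k0 * x ^ (a - 1)))
    (hcdef : c * ((∫ s, s ∂μ) - ∫ t, t ∂ν) = (∫ t, t ∂ν) - τ)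
    (hRdef : R = x ^ (1 - a) / k0) (hc1 : 1 ≤ c) (hF3 : 2 * R ≤ (c - 1) * (δ * b / 2 * x))
    (hF4 : (1 / b - c) * x + c * R ≤ δ * x)
    (hF5 : 0 ≤ 2 * (∫ t, t ∂ν) - (∫ s, s ∂μ) - τ)
    (hF6 : 2 * (∫ t, t ∂ν) - (∫ s, s ∂μ) ≤ x ^ (1 - a) / k0) :
    (2 * (∫ t, t ∂ν) - (∫ s, s ∂μ) - τ) * π.real {w | x < w.1} ≤
      (1 + 2 * a / k0) * Real.exp (a * x ^ (a - 1) * ((1 / b - c) * x + c * R)) *
        BI a ((1 + 1 / b) * x) *
        (∫ w, ({w : ℝ × ℝ | w.2 ≤ δ * b / 2 * x}).indicator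
          (fun w => Real.exp (a * (1 + 1 / b) * x ^ (a - 1) * w.2)) w ∂π) +
      2 * (Real.exp (-(k0 * δ / 2 * x ^ a)) * x) *
        ((∫ w, Real.exp (l * J0 a (b / l) w) ∂π) *
          Real.exp (-(l * (l * (1 + 1 / b - 3 * δ)) ^ a * x ^ a))) +
      (x + (1 + 1 / b)) * Real.exp (-(l *
          min ((l * (1 + 1 / b - 2 * δ)) ^ a + (1 - a) * (δ * b / 2) ^ a)
        (min (2 * ((l * (1 + 1 / b - 2 * δ)) / (1 + 1 / (b / l))) ^ a)
          ((δ * b / 2) ^ a + (l * (1 + 1 / b - 2 * δ) - δ * b / 2 / (b / l)) ^ a)) * x ^ a)) *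
        ((∫ w, (1 + w.2) * Real.exp (l * J0 a (b / l) w) ∂π) *
          ∫ s, (1 + s) * Real.exp (l * s ^ a) ∂μ) := by
  have hprob : IsProbabilityMeasure π := hπ.1
  have hx0 : 0 < x := by linarith
  have hk00 : 0 < k0 := by linarith
  set E := ∫ s, s ∂μ with hE
  set m := ∫ t, t ∂ν with hmdef
  set E2 := ∫ s, s ^ 2 ∂μ with hE2
  set T2 := ∫ t, t ^ 2 ∂ν with hT2
  set Q1 := ∫ s, s ^ 2 * Real.exp (s ^ a / 2) ∂μ with hQ1
  have hE20 : 0 ≤ E2 := integral_nonneg fun t => by positivity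
  have hT20 : 0 ≤ T2 := integral_nonneg fun t => by positivity
  have hQ10 : 0 ≤ Q1 := integral_nonneg fun t => by positivity
  have hm : 0 < m := by linarith
  have hEm : 0 < E - m := by linarith
  have hb0 : 0 < b := by rw [hb]; positivity
  have hb1 : b < 1 := by rw [hb, div_lt_one hm]; linarith
  have hbm : E = (1 + b) * m := by rw [hb]; field_simp; ring
  have hl0 : 0 < l := hb0.trans hl1
  set η := 1 + 1 / b with hηdef
  have hη2 : 2 ≤ η := by
    have : 1 ≤ 1 / b := by rw [le_div_iff₀ hb0]; linarith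
    rw [hηdef]; linarith
  have hδx : 0 ≤ δ * x := by positivity
  set g := x ^ (a - 1) with hg
  have hg0 : 0 < g := by positivity
  have hgx : g * x ^ (1 - a) = 1 := by
    rw [hg, ← Real.rpow_add hx0]
    have : a - 1 + (1 - a) = 0 := by ring
    rw [this, Real.rpow_zero]
  have hgxa : g * x = x ^ a := by
    rw [hg, ← Real.rpow_add_one hx0.ne']; congr 1; ring
  have hC10 : 0 ≤ C1 := by rw [hC1]; positivity
  have hτ0 : 0 ≤ τ := by rw [hτ]; positivity
  have hcb : c ≤ 1 / b := by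
    have h1 : 1 / b * (E - m) = m := by rw [hbm]; field_simp; ring
    have h2 : c * (E - m) ≤ 1 / b * (E - m) := by rw [hcdef, h1]; linarith
    exact le_of_mul_le_mul_right h2 hEm
  have hc0 : 0 < c := by linarith
  have hcη : 1 + c ≤ η := by rw [hηdef]; linarith
  have hR : 0 < R := by rw [hRdef]; positivity
  have hcR : c * R ≤ δ * x := by
    have : 0 ≤ (1 / b - c) * x := by
      apply mul_nonneg _ hx0.le; linarith
    linarith
  have hkR : 1 / R = k0 * g := by
    rw [hRdef, one_div_div, div_eq_iff (by positivity)]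
    rw [mul_assoc, hgx, mul_one]
  set k := k0 * g with hkdef
  have hk : 0 < k := by positivity
  have hk1 : 1 / k = x ^ (1 - a) / k0 := by
    rw [hkdef, div_eq_div_iff (by positivity) (by positivity)]
    calc 1 * k0 = (g * x ^ (1 - a)) * k0 := by rw [hgx]
      _ = _ := by ring
  have hkx : 1 / k ≤ x := by
    rw [hk1, div_le_iff₀ hk00]
    have h1 : x ^ (1 - a) ≤ x ^ (1 : ℝ) := Real.rpow_le_rpow_of_exponent_le hx (by linarith)
    rw [Real.rpow_one] at h1
    exact h1.trans (le_mul_of_one_le_right hx0.le (by linarith))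
  set d0 := δ * b / 2 with hd0
  have hd00 : 0 < d0 := by positivity
  have hd0δ : d0 ≤ δ / 2 := by
    have : δ * b ≤ δ * 1 := by gcongr
    rw [hd0]; linarith
  have hRx4 : 2 * R ≤ (c - 1) * (x / 4) := by
    refine hF3.trans ?_
    apply mul_le_mul_of_nonneg_left _ (by linarith)
    have : d0 * x ≤ 1 / 4 * x := by gcongr; linarith
    linarith
  have hRx : 2 * R ≤ (c - 1) * x := by
    refine hRx4.trans ?_
    apply mul_le_mul_of_nonneg_left _ (by linarith)
    linarith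
  -- lower bounds for the reach
  have reach : ∀ (j : ℝ) (w : ℝ × ℝ), 0 ≤ j → 0 ≤ w.1 → w.1 ≤ w.2 →
      -(j * x) ≤ YU c R x w → (η - (j + δ)) * x ≤ w.2 + c * w.1 := by
    intro j w hj hw1 hw12 hY
    have h1 := YU_ge_imp hc1 hR hw1 hx0.le hY
    have h2 : (η - (j + δ)) * x = (1 + c) * x - j * x - δ * x + (1 / b - c) * x := by
      rw [hηdef]; ring
    linarith
  have reach2 : ∀ (w : ℝ × ℝ), 0 ≤ w.1 → w.1 ≤ w.2 →
      l * (w.2 + c * w.1) ≤ w.2 + w.1 / (b / l) := by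
    intro w hw1 hw12
    have hw2 : 0 ≤ w.2 := hw1.trans hw12
    have h1 : w.1 / (b / l) = l * (1 / b * w.1) := by field_simp
    rw [h1]
    have h2 : c * w.1 ≤ 1 / b * w.1 := by gcongr
    have h3 : l * w.2 ≤ 1 * w.2 := by gcongr
    have h4 : l * (c * w.1) ≤ l * (1 / b * w.1) := by gcongr
    linarith
  set A00 := l * (η - 2 * δ) with hA00
  have hη2δ : 0 < η - 2 * δ := by linarith
  have hη3δ : 0 < η - 3 * δ := by linarith
  have hA000 : 0 < A00 := by positivity
  have hbl : 0 < b / l := by positivity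
  have hbl1 : b / l < 1 := by rw [div_lt_one hl0]; exact hl1
  have hη'0 : 0 < 1 + 1 / (b / l) := by positivity
  have hAd : 0 ≤ A00 - d0 / (b / l) := by
    rw [le_div_iff₀ hη'0] at hdA
    have : d0 * (1 + 1 / (b / l)) = d0 + d0 / (b / l) := by ring
    linarith
  set β := b / l with hβ
  set V0 := l * min (A00 ^ a + (1 - a) * d0 ^ a) (min (2 * (A00 / (1 + 1 / β)) ^ a)
    (d0 ^ a + (A00 - d0 / β) ^ a)) with hV0
  have hxa : 0 < x ^ a := by positivity
  have main := upper_fixed (c := c) (x := x) (R := R) (k := k) (r := δ * x) (M := x / 4)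
    (v0 := x / 4) (τ := τ) (b' := β) (A0 := A00 * x) (d := d0 * x) (lam := l) (V := V0 * x ^ a)
    (B := (1 + 2 * a / k0) * Real.exp (a * g * ((1 / b - c) * x + c * R)) * BI a (η * x))
    (θ := a * η * g) (V2 := l * (l * (η - 3 * δ)) ^ a * x ^ a)
    ha0 ha1 hμ hν hνi hνi2 hgt hlt hπ hc1 hR hk (by positivity) (by positivity) (by linarith)
    (by positivity) hRx4 hRx ?_ ?_ hcdef ?_ hF5 ?_ hbl hbl1 ?_ (by positivity) ?_ ?_ ?_ ?_ hl0 hl2
    ?_ ?_ ?_ (by positivity) ?_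
  · -- conclusion
    refine main.trans ?_
    have e1 : k * (δ * x) / 2 = k0 * δ / 2 * x ^ a := by
      rw [hkdef, ← hgxa]; ring
    rw [e1]
    have hi1 : 0 ≤ ∫ w, Real.exp (l * J0 a β w) ∂π := integral_nonneg fun w => by positivity
    have hi2 : 0 ≤ ∫ w, (1 + w.2) * Real.exp (l * J0 a β w) ∂π := by
      apply integral_nonneg_of_ae
      filter_upwards [hπ.ae_ordered] with w hw
      have hw2 : 0 ≤ w.2 := hw.1.trans hw.2
      simp only [Pi.zero_apply]
      positivity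
    have hi3 : 0 ≤ ∫ s, (1 + s) * Real.exp (l * s ^ a) ∂μ := by
      apply integral_nonneg_of_ae
      filter_upwards [weibull_ae_pos ha0 hμ] with s hs
      simp only [Pi.zero_apply]
      positivity
    have h1 : Real.exp (-(k0 * δ / 2 * x ^ a)) / k ≤ Real.exp (-(k0 * δ / 2 * x ^ a)) * x := by
      rw [div_eq_mul_one_div]
      gcongr
    gcongr
  · -- hreg
    intro w hw1 hw12 hY
    have h1 := reach δ w hδ0.le hw1 hw12 hY
    have h2 : c * w.1 ≤ c * w.2 := by gcongr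
    have h3 : (1 + c) * (x / 2) ≤ (η - (δ + δ)) * x := by
      have h6 : (1 + c) * (x / 2) ≤ η * (x / 2) := by gcongr
      have h7 : 2 * x ≤ η * x := by gcongr
      have h8 : δ * x ≤ 1 / 8 * x := by gcongr
      have e : (η - (δ + δ)) * x = η * x - 2 * (δ * x) := by ring
      rw [e]
      linarith
    have h4 : (1 + c) * (x / 2) ≤ (1 + c) * w.2 := by linarith
    have h5 := le_of_mul_le_mul_left h4 (by linarith : 0 < 1 + c)
    linarith
  · -- hQ
    intro s hs
    have h1 := min_le_rpow_mul ha0 ha1 (u := c * s) (v := δ * x) (by positivity) (by positivity)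
    have h2 : (c * s) ^ a ≤ (1 / b * s) ^ a := by gcongr
    have h3 : (1 / b * s) ^ a = (1 / b) ^ a * s ^ a := Real.mul_rpow (by positivity) hs
    have h4 : (δ * x) ^ (1 - a) = δ ^ (1 - a) * x ^ (1 - a) := Real.mul_rpow hδ0.le hx0.le
    calc k * min (c * s) (δ * x) ≤ k * ((1 / b * s) ^ a * (δ * x) ^ (1 - a)) := by
          gcongr
          exact h1.trans (by gcongr)
      _ = (k0 * ((1 / b) ^ a * δ ^ (1 - a))) * s ^ a * (g * x ^ (1 - a)) := by
          rw [h3, h4, hkdef]; ring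
      _ = (k0 * ((1 / b) ^ a * δ ^ (1 - a))) * s ^ a := by rw [hgx, mul_one]
      _ ≤ 1 / 2 * s ^ a := by gcongr
      _ = s ^ a / 2 := by ring
  · -- herr
    have h1 : 1 / x ≤ k := by
      rw [div_le_iff₀ hx0, hkdef, mul_assoc, hgxa]
      have h6 : 1 ≤ x ^ a := Real.one_le_rpow hx ha0.le
      calc (1 : ℝ) ≤ k0 * 1 := by linarith
        _ ≤ k0 * x ^ a := by gcongr
    have e2 : c * (E2 + T2) / (2 * R) = c * (E2 + T2) / 2 * k := by
      rw [← hkR]; field_simp
    have e3 : T2 / (x / 4) = 4 * T2 * (1 / x) := by field_simp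
    rw [e2, e3, hτ, hC1]
    have h2 : (1 + c) * (4 * T2 * (1 / x)) ≤ (1 + 1 / b) * (4 * T2 * k) := by gcongr
    have h3 : c * (E2 + T2) / 2 * k ≤ 1 / b * (E2 + T2) / 2 * k := by gcongr
    have h4 : k * (c ^ 2 * Q1 + (1 + c) ^ 2 * T2) ≤
        k * ((1 / b) ^ 2 * Q1 + (1 + 1 / b) ^ 2 * T2) := by gcongr
    calc (1 + c) * (4 * T2 * (1 / x)) + c * (E2 + T2) / 2 * k +
          k * (c ^ 2 * Q1 + (1 + c) ^ 2 * T2)
        ≤ (1 + 1 / b) * (4 * T2 * k) + 1 / b * (E2 + T2) / 2 * k +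
          k * ((1 / b) ^ 2 * Q1 + (1 + 1 / b) ^ 2 * T2) := by linarith
      _ = _ := by ring
  · -- hκk
    rw [hk1]; linarith
  · -- hbm
    have h1 : b < β := by
      rw [hβ, lt_div_iff₀ hl0]
      exact mul_lt_of_lt_one_right hb0 hl2
    have h2 : (1 + b) * m < (1 + β) * m := by gcongr
    rw [← hbm] at h2
    exact h2
  · -- hRd
    exact hF3
  · -- hdr
    rw [le_div_iff₀ (by positivity), hd0]
    have : b * c ≤ 1 := by
      have := mul_le_mul_of_nonneg_left hcb hb0.le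
      rwa [mul_one_div_cancel hb0.ne'] at this
    have h2 : δ * b / 2 * x * (2 * c) = δ * x * (b * c) := by ring
    rw [h2]
    exact mul_le_of_le_one_right (by positivity) this
  · -- hdA
    rw [mul_div_right_comm]
    gcongr
  · -- hA
    intro w hw1 hw12 hY
    have h1 := reach δ w hδ0.le hw1 hw12 hY
    have h2 := reach2 w hw1 hw12
    have h3 : A00 * x = l * ((η - (δ + δ)) * x) := by rw [hA00]; ring
    rw [h3]
    exact (by gcongr : l * ((η - (δ + δ)) * x) ≤ l * (w.2 + c * w.1)).trans h2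
  · -- hV
    apply le_of_eq
    have e1 : (A00 * x) ^ a = A00 ^ a * x ^ a := Real.mul_rpow hA000.le hx0.le
    have e2 : (d0 * x) ^ a = d0 ^ a * x ^ a := Real.mul_rpow hd00.le hx0.le
    have e3 : (A00 * x / (1 + 1 / β)) ^ a = (A00 / (1 + 1 / β)) ^ a * x ^ a := by
      rw [mul_div_right_comm]
      exact Real.mul_rpow (by positivity) hx0.le
    have e4 : (A00 * x - d0 * x / β) ^ a = (A00 - d0 / β) ^ a * x ^ a := by
      have : A00 * x - d0 * x / β = (A00 - d0 / β) * x := by ring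
      rw [this]
      exact Real.mul_rpow hAd hx0.le
    rw [e1, e2, e3, e4, hV0, mul_assoc l, min_mul_of_nonneg _ _ hxa.le,
      min_mul_of_nonneg _ _ hxa.le]
    congr 2
    · ring
    · congr 1 <;> ring
  · -- hB
    intro w hw1 hw12 hwd
    have hw2 : 0 ≤ w.2 := hw1.trans hw12
    have hd2 : (1 + c) * w.2 ≤ δ * x := by
      have h1 : (1 + c) * w.2 ≤ (2 * c) * (d0 * x) := by gcongr; linarith
      have h2 : b * c ≤ 1 := by
        have := mul_le_mul_of_nonneg_left hcb hb0.le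
        rwa [mul_one_div_cancel hb0.ne'] at this
      have h3 : 2 * c * (d0 * x) = δ * x * (b * c) := by rw [hd0]; ring
      rw [h3] at h1
      exact h1.trans (mul_le_of_le_one_right (by positivity) h2)
    have hsq := le_sqrt_add x R
    have hcs : c * x ≤ c * √(x ^ 2 + R ^ 2) := by gcongr
    have hzf : x + c * x - c * R - (1 + c) * w.2 ≤ zf c R x w := by
      unfold zf
      linarith
    have hcx : 3 * δ * x ≤ c * x := by
      have : 3 * δ ≤ c := by linarith
      gcongr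
    have hZ : η * x - ((1 / b - c) * x + c * R + (1 + c) * w.2) =
        x + c * x - c * R - (1 + c) * w.2 := by rw [hηdef]; ring
    have h1 := near_bound (c := c) (R := R) (x := x) (k := k) (k0 := k0) (r := δ * x)
      (H := (1 / b - c) * x + c * R) (Z := η * x) (w := w) ha0 ha1 hμ hx0 hk00 hkdef
      (by linarith) (by positivity)
      (by
        have : 0 ≤ (1 / b - c) * x := by
          apply mul_nonneg _ hx0.le; linarith
        positivity) hw2 hc0.le (by linarith) (by rw [hZ]; exact hzf) (by rw [hZ]; linarith)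
    refine h1.trans (ENNReal.ofReal_le_ofReal ?_)
    have hBI : 0 < BI a (η * x) := BI_pos ha0 ha1 (by positivity)
    have h2 : a * x ^ (a - 1) * (1 + c) * w.2 ≤ a * η * g * w.2 := by
      rw [← hg]
      have : a * g * (1 + c) ≤ a * η * g := by
        calc a * g * (1 + c) ≤ a * g * η := by gcongr
          _ = _ := by ring
      gcongr
    gcongr
  · have hBI : 0 < BI a (η * x) := BI_pos ha0 ha1 (by positivity)
    positivity
  · -- hV2
    intro w hw1 hw12 hY
    have e0 : 2 * (δ * x) = (2 * δ) * x := by ring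
    rw [e0] at hY
    have h1 := reach (2 * δ) w (by positivity) hw1 hw12 hY
    have h2 := reach2 w hw1 hw12
    set A3 := l * (η - 3 * δ) * x with hA3
    have hA30 : 0 < A3 := by positivity
    have h3 : A3 ≤ w.2 + w.1 / β := by
      have e1 : A3 = l * ((η - (2 * δ + δ)) * x) := by rw [hA3]; ring
      rw [e1]
      exact (by gcongr : l * ((η - (2 * δ + δ)) * x) ≤ l * (w.2 + c * w.1)).trans h2
    have h4 : (l * (η - 3 * δ)) ^ a * x ^ a = A3 ^ a := by
      rw [hA3, Real.mul_rpow (by positivity) hx0.le]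
    rw [mul_assoc l, h4]
    apply mul_le_mul_of_nonneg_left _ hl0.le
    unfold J0
    apply le_min
    · gcongr
    · have h5 := two_jobs (p0 := 0) ha0 ha1 hbl hw12 h3 le_rfl hw1 (by positivity)
      rw [zero_div, sub_zero, Real.zero_rpow ha0.ne', zero_add] at h5
      refine le_trans (le_min ?_ le_rfl) h5
      rw [Real.div_rpow hA30.le hη'0.le, mul_div_assoc', le_div_iff₀ (by positivity)]
      have h6 : 0 < A3 ^ a := by positivity
      calc A3 ^ a * (1 + 1 / β) ^ a ≤ A3 ^ a * 2 := by gcongr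
        _ = 2 * A3 ^ a := by ring

end Pool.Agent.Lib.MP_04add8_pr
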