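import Mathlib
import Pool.Agent.Lib.MP_04add8_pr.Final
import Pool.Agent.Lib.MP_04add8_pr.Exact.UpperPre

/-! The exact upper bound. -/

open MeasureTheory ProbabilityTheory Filter Topology
open scoped ENNReal

set_option linter.unusedSectionVars false

namespace Pool.Agent.Lib.MP_04add8_pr

variable {a : ℝ} {μ ν : Measure ℝ} [IsProbabilityMeasure μ] [IsProbabilityMeasure ν]
  {π : Measure (ℝ × ℝ)}

lemma exp_le_BI' (ha0 : 0 < a) (ha1 : a < 1) {z : ℝ} (hz : 1 ≤ z) :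
    Real.exp (-(z ^ a)) ≤ BI a z := by
  have h1 := exp_le_BI ha0 ha1 (by linarith : 0 < z)
  have h2 : z ^ (a - 1) ≤ 1 := Real.rpow_le_one_of_one_le_of_nonpos hz (by linarith)
  have h3 := BI_pos ha0 ha1 (by linarith : 0 ≤ z)
  have h4 : 0 ≤ z ^ (a - 1) := by
    have : 0 ≤ z := by linarith
    positivity
  have h5 : a * z ^ (a - 1) ≤ 1 * 1 := by gcongr
  calc Real.exp (-(z ^ a)) ≤ a * z ^ (a - 1) * BI a z := h1
    _ ≤ (1 * 1) * BI a z := by gcongr
    _ = BI a z := by ring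

lemma tendsto_mul_exp_neg (ha0 : 0 < a) {G : ℝ} (hG : 0 < G) :
    Tendsto (fun x : ℝ => x * Real.exp (-(G * x ^ a))) atTop (𝓝 0) := by
  have h := (tendsto_exp_beats (p := 1) (by norm_num) hG ha0).inv_tendsto_atTop
  refine h.congr' ?_
  filter_upwards [eventually_gt_atTop 0] with x hx
  simp only [Pi.inv_apply]
  rw [mul_inv, Real.rpow_neg_one, inv_inv, Real.exp_neg]

theorem exact_upper (ha0 : 0 < a) (ha2 : a < 1 / 2)
    (hμ : ∀ x, 0 ≤ x → μ (Set.Ioi x) = ENNReal.ofReal (Real.exp (-(x ^ a))))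
    (hν : ν (Set.Iio 0) = 0) (hνi : Integrable (fun t : ℝ => t) ν)
    (hνi2 : Integrable (fun t : ℝ => t ^ 2) ν)
    (hgt : (∫ t, t ∂ν) < ∫ s, s ∂μ) (hlt : (∫ s, s ∂μ) < 2 * ∫ t, t ∂ν)
    (hπ : IsStationaryKW μ ν π)
    (hηa : ((∫ s, s ∂μ) / ((∫ s, s ∂μ) - ∫ t, t ∂ν)) ^ a < 2) {ε : ℝ} (hε : 0 < ε) :
    ∀ᶠ y in atTop, (2 * (∫ t, t ∂ν) - ∫ s, s ∂μ) * π.real {w | y < w.1} ≤
      (1 + ε) * BI a ((∫ s, s ∂μ) / ((∫ s, s ∂μ) - ∫ t, t ∂ν) * y) := by
  have ha1 : a < 1 := by linarith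
  have hpre := fun {b k0 δ l C1 x c R τ : ℝ} => upper_pre (π := π) (b := b) (k0 := k0) (δ := δ)
    (l := l) (C1 := C1) (x := x) (c := c) (R := R) (τ := τ) ha0 ha1 hμ hν hνi hνi2 hgt hlt hπ
  set E := ∫ s, s ∂μ with hE
  set m := ∫ t, t ∂ν with hmdef
  set E2 := ∫ s, s ^ 2 ∂μ with hE2
  set T2 := ∫ t, t ^ 2 ∂ν with hT2
  set Q1 := ∫ s, s ^ 2 * Real.exp (s ^ a / 2) ∂μ with hQ1
  have hprob : IsProbabilityMeasure π := hπ.1
  have hE20 : 0 ≤ E2 := integral_nonneg fun t => by positivity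
  have hT20 : 0 ≤ T2 := integral_nonneg fun t => by positivity
  have hQ10 : 0 ≤ Q1 := integral_nonneg fun t => by positivity
  have hm : 0 < m := by linarith
  have hEm : 0 < E - m := by linarith
  have hκ0 : 0 < 2 * m - E := by linarith
  set b := (E - m) / m with hb
  have hb0 : 0 < b := by rw [hb]; positivity
  have hb1 : b < 1 := by rw [hb, div_lt_one hm]; linarith
  have hbm : E = (1 + b) * m := by rw [hb]; field_simp; ring
  have hηb : E / (E - m) = 1 + 1 / b := by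
    rw [hb]; field_simp; ring
  rw [hηb] at hηa
  set C1 := 4 * (1 + 1 / b) * T2 + (1 / b) * (E2 + T2) / 2 +
      ((1 / b) ^ 2 * Q1 + (1 + 1 / b) ^ 2 * T2) with hC1
  have hC10 : 0 ≤ C1 := by positivity
  -- choice of `k0`
  obtain ⟨k0, hk0, hk0ε⟩ : ∃ k0 : ℝ, 8 ≤ k0 ∧
      (1 + 2 * a / k0) * Real.exp (a * (1 / b) * (1 / k0)) < 1 + ε := by
    have h0 : Tendsto (fun k : ℝ => 1 / k) atTop (𝓝 0) := by
      simpa using tendsto_inv_atTop_zero
    have h1 : Tendsto (fun k : ℝ => (1 + 2 * a * (1 / k)) *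
        Real.exp (a * (1 / b) * (1 / k))) atTop (𝓝 ((1 + 2 * a * 0) * Real.exp (a * (1 / b) * 0))) :=
      ((h0.const_mul (2 * a)).const_add 1).mul
        ((Real.continuous_exp.tendsto _).comp (h0.const_mul (a * (1 / b))))
    have h2 := h1.eventually_lt_const (u := 1 + ε) (by simpa using hε)
    obtain ⟨k0, h3, h4⟩ := (h2.and (eventually_ge_atTop 8)).exists
    refine ⟨k0, h4, ?_⟩
    have : 2 * a / k0 = 2 * a * (1 / k0) := by ring
    rw [this]
    exact h3
  have hk00 : 0 < k0 := by linarith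
  obtain ⟨δ, hδ0, hδ8, hD1, hD2, hD3, hD4, hD5, hD6⟩ := exists_delta ha0 ha1 hb0 hb1 hk0 hηa
  obtain ⟨l, hl1, hl2, hV0, hdA, hV2, hη'⟩ := exists_lam ha0 ha1 hb0 hb1 hηa hδ0 hδ8 hD3 hD4 hD5 hD6
  have hl0 : 0 < l := hb0.trans hl1
  set V0 := l * min ((l * (1 + 1 / b - 2 * δ)) ^ a + (1 - a) * (δ * b / 2) ^ a)
        (min (2 * ((l * (1 + 1 / b - 2 * δ)) / (1 + 1 / (b / l))) ^ a)
          ((δ * b / 2) ^ a + (l * (1 + 1 / b - 2 * δ) - δ * b / 2 / (b / l)) ^ a)) with hV0def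
  set V2 := l * (l * (1 + 1 / b - 3 * δ)) ^ a with hV2def
  set η := 1 + 1 / b with hηdef
  have hη1 : 1 ≤ η := by
    have : 0 < 1 / b := by positivity
    rw [hηdef]; linarith
  have hη0 : 0 < η := by linarith
  set G := min (k0 * δ / 2 + V2 - η ^ a) (V0 - η ^ a) with hG
  have hG0 : 0 < G := lt_min (by linarith) (by linarith)
  set K4 := ∫ w, Real.exp (l * J0 a (b / l) w) ∂π with hK4
  set K1 := ∫ w, (1 + w.2) * Real.exp (l * J0 a (b / l) w) ∂π with hK1
  set K2 := ∫ s, (1 + s) * Real.exp (l * s ^ a) ∂μ with hK2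
  have hK40 : 0 ≤ K4 := integral_nonneg fun w => by positivity
  have hK10 : 0 ≤ K1 := by
    apply integral_nonneg_of_ae
    filter_upwards [hπ.ae_ordered] with w hw
    have hw2 : 0 ≤ w.2 := hw.1.trans hw.2
    simp only [Pi.zero_apply]
    positivity
  have hK20 : 0 ≤ K2 := by
    apply integral_nonneg_of_ae
    filter_upwards [weibull_ae_pos ha0 hμ] with s hs
    simp only [Pi.zero_apply]
    positivity
  set K5 := 2 * K4 + (1 + η) * (K1 * K2) with hK5
  have hK50 : 0 ≤ K5 := by positivity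
  set Φ : ℝ → ℝ := fun x => ∫ w, ({w : ℝ × ℝ | w.2 ≤ δ * b / 2 * x}).indicator
    (fun w => Real.exp (a * η * x ^ (a - 1) * w.2)) w ∂π with hΦ
  have hΦ1 : Tendsto Φ atTop (𝓝 1) :=
    tendsto_near ha0 ha1 hμ hν hνi hgt hlt hπ (by positivity) (by positivity) hD2
  set τ : ℝ → ℝ := fun x => C1 * (k0 * x ^ (a - 1)) with hτ
  set c : ℝ → ℝ := fun x => (m - τ x) / (E - m) with hc
  set ρ : ℝ → ℝ := fun x => x ^ (-a) / k0 with hρ
  have hg0 : Tendsto (fun x : ℝ => x ^ (a - 1)) atTop (𝓝 0) := by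
    have := tendsto_rpow_neg_atTop (y := 1 - a) (by linarith)
    simpa using this
  have hτ0 : Tendsto τ atTop (𝓝 0) := by
    have := (hg0.const_mul k0).const_mul C1
    simpa using this
  have hc0 : Tendsto c atTop (𝓝 (1 / b)) := by
    have h1 : Tendsto c atTop (𝓝 ((m - 0) / (E - m))) := (hτ0.const_sub m).div_const _
    have h2 : (m - 0) / (E - m) = 1 / b := by rw [hb]; field_simp; ring
    rwa [h2] at h1
  have hρ0 : Tendsto ρ atTop (𝓝 0) := by
    have := (tendsto_rpow_neg_atTop ha0).div_const k0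
    simpa using this
  have hb1' : 1 < 1 / b := by rw [lt_div_iff₀ hb0]; linarith
  -- eventual facts
  have F1 : ∀ᶠ x in atTop, 1 < c x := hc0.eventually_const_lt hb1'
  have F3 : ∀ᶠ x in atTop, 0 < (c x - 1) * (δ * b / 2) - 2 * ρ x := by
    have h1 : Tendsto (fun x => (c x - 1) * (δ * b / 2) - 2 * ρ x) atTop
        (𝓝 ((1 / b - 1) * (δ * b / 2) - 2 * 0)) :=
      ((hc0.sub_const 1).mul_const _).sub (hρ0.const_mul 2)
    apply h1.eventually_const_lt
    have : 0 < 1 / b - 1 := by linarith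
    have h2 : 0 < (1 / b - 1) * (δ * b / 2) := by positivity
    linarith
  have F4 : ∀ᶠ x in atTop, (1 / b - c x) + c x * ρ x < δ := by
    have h1 : Tendsto (fun x => (1 / b - c x) + c x * ρ x) atTop
        (𝓝 ((1 / b - 1 / b) + 1 / b * 0)) := (hc0.const_sub _).add (hc0.mul hρ0)
    apply h1.eventually_lt_const
    simpa using hδ0
  have F5 : ∀ᶠ x in atTop, τ x < 2 * m - E := hτ0.eventually_lt_const hκ0
  have F6 : ∀ᶠ x in atTop, (2 * m - E) * k0 ≤ x ^ (1 - a) :=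
    (tendsto_rpow_atTop (by linarith : 0 < 1 - a)).eventually_ge_atTop _
  -- the limit of the right-hand side
  set RHS : ℝ → ℝ := fun x => (2 * m - E) / (2 * m - E - τ x) * ((1 + 2 * a / k0) *
    Real.exp (a * (C1 * k0 / (E - m)) * x ^ (2 * a - 1) + a * (1 / b) * (1 / k0)) * Φ x +
    K5 * (x * Real.exp (-(G * x ^ a)))) with hRHS
  have hlim : Tendsto RHS atTop (𝓝 ((2 * m - E) / (2 * m - E - 0) * ((1 + 2 * a / k0) *
      Real.exp (a * (C1 * k0 / (E - m)) * 0 + a * (1 / b) * (1 / k0)) * 1 + K5 * 0))) := by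
    have h1 : Tendsto (fun x : ℝ => x ^ (2 * a - 1)) atTop (𝓝 0) := by
      have := tendsto_rpow_neg_atTop (y := 1 - 2 * a) (by linarith)
      simpa using this
    have h2 : Tendsto (fun x : ℝ =>
        Real.exp (a * (C1 * k0 / (E - m)) * x ^ (2 * a - 1) + a * (1 / b) * (1 / k0))) atTop
        (𝓝 (Real.exp (a * (C1 * k0 / (E - m)) * 0 + a * (1 / b) * (1 / k0)))) :=
      (Real.continuous_exp.tendsto _).comp ((h1.const_mul _).add_const _)
    have h3 : Tendsto (fun x => (2 * m - E) / (2 * m - E - τ x)) atTop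
        (𝓝 ((2 * m - E) / (2 * m - E - 0))) :=
      tendsto_const_nhds.div (hτ0.const_sub _) (by rw [sub_zero]; exact hκ0.ne')
    exact h3.mul (((h2.const_mul _).mul hΦ1).add ((tendsto_mul_exp_neg ha0 hG0).const_mul K5))
  have hfin := hlim.eventually_lt_const (u := 1 + ε) (by
    rw [sub_zero, div_self hκ0.ne', mul_zero, mul_zero, zero_add, mul_one, add_zero, one_mul]
    exact hk0ε)
  filter_upwards [F1, F3, F4, F5, F6, hfin, eventually_ge_atTop 1] with x f1 f3 f4 f5 f6 hr hx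
  have hx0 : 0 < x := by linarith
  rw [hηb]
  have hxa0 : 0 < x ^ a := by positivity
  have hRx : x ^ (1 - a) / k0 = x * ρ x := by
    rw [hρ]
    simp only
    rw [mul_div_assoc', ← Real.rpow_one_add' hx0.le (by linarith)]
    congr 1
  have hcdef : c x * (E - m) = m - τ x := by rw [hc]; field_simp
  have hRxρ : 0 ≤ ρ x := by rw [hρ]; positivity
  have hp := hpre (b := b) (k0 := k0) (δ := δ) (l := l) (C1 := C1) (x := x) (c := c x)
    (R := x ^ (1 - a) / k0) (τ := τ x) hb hk0 hδ0 hδ8 hD1 hl1 hl2 hdA hη' hC1 hx rfl hcdef rfl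
    f1.le (by
      rw [hRx]
      have : 0 < ((c x - 1) * (δ * b / 2) - 2 * ρ x) * x := by positivity
      linarith) (by
      rw [hRx]
      have : ((1 / b - c x) + c x * ρ x) * x ≤ δ * x := by gcongr
      linarith) (by linarith) (by rw [le_div_iff₀ hk00]; exact f6)
  have hBI : 0 < BI a (η * x) := BI_pos ha0 ha1 (by positivity)
  have hηx : 1 ≤ η * x := by
    calc (1 : ℝ) = 1 * 1 := by ring
      _ ≤ η * x := by gcongr
  have hexpBI : Real.exp (-(η ^ a * x ^ a)) ≤ BI a (η * x) := by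
    rw [← Real.mul_rpow hη0.le hx0.le]
    exact exp_le_BI' ha0 ha1 hηx
  have hGle1 : G ≤ k0 * δ / 2 + V2 - η ^ a := min_le_left _ _
  have hGle2 : G ≤ V0 - η ^ a := min_le_right _ _
  -- the error terms
  have herr1 : Real.exp (-(k0 * δ / 2 * x ^ a)) * Real.exp (-(V2 * x ^ a)) ≤
      Real.exp (-(G * x ^ a)) * BI a (η * x) := by
    calc Real.exp (-(k0 * δ / 2 * x ^ a)) * Real.exp (-(V2 * x ^ a))
        ≤ Real.exp (-(G * x ^ a)) * Real.exp (-(η ^ a * x ^ a)) := by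
          rw [← Real.exp_add, ← Real.exp_add]
          apply Real.exp_le_exp.mpr
          have : (G + η ^ a) * x ^ a ≤ (k0 * δ / 2 + V2) * x ^ a :=
            mul_le_mul_of_nonneg_right (by linarith) hxa0.le
          linarith
      _ ≤ _ := by gcongr
  have herr2 : Real.exp (-(V0 * x ^ a)) ≤ Real.exp (-(G * x ^ a)) * BI a (η * x) := by
    calc Real.exp (-(V0 * x ^ a))
        ≤ Real.exp (-(G * x ^ a)) * Real.exp (-(η ^ a * x ^ a)) := by
          rw [← Real.exp_add]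
          apply Real.exp_le_exp.mpr
          have : (G + η ^ a) * x ^ a ≤ V0 * x ^ a :=
            mul_le_mul_of_nonneg_right (by linarith) hxa0.le
          linarith
      _ ≤ _ := by gcongr
  have hexpo : Real.exp (a * x ^ (a - 1) * ((1 / b - c x) * x + c x * (x ^ (1 - a) / k0))) ≤
      Real.exp (a * (C1 * k0 / (E - m)) * x ^ (2 * a - 1) + a * (1 / b) * (1 / k0)) := by
    apply Real.exp_le_exp.mpr
    have h1 : 1 / b - c x = τ x / (E - m) := by
      rw [hc, hb]; field_simp; ring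
    have h2 : x ^ (a - 1) * x ^ (a - 1) * x = x ^ (2 * a - 1) := by
      rw [← Real.rpow_add hx0, ← Real.rpow_add_one hx0.ne']; congr 1; ring
    have h3 : x ^ (a - 1) * x ^ (1 - a) = 1 := by
      rw [← Real.rpow_add hx0]
      have : a - 1 + (1 - a) = 0 := by ring
      rw [this, Real.rpow_zero]
    have h4 : c x ≤ 1 / b := by
      have : 0 ≤ τ x / (E - m) := by rw [hτ]; positivity
      linarith
    have h5 : a * x ^ (a - 1) * ((1 / b - c x) * x + c x * (x ^ (1 - a) / k0)) =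
        a * (C1 * k0 / (E - m)) * (x ^ (a - 1) * x ^ (a - 1) * x) +
        a * c x * (1 / k0) * (x ^ (a - 1) * x ^ (1 - a)) := by
      rw [h1, hτ]; ring
    rw [h5, h2, h3, mul_one]
    gcongr
  have hΦ0 : 0 ≤ Φ x := by
    rw [hΦ]
    apply integral_nonneg
    intro w
    apply Set.indicator_nonneg
    intro w _
    positivity
  set P := π.real {w : ℝ × ℝ | x < w.1} with hP
  have hsum : (2 * m - E - τ x) * P ≤ BI a (η * x) * ((1 + 2 * a / k0) *
      Real.exp (a * (C1 * k0 / (E - m)) * x ^ (2 * a - 1) + a * (1 / b) * (1 / k0)) * Φ x +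
      K5 * (x * Real.exp (-(G * x ^ a)))) := by
    refine hp.trans ?_
    have t1 : (1 + 2 * a / k0) * Real.exp (a * x ^ (a - 1) *
        ((1 / b - c x) * x + c x * (x ^ (1 - a) / k0))) * BI a (η * x) * Φ x ≤
        (1 + 2 * a / k0) * Real.exp (a * (C1 * k0 / (E - m)) * x ^ (2 * a - 1) +
        a * (1 / b) * (1 / k0)) * BI a (η * x) * Φ x := by gcongr
    have t2 : 2 * (Real.exp (-(k0 * δ / 2 * x ^ a)) * x) * (K4 * Real.exp (-(V2 * x ^ a))) ≤
        2 * K4 * x * (Real.exp (-(G * x ^ a)) * BI a (η * x)) := by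
      calc 2 * (Real.exp (-(k0 * δ / 2 * x ^ a)) * x) * (K4 * Real.exp (-(V2 * x ^ a)))
          = 2 * K4 * x * (Real.exp (-(k0 * δ / 2 * x ^ a)) * Real.exp (-(V2 * x ^ a))) := by ring
        _ ≤ _ := by gcongr
    have t3 : (x + η) * Real.exp (-(V0 * x ^ a)) * (K1 * K2) ≤
        ((1 + η) * x) * (Real.exp (-(G * x ^ a)) * BI a (η * x)) * (K1 * K2) := by
      have : x + η ≤ (1 + η) * x := by
        have : η * 1 ≤ η * x := by gcongr
        linarith
      gcongr
    have t4 := add_le_add (add_le_add t1 t2) t3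
    refine t4.trans (le_of_eq ?_)
    rw [hK5]
    ring
  have hκτ : 0 < 2 * m - E - τ x := by linarith
  have hfinal : (2 * m - E) * P ≤ BI a (η * x) * RHS x := by
    calc (2 * m - E) * P = (2 * m - E) / (2 * m - E - τ x) * ((2 * m - E - τ x) * P) := by
          field_simp
      _ ≤ (2 * m - E) / (2 * m - E - τ x) * (BI a (η * x) * ((1 + 2 * a / k0) *
      Real.exp (a * (C1 * k0 / (E - m)) * x ^ (2 * a - 1) + a * (1 / b) * (1 / k0)) * Φ x +
      K5 * (x * Real.exp (-(G * x ^ a))))) := by gcongr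
      _ = _ := by rw [hRHS]; ring
  calc (2 * m - E) * P ≤ BI a (η * x) * RHS x := hfinal
    _ ≤ BI a (η * x) * (1 + ε) := by gcongr
    _ = _ := by ring

end Pool.Agent.Lib.MP_04add8_pr
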