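import Mathlib
import Pool.Agent.Lib.MP_04add8_pr.Exact.LowerAsy
import Pool.Agent.Lib.MP_04add8_pr.Exact.UpperAsy

/-! The exact asymptotics. -/

open MeasureTheory ProbabilityTheory Filter Topology
open scoped ENNReal

set_option linter.unusedSectionVars false

namespace Pool.Agent.Lib.MP_04add8_pr

variable {a : ℝ} {μ ν : Measure ℝ} [IsProbabilityMeasure μ] [IsProbabilityMeasure ν]
  {π : Measure (ℝ × ℝ)}

theorem exact_one (ha0 : 0 < a) (ha2 : a < 1 / 2)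
    (hμ : ∀ x, 0 ≤ x → μ (Set.Ioi x) = ENNReal.ofReal (Real.exp (-(x ^ a))))
    (hν : ν (Set.Iio 0) = 0) (hνi : Integrable (fun t : ℝ => t) ν)
    (hνi2 : Integrable (fun t : ℝ => t ^ 2) ν)
    (hgt : (∫ t, t ∂ν) < ∫ s, s ∂μ) (hlt : (∫ s, s ∂μ) < 2 * ∫ t, t ∂ν)
    (hπ : IsStationaryKW μ ν π)
    (hηa : ((∫ s, s ∂μ) / ((∫ s, s ∂μ) - ∫ t, t ∂ν)) ^ a < 2) :
    Tendsto (fun x : ℝ => π.real {w | x < w.1} /
      (1 / (2 * (∫ t, t ∂ν) - ∫ s, s ∂μ) *
        integratedTail μ ((∫ s, s ∂μ) / ((∫ s, s ∂μ) - ∫ t, t ∂ν) * x))) atTop (𝓝 1) := by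
  have ha1 : a < 1 := by linarith
  have hlow := fun {ε : ℝ} => exact_lower (ε := ε) ha0 ha2 hμ hν hνi hνi2 hgt hlt hπ
  have hupp := fun {ε : ℝ} => exact_upper (ε := ε) ha0 ha2 hμ hν hνi hνi2 hgt hlt hπ hηa
  set E := ∫ s, s ∂μ with hE
  set m := ∫ t, t ∂ν with hmdef
  have hκ : 0 < 2 * m - E := by linarith
  have hη0 : 0 < E / (E - m) := div_pos (by linarith) (by linarith)
  set η := E / (E - m) with hη
  have hBI1 : ∀ᶠ x in atTop, BI a (η * x) < 1 :=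
    ((tendsto_BI ha0 ha1).comp (tendsto_id.const_mul_atTop hη0)).eventually_lt_const one_pos
  rw [Metric.tendsto_nhds]
  intro ε hε
  filter_upwards [hlow (half_pos hε), hupp (half_pos hε), hBI1, eventually_gt_atTop 0]
    with x h1 h2 h3 hx
  have hB : 0 < BI a (η * x) := BI_pos ha0 ha1 (by positivity)
  have h3' : BI a (η * x) ≤ 1 := le_of_lt h3
  rw [integratedTail_eq hμ (by positivity), min_eq_right h3']
  set P := π.real {w : ℝ × ℝ | x < w.1} with hP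
  have e : P / (1 / (2 * m - E) * BI a (η * x)) = (2 * m - E) * P / BI a (η * x) := by
    field_simp
  rw [e, Real.dist_eq, abs_lt]
  have h4 : 1 - ε / 2 ≤ (2 * m - E) * P / BI a (η * x) := by
    rw [le_div_iff₀ hB]; exact h1
  have h5 : (2 * m - E) * P / BI a (η * x) ≤ 1 + ε / 2 := by
    rw [div_le_iff₀ hB]; exact h2
  constructor <;> linarith

end Pool.Agent.Lib.MP_04add8_pr
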